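import Mathlib

/-!
Abelian-by-(virtually cyclic) groups: decomposition `x = a t^i p`, seminorms, paths.
-/

open Pointwise

namespace Pool.Agent.AC73

/-- Decomposition of the elements of `G` as `ι (al x) * t ^ lev x * rep x`, with `rep x` in a finite
set `P`; `ι : K → G` is injective, `K` is abelian, `φ` is conjugation by `t` on `K`. -/
structure Dec (G K : Type) [Group G] [CommGroup K] where
  ι : K →* G
  φ : MulAut K
  t : G
  P : Finset G
  al : G → K
  lev : G → ℤ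
  rep : G → G
  inj : Function.Injective ι
  hφ : ∀ k, ι (φ k) = t * ι k * t⁻¹
  dec : ∀ x, x = ι (al x) * t ^ lev x * rep x
  rep_mem : ∀ x, rep x ∈ P
  one_mem : (1 : G) ∈ P
  uniq : ∀ (k : K) (i : ℤ), ∀ p ∈ P, al (ι k * t ^ i * p) = k ∧ lev (ι k * t ^ i * p) = i ∧
    rep (ι k * t ^ i * p) = p

/-- A nonzero seminorm on `K` that is multiplied by `Λ > 1` under `φ`. -/
structure Nu {K : Type} [CommGroup K] (φ : MulAut K) where
  ν : K → ℝ
  Λ : ℝ
  hΛ : 1 < Λ
  nonneg : ∀ k, 0 ≤ ν k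
  inv : ∀ k, ν k⁻¹ = ν k
  mul : ∀ k l, ν (k * l) ≤ ν k + ν l
  scale : ∀ k, ν (φ k) = Λ * ν k
  k₀ : K
  pos : 0 < ν k₀

/-- `x 0 = 1, x 1, ..., x n` are the prefixes of a word of length `n` in the letters `T`. -/
structure IsPath {G : Type} [Group G] (T : Finset G) (n : ℕ) (x : ℕ → G) : Prop where
  zero : x 0 = 1
  step : ∀ k < n, ∃ s ∈ T, x (k + 1) = x k * s

/-- number of the `k ≤ n` with `a ≤ i k` -/
def cnt (n : ℕ) (i : ℕ → ℤ) (a : ℤ) : ℕ := ((Finset.range (n + 1)).filter fun k => a ≤ i k).card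

/-- the letters `k` (from `x k` to `x (k+1)`) with both end points of level `< θ` -/
def low (n : ℕ) (i : ℕ → ℤ) (θ : ℤ) : Finset ℕ :=
  (Finset.range n).filter fun k => i k < θ ∧ i (k + 1) < θ

/-- the letters with exactly one end point of level `< θ` -/
def cr (n : ℕ) (i : ℕ → ℤ) (θ : ℤ) : Finset ℕ :=
  (Finset.range n).filter fun k => ¬ (i k < θ ↔ i (k + 1) < θ)

/-- the choice of the cut level `M - h`: `M` is the maximum of `i` on `[0, n]`, `N` the number of the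
`k` with `M - h ≤ i k`, and `h` maximizes `cnt (M - h) / ω ^ h`. -/
structure IsCut (n : ℕ) (i : ℕ → ℤ) (ω : ℝ) (M : ℤ) (h N : ℕ) : Prop where
  le : ∀ k ≤ n, i k ≤ M
  eq : ∃ k ≤ n, i k = M
  hN : N = cnt n i (M - h)
  pow : ω ^ h ≤ N
  max : ∀ j : ℕ, (cnt n i (M - j) : ℝ) * ω ^ h ≤ N * ω ^ j

/-- `y` is the end of a path of length `n` with cut number `N` -/
def Prof {G K : Type} [Group G] [CommGroup K] (D : Dec G K) (T : Finset G) (ω : ℝ) (n N : ℕ)
    (y : G) : Prop :=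
  ∃ (x : ℕ → G) (M : ℤ) (h : ℕ), IsPath T n x ∧ x n = y ∧
    IsCut n (fun k => D.lev (x k)) ω M h N

section
variable {G K : Type} [Group G] [CommGroup K] (D : Dec G K)

lemma Dec.hφ_zpow (i : ℤ) (k : K) : D.ι ((D.φ ^ i) k) = D.t ^ i * D.ι k * D.t ^ (-i) := by
  have h1 : ∀ k, D.ι (D.φ⁻¹ k) = D.t⁻¹ * D.ι k * D.t := by
    intro k
    have h2 := D.hφ (D.φ⁻¹ k)
    rw [MulAut.apply_inv_self] at h2
    rw [h2]
    group
  induction i using Int.induction_on generalizing k with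
  | zero => simp
  | succ i ih =>
    rw [zpow_add_one, MulAut.mul_apply, ih, D.hφ]
    rw [zpow_add_one, neg_add, zpow_add, zpow_neg_one]
    group
  | pred i ih =>
    rw [zpow_sub_one, MulAut.mul_apply, ih, h1]
    rw [zpow_sub_one]
    group

lemma Dec.one : D.al 1 = 1 ∧ D.lev 1 = 0 ∧ D.rep 1 = 1 := by
  have := D.uniq 1 0 1 D.one_mem
  simpa using this

lemma Dec.mul (x s : G) : D.al (x * s) = D.al x * (D.φ ^ D.lev x) (D.al (D.rep x * s)) ∧
    D.lev (x * s) = D.lev x + D.lev (D.rep x * s) ∧ D.rep (x * s) = D.rep (D.rep x * s) := by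
  have e : x * s = D.ι (D.al x * (D.φ ^ D.lev x) (D.al (D.rep x * s))) *
      D.t ^ (D.lev x + D.lev (D.rep x * s)) * D.rep (D.rep x * s) := by
    have h1 := D.dec x
    have h2 := D.dec (D.rep x * s)
    rw [map_mul, D.hφ_zpow]
    calc x * s = D.ι (D.al x) * D.t ^ D.lev x * (D.rep x * s) := by
          conv_lhs => rw [h1]
          rw [mul_assoc]
      _ = D.ι (D.al x) * D.t ^ D.lev x * (D.ι (D.al (D.rep x * s)) *
            D.t ^ D.lev (D.rep x * s) * D.rep (D.rep x * s)) := by rw [← h2]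
      _ = _ := by rw [zpow_add]; group
  have h3 := D.uniq (D.al x * (D.φ ^ D.lev x) (D.al (D.rep x * s)))
    (D.lev x + D.lev (D.rep x * s)) (D.rep (D.rep x * s)) (D.rep_mem _)
  rw [← e] at h3
  exact h3

lemma Dec.left (k : K) (x : G) : D.al (D.ι k * x) = k * D.al x ∧ D.lev (D.ι k * x) = D.lev x ∧
    D.rep (D.ι k * x) = D.rep x := by
  have e : D.ι k * x = D.ι (k * D.al x) * D.t ^ D.lev x * D.rep x := by
    rw [map_mul]
    conv_lhs => rw [D.dec x]
    group
  have h3 := D.uniq (k * D.al x) (D.lev x) (D.rep x) (D.rep_mem _)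
  rw [← e] at h3
  exact h3

/-- the decomposition with respect to `t⁻¹` -/
def Dec.flip : Dec G K where
  ι := D.ι
  φ := D.φ⁻¹
  t := D.t⁻¹
  P := D.P
  al := D.al
  lev := fun x => -D.lev x
  rep := D.rep
  inj := D.inj
  hφ := by
    intro k
    have := D.hφ_zpow (-1) k
    rw [zpow_neg_one] at this
    rw [this]
    group
  dec := by
    intro x
    conv_lhs => rw [D.dec x]
    rw [inv_zpow', neg_neg]
  rep_mem := D.rep_mem
  one_mem := D.one_mem
  uniq := by
    intro k i p hp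
    have := D.uniq k (-i) p hp
    rw [inv_zpow']
    refine ⟨this.1, ?_, this.2.2⟩
    rw [this.2.1, neg_neg]

variable {D}

lemma Nu.scale_zpow {φ : MulAut K} (V : Nu φ) (i : ℤ) (k : K) :
    V.ν ((φ ^ i) k) = V.Λ ^ i * V.ν k := by
  have hΛ0 : V.Λ ≠ 0 := (zero_lt_one.trans V.hΛ).ne'
  have h1 : ∀ k, V.ν (φ⁻¹ k) = V.Λ⁻¹ * V.ν k := by
    intro k
    have h2 := V.scale (φ⁻¹ k)
    rw [MulAut.apply_inv_self] at h2
    rw [h2, inv_mul_cancel_left₀ hΛ0]
  induction i using Int.induction_on generalizing k with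
  | zero => simp
  | succ i ih =>
    rw [zpow_add_one, MulAut.mul_apply, ih, V.scale, zpow_add_one₀ hΛ0]
    ring
  | pred i ih =>
    rw [zpow_sub_one, MulAut.mul_apply, ih, h1, zpow_sub_one₀ hΛ0]
    ring

lemma Nu.one {φ : MulAut K} (V : Nu φ) : V.ν 1 = 0 := by
  have h := V.scale 1
  rw [map_one] at h
  have h2 : (V.Λ - 1) * V.ν 1 = 0 := by linear_combination -h
  rcases mul_eq_zero.mp h2 with h3 | h3
  · have := V.hΛ; linarith
  · exact h3

variable [DecidableEq G]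

lemma exists_path (T : Finset G) (n : ℕ) : ∀ y ∈ T ^ n, ∃ x : ℕ → G, IsPath T n x ∧ x n = y := by
  induction n with
  | zero =>
    intro y hy
    rw [pow_zero, Finset.mem_one] at hy
    exact ⟨fun _ => 1, ⟨rfl, fun k hk => absurd hk (Nat.not_lt_zero k)⟩, hy.symm⟩
  | succ n ih =>
    intro y hy
    rw [pow_succ] at hy
    obtain ⟨y', hy', s, hs, rfl⟩ := Finset.mem_mul.mp hy
    obtain ⟨x, hx, hxn⟩ := ih y' hy'
    refine ⟨fun k => if k ≤ n then x k else y' * s, ⟨by simpa using hx.zero, ?_⟩, by simp⟩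
    intro k hk
    rcases Nat.lt_succ_iff_lt_or_eq.mp hk with h | h
    · obtain ⟨s', hs', e⟩ := hx.step k h
      exact ⟨s', hs', by simp [h.le, Nat.succ_le_of_lt h, e]⟩
    · subst h
      exact ⟨s, hs, by simp [hxn]⟩

lemma IsPath.mem {T : Finset G} {n : ℕ} {x : ℕ → G} (hx : IsPath T n x) :
    ∀ k ≤ n, x k ∈ T ^ k := by
  intro k
  induction k with
  | zero => intro _; rw [pow_zero, Finset.mem_one]; exact hx.zero
  | succ k ih =>
    intro hk
    obtain ⟨s, hs, e⟩ := hx.step k hk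
    rw [e, pow_succ]
    exact Finset.mul_mem_mul (ih (Nat.le_of_succ_le hk)) hs

lemma IsPath.mem' {T : Finset G} {n : ℕ} {x : ℕ → G} (hx : IsPath T n x) (k : ℕ) :
    ∀ m, k + m ≤ n → (x k)⁻¹ * x (k + m) ∈ T ^ m := by
  intro m
  induction m with
  | zero => intro _; simp
  | succ m ih =>
    intro hm
    obtain ⟨s, hs, e⟩ := hx.step (k + m) hm
    rw [← add_assoc, e, ← mul_assoc, pow_succ]
    exact Finset.mul_mem_mul (ih (Nat.le_of_succ_le hm)) hs

/-- insertion of `g` at the vertex `k` of a path -/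
lemma insertion (D : Dec G K) {T : Finset G} {n : ℕ} {x : ℕ → G} (hx : IsPath T n x) {k : ℕ}
    (hk : k ≤ n) (g : K) (l : ℕ) (hg : ∀ p ∈ D.P, p⁻¹ * D.ι g * p ∈ T ^ l) :
    D.ι ((D.φ ^ D.lev (x k)) g) * x n ∈ T ^ (n + l) := by
  have h1 := hx.mem k hk
  have h2 := hx.mem' k (n - k) (by omega)
  rw [Nat.add_sub_cancel' hk] at h2
  have e : D.ι ((D.φ ^ D.lev (x k)) g) * x n
      = x k * ((D.rep (x k))⁻¹ * D.ι g * D.rep (x k)) * ((x k)⁻¹ * x n) := by
    have e1 : D.ι ((D.φ ^ D.lev (x k)) g) * x k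
        = x k * ((D.rep (x k))⁻¹ * D.ι g * D.rep (x k)) := by
      have h3 := D.dec (x k)
      have h4 : D.ι ((D.φ ^ D.lev (x k)) g) * D.ι (D.al (x k))
          = D.ι (D.al (x k)) * D.ι ((D.φ ^ D.lev (x k)) g) := by
        rw [← map_mul, ← map_mul, mul_comm]
      rw [D.hφ_zpow] at h4 ⊢
      calc D.t ^ D.lev (x k) * D.ι g * D.t ^ (-D.lev (x k)) * x k
          = D.t ^ D.lev (x k) * D.ι g * D.t ^ (-D.lev (x k)) *
            (D.ι (D.al (x k)) * D.t ^ D.lev (x k) * D.rep (x k)) := by rw [← h3]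
        _ = (D.t ^ D.lev (x k) * D.ι g * D.t ^ (-D.lev (x k)) * D.ι (D.al (x k))) *
            D.t ^ D.lev (x k) * D.rep (x k) := by group
        _ = (D.ι (D.al (x k)) * D.t ^ D.lev (x k) * D.rep (x k)) *
            ((D.rep (x k))⁻¹ * D.ι g * D.rep (x k)) := by rw [h4]; group
        _ = _ := by rw [← h3]
    rw [← e1]
    group
  rw [e]
  have e3 : n + l = k + l + (n - k) := by omega
  rw [e3, pow_add, pow_add]
  exact Finset.mul_mem_mul (Finset.mul_mem_mul h1 (hg _ (D.rep_mem _))) h2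

end

end Pool.Agent.AC73
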