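import Pool.Agent.AC73.Base

/-!
Row C1 (100-130 lines). Cutting a path at the level `θ`. PROOF. Put `i k = D.lev (x k)`, `cl k = if i k < θ then t ^ i k * rep (x k) else t ^ θ`,
`a' 0 = 1`, `a' (k+1) = a' k * (if k ∈ low then (al (x k))⁻¹ * al (x (k+1)) else 1)`, so `a' k` is the product over `low ∩ [0,k)`, and `x' k = ι (a' k) * cl k`.
(a) `(x' k)⁻¹ * x' (k+1) ∈ T ^ w k` with `w k = 1` if `k ∈ low`, `c₀` if `k ∈ cr`, `0` otherwise: `low`: it equals `(x k)⁻¹ * x (k+1) ∈ T` because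
`cl k = ι (al (x k))⁻¹ * x k` and `cl (k+1) = ι (al (x (k+1)))⁻¹ * x (k+1)` (`D.dec`; `K` is abelian). Both end points `≥ θ`: it is `t^(-θ) * t^θ = 1`.
`cr`: it is `rep⁻¹ * t^(θ - i k)` with `0 < θ - i k ≤ R`, or `t^(i (k+1) - θ) * rep`; `|i (k+1) - i k| ≤ R` by `D.mul` and `hR`; use `hc₀`.
(b) `x' 0 = cl 0` is `1` if `0 < θ` and `t^θ` otherwise (`D.one`), so `x' 0 ∈ T ^ (c₁ * (-θ).toNat)`.
(c) let `k₀ ≤ n` with `θ ≤ i k₀`: `x' k₀ = ι (a' k₀) * t^θ`, so `ι ((φ^θ) g) * x' k₀ = x' k₀ * ι g` (`D.hφ_zpow`, `K` abelian), so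
`ι ((φ^θ) g) * x' n = x' 0 * ((x' 0)⁻¹ * x' k₀) * ι g * ((x' k₀)⁻¹ * x' n)`, lengths `c₁ * (-θ).toNat`, `∑_{k<k₀} w k`, `l`, `∑_{k₀≤k<n} w k`.
(`∑_{k<n} w k = |low| + c₀ |cr|`.)
-/

open Pointwise

namespace Pool.Agent.AC73

/- helper -/
theorem c1_tel {G : Type} [Group G] [DecidableEq G] {T : Finset G} (y : ℕ → G) (w : ℕ → ℕ) (n : ℕ)
    (h : ∀ k < n, (y k)⁻¹ * y (k + 1) ∈ T ^ w k) (k : ℕ) :
    ∀ m, k + m ≤ n → (y k)⁻¹ * y (k + m) ∈ T ^ (∑ j ∈ Finset.Ico k (k + m), w j) := by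
  intro m
  induction m with
  | zero => intro _; simp
  | succ m ih =>
    intro hm
    have h1 := ih (by omega)
    have h2 := h (k + m) (by omega)
    rw [← add_assoc, Finset.sum_Ico_succ_top (by omega), pow_add]
    have h3 := Finset.mul_mem_mul h1 h2
    rwa [mul_assoc, mul_inv_cancel_left] at h3

theorem clamp {G K : Type} [Group G] [CommGroup K] [DecidableEq G] (D : Dec G K) (T : Finset G)
    (n : ℕ) (x : ℕ → G) (hx : IsPath T n x) (R c₀ c₁ : ℕ)
    (hR : ∀ p ∈ D.P, ∀ s ∈ T, |D.lev (p * s)| ≤ R)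
    (hc₀ : ∀ p ∈ D.P, ∀ d : ℤ, |d| ≤ R → p⁻¹ * D.t ^ d ∈ T ^ c₀ ∧ D.t ^ d * p ∈ T ^ c₀)
    (hc₁ : D.t ∈ T ^ c₁ ∧ D.t⁻¹ ∈ T ^ c₁) (θ : ℤ) (hθ : ∃ k ≤ n, θ ≤ D.lev (x k))
    (g : K) (l : ℕ) (hg : D.ι g ∈ T ^ l) :
    D.ι ((D.φ ^ θ) g * ∏ k ∈ low n (fun k => D.lev (x k)) θ,
        ((D.al (x k))⁻¹ * D.al (x (k + 1)))) *
      (if D.lev (x n) < θ then D.t ^ D.lev (x n) * D.rep (x n) else D.t ^ θ)
    ∈ T ^ (c₁ * (-θ).toNat + (low n (fun k => D.lev (x k)) θ).card
        + c₀ * (cr n (fun k => D.lev (x k)) θ).card + l) := by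
  obtain ⟨k₀, hk₀, hθk⟩ := hθ
  set i : ℕ → ℤ := fun k => D.lev (x k) with hi
  set u : ℕ → K := fun k => (D.al (x k))⁻¹ * D.al (x (k + 1)) with hu
  set cl : ℕ → G := fun k => if i k < θ then D.t ^ i k * D.rep (x k) else D.t ^ θ with hcl
  set a' : ℕ → K := fun k => ∏ j ∈ Finset.range k, if (i j < θ ∧ i (j + 1) < θ) then u j else 1
    with ha'
  set w : ℕ → ℕ := fun k => if (i k < θ ∧ i (k + 1) < θ) then 1 else
    if ¬ (i k < θ ↔ i (k + 1) < θ) then c₀ else 0 with hw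
  set y : ℕ → G := fun k => D.ι (a' k) * cl k with hy
  have hjump : ∀ k < n, |i (k + 1) - i k| ≤ R := by
    intro k hk
    obtain ⟨s, hs, e⟩ := hx.step k hk
    have h1 := (D.mul (x k) s).2.1
    have h2 := hR (D.rep (x k)) (D.rep_mem _) s hs
    have h3 : i (k + 1) - i k = D.lev (D.rep (x k) * s) := by
      show D.lev (x (k + 1)) - D.lev (x k) = _
      rw [e, h1]
      ring
    rw [h3]
    exact h2
  have hstep : ∀ k < n, (y k)⁻¹ * y (k + 1) ∈ T ^ w k := by
    intro k hk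
    have hj := abs_le.1 (hjump k hk)
    have ha1 : a' (k + 1) = a' k * (if (i k < θ ∧ i (k + 1) < θ) then u k else 1) :=
      Finset.prod_range_succ _ _
    by_cases h1 : i k < θ <;> by_cases h2 : i (k + 1) < θ
    · have hwk : w k = 1 := by simp only [hw, h1, h2, and_self, if_true]
      have hc1 : cl k = (D.ι (D.al (x k)))⁻¹ * x k := by
        have h3 := D.dec (x k)
        have h4 : cl k = D.t ^ i k * D.rep (x k) := by simp only [hcl, h1, if_true]
        rw [h4]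
        rw [eq_inv_mul_iff_mul_eq, ← mul_assoc]
        exact h3.symm
      have hc2 : cl (k + 1) = (D.ι (D.al (x (k + 1))))⁻¹ * x (k + 1) := by
        have h3 := D.dec (x (k + 1))
        have h4 : cl (k + 1) = D.t ^ i (k + 1) * D.rep (x (k + 1)) := by
          simp only [hcl, h2, if_true]
        rw [h4]
        rw [eq_inv_mul_iff_mul_eq, ← mul_assoc]
        exact h3.symm
      obtain ⟨s, hs, e⟩ := hx.step k hk
      have h5 : (y k)⁻¹ * y (k + 1) = s := by
        have e1 : y (k + 1) = D.ι (a' k) * (D.ι (D.al (x k)))⁻¹ * x (k + 1) := by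
          show D.ι (a' (k + 1)) * cl (k + 1) = _
          rw [ha1, hc2]
          simp only [h1, h2, and_self, if_true, hu, map_mul, map_inv]
          group
        have e2 : y k = D.ι (a' k) * (D.ι (D.al (x k)))⁻¹ * x k := by
          show D.ι (a' k) * cl k = _
          rw [hc1, mul_assoc]
        rw [e1, e2, e]
        group
      rw [h5, hwk, pow_one]
      exact hs
    · have hwk : w k = c₀ := by simp only [hw, h1, h2]; simp
      have hc1 : cl k = D.t ^ i k * D.rep (x k) := by simp only [hcl, h1, if_true]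
      have hc2 : cl (k + 1) = D.t ^ θ := by simp only [hcl, h2, if_false]
      have h5 : (y k)⁻¹ * y (k + 1) = (D.rep (x k))⁻¹ * D.t ^ (θ - i k) := by
        show (D.ι (a' k) * cl k)⁻¹ * (D.ι (a' (k + 1)) * cl (k + 1)) = _
        rw [ha1, hc1, hc2]
        simp only [h2, and_false, if_false, mul_one]
        rw [zpow_sub]
        group
      rw [h5, hwk]
      refine (hc₀ _ (D.rep_mem _) _ ?_).1
      rw [abs_le]
      constructor <;> omega
    · have hwk : w k = c₀ := by simp only [hw, h1, h2]; simp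
      have hc1 : cl k = D.t ^ θ := by simp only [hcl, h1, if_false]
      have hc2 : cl (k + 1) = D.t ^ i (k + 1) * D.rep (x (k + 1)) := by
        simp only [hcl, h2, if_true]
      have h5 : (y k)⁻¹ * y (k + 1) = D.t ^ (i (k + 1) - θ) * D.rep (x (k + 1)) := by
        show (D.ι (a' k) * cl k)⁻¹ * (D.ι (a' (k + 1)) * cl (k + 1)) = _
        rw [ha1, hc1, hc2]
        simp only [h1, false_and, if_false, mul_one]
        rw [sub_eq_neg_add, zpow_add, zpow_neg]
        group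
      rw [h5, hwk]
      refine (hc₀ _ (D.rep_mem _) _ ?_).2
      rw [abs_le]
      constructor <;> omega
    · have hwk : w k = 0 := by simp only [hw, h1, h2]; simp
      have hc1 : cl k = D.t ^ θ := by simp only [hcl, h1, if_false]
      have hc2 : cl (k + 1) = D.t ^ θ := by simp only [hcl, h2, if_false]
      have h5 : (y k)⁻¹ * y (k + 1) = 1 := by
        show (D.ι (a' k) * cl k)⁻¹ * (D.ι (a' (k + 1)) * cl (k + 1)) = _
        rw [ha1, hc1, hc2]
        simp only [h1, false_and, if_false, mul_one]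
        group
      rw [h5, hwk, pow_zero]
      exact Finset.mem_one.2 rfl
  have h0 : y 0 ∈ T ^ (c₁ * (-θ).toNat) := by
    have h1 := D.one
    have e1 : y 0 = cl 0 := by
      show D.ι (a' 0) * cl 0 = cl 0
      have : a' 0 = 1 := by simp only [ha', Finset.range_zero, Finset.prod_empty]
      rw [this, map_one, one_mul]
    have hi0 : i 0 = 0 := by
      show D.lev (x 0) = 0
      rw [hx.zero]
      exact h1.2.1
    rw [e1]
    by_cases h2 : 0 < θ
    · have h3 : cl 0 = 1 := by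
        have h4 : i 0 < θ := by rw [hi0]; exact h2
        simp only [hcl, h4, if_true]
        rw [hi0, hx.zero, h1.2.2]
        simp
      rw [h3, Int.toNat_of_nonpos (by omega), mul_zero, pow_zero]
      exact Finset.mem_one.2 rfl
    · have h3 : cl 0 = (D.t⁻¹) ^ (-θ).toNat := by
        have h4 : ¬ i 0 < θ := by rw [hi0]; exact h2
        simp only [hcl, h4, if_false]
        rw [← zpow_natCast, Int.toNat_of_nonneg (by omega), inv_zpow', neg_neg]
      rw [h3, pow_mul]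
      exact Finset.pow_mem_pow hc₁.2
  have h1 := c1_tel y w n hstep 0 k₀ (by omega)
  have h2 := c1_tel y w n hstep k₀ (n - k₀) (by omega)
  rw [Nat.add_sub_cancel' hk₀] at h2
  rw [Nat.zero_add] at h1
  have hyk : y k₀ = D.ι (a' k₀) * D.t ^ θ := by
    have h3 : ¬ i k₀ < θ := not_lt.2 hθk
    show D.ι (a' k₀) * cl k₀ = _
    simp only [hcl, h3, if_false]
  have hcomm : D.ι ((D.φ ^ θ) g) * y k₀ = y k₀ * D.ι g := by
    rw [hyk, ← mul_assoc, ← map_mul, mul_comm, map_mul, D.hφ_zpow]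
    group
  have hprod : ∏ k ∈ low n i θ, ((D.al (x k))⁻¹ * D.al (x (k + 1))) = a' n := by
    rw [low, Finset.prod_filter]
  have hfin : D.ι ((D.φ ^ θ) g * ∏ k ∈ low n i θ, ((D.al (x k))⁻¹ * D.al (x (k + 1)))) *
      (if D.lev (x n) < θ then D.t ^ D.lev (x n) * D.rep (x n) else D.t ^ θ)
      = y 0 * ((y 0)⁻¹ * y k₀) * D.ι g * ((y k₀)⁻¹ * y n) := by
    rw [hprod, map_mul]
    have e1 : y 0 * ((y 0)⁻¹ * y k₀) * D.ι g * ((y k₀)⁻¹ * y n) =
        (y k₀ * D.ι g) * ((y k₀)⁻¹ * y n) := by group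
    rw [e1, ← hcomm]
    have e2 : D.ι ((D.φ ^ θ) g) * y k₀ * ((y k₀)⁻¹ * y n) = D.ι ((D.φ ^ θ) g) * y n := by group
    rw [e2, mul_assoc]
  have hsum : (low n i θ).card + c₀ * (cr n i θ).card = ∑ k ∈ Finset.range n, w k := by
    rw [low, cr, Finset.card_filter, Finset.card_filter, Finset.mul_sum, ← Finset.sum_add_distrib]
    apply Finset.sum_congr rfl
    intro k _
    by_cases h1 : i k < θ <;> by_cases h2 : i (k + 1) < θ <;> simp [hw, h1, h2]
  have hsplit : ∑ k ∈ Finset.range n, w k =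
      ∑ j ∈ Finset.Ico 0 k₀, w j + ∑ j ∈ Finset.Ico k₀ n, w j := by
    rw [Finset.range_eq_Ico, Finset.sum_Ico_consecutive _ (Nat.zero_le _) hk₀]
  rw [hfin]
  have hexp : c₁ * (-θ).toNat + (low n i θ).card + c₀ * (cr n i θ).card + l =
      c₁ * (-θ).toNat + ∑ j ∈ Finset.Ico 0 k₀, w j + l + ∑ j ∈ Finset.Ico k₀ n, w j := by
    omega
  rw [hexp, pow_add, pow_add, pow_add]
  exact Finset.mul_mem_mul (Finset.mul_mem_mul (Finset.mul_mem_mul h0 h1) hg) h2

end Pool.Agent.AC73
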