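import Pool.Agent.AC73.Base

/-!
Row C2 (120-150 lines), pure combinatorics of an integer sequence. PROOFS.
`exists_cut`: `M` = maximum of `i` on `[0,n]`. `u j = cnt n i (M - j) / ω ^ j` is at least 1 for `j = 0` and at most `(n+1) / ω ^ j`, so it has a maximum over `j : ℕ`,
at `h` say (finitely many `j` with `ω ^ j ≤ n + 1` matter). `N = cnt n i (M - h)`; `N / ω^h ≥ u 0 ≥ 1` gives `ω ^ h ≤ N`.
`sum_le`: `∑_{k ≤ n} Λ ^ i k = ∑_j #{k | M - i k = j} Λ^(M-j) ≤ ∑_j cnt n i (M-j) Λ^(M-j) ≤ ∑_j N ω^(j-h) Λ^(M-j) ≤ N Λ^M ∑_j (ω/Λ)^j = N Λ^M Λ/(Λ-ω)`.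
`sum_low_le`: the same with only the `k` with `i k < θ = M - h`: `#{k | θ - i k = j} ≤ cnt n i (M - (h+j)) ≤ N ω^j`, `j ≥ 1`.
`letters`: if `θ ≤ i k`, `k < n`, then `k ∉ low`, so `|low| ≤ n - (cnt θ - 1)`. A letter of `cr` has exactly one end point `< θ`, and this end point is `≥ θ - R`;
every vertex is an end point of at most two letters, so `|cr| ≤ 2 (cnt (θ - R) - cnt θ)`. Every letter not in `low` has an end point `≥ θ`, so `n - |low| ≤ 2 cnt θ`.
-/

namespace Pool.Agent.AC73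

theorem exists_cut (n : ℕ) (i : ℕ → ℤ) (ω : ℝ) (hω : 1 < ω) :
    ∃ (M : ℤ) (h N : ℕ), IsCut n i ω M h N := by
  obtain ⟨k₀, hk₀, hmax⟩ := Finset.exists_max_image (Finset.range (n + 1)) i
    ⟨0, Finset.mem_range.2 (Nat.succ_pos n)⟩
  set M := i k₀ with hM
  have hω0 : (0 : ℝ) < ω := by linarith
  obtain ⟨J, hJ⟩ := pow_unbounded_of_one_lt ((n : ℝ) + 1) hω
  have hcle : ∀ a : ℤ, (cnt n i a : ℝ) ≤ n + 1 := by
    intro a
    have h1 : cnt n i a ≤ n + 1 := by
      unfold cnt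
      refine (Finset.card_filter_le _ _).trans ?_
      rw [Finset.card_range]
    exact_mod_cast h1
  have hc0 : (1 : ℝ) ≤ cnt n i (M - (0 : ℕ)) := by
    have h1 : 1 ≤ cnt n i (M - (0 : ℕ)) := by
      unfold cnt
      rw [Nat.one_le_iff_ne_zero, ← Nat.pos_iff_ne_zero, Finset.card_pos]
      refine ⟨k₀, Finset.mem_filter.2 ⟨hk₀, ?_⟩⟩
      rw [Nat.cast_zero, sub_zero]
    exact_mod_cast h1
  obtain ⟨h, hh, hhmax⟩ := Finset.exists_max_image (Finset.range (J + 1))
    (fun j : ℕ => (cnt n i (M - j) : ℝ) / ω ^ j) ⟨0, Finset.mem_range.2 (Nat.succ_pos J)⟩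
  have hu0 : (1 : ℝ) ≤ (cnt n i (M - (h : ℤ)) : ℝ) / ω ^ h := by
    have h1 := hhmax 0 (Finset.mem_range.2 (Nat.succ_pos J))
    have h2 : (1 : ℝ) ≤ (cnt n i (M - ((0 : ℕ) : ℤ)) : ℝ) / ω ^ 0 := by
      rw [pow_zero, div_one]
      exact hc0
    exact h2.trans h1
  have hall : ∀ j : ℕ, (cnt n i (M - j) : ℝ) / ω ^ j ≤ (cnt n i (M - (h : ℤ)) : ℝ) / ω ^ h := by
    intro j
    rcases Nat.lt_or_ge j (J + 1) with hj | hj
    · exact hhmax j (Finset.mem_range.2 hj)
    · refine le_trans ?_ hu0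
      rw [div_le_one (by positivity)]
      have h3 : ω ^ J ≤ ω ^ j := pow_le_pow_right₀ hω.le (by omega)
      exact (hcle _).trans (hJ.le.trans h3)
  refine ⟨M, h, cnt n i (M - h), ⟨fun k hk => hmax k (Finset.mem_range.2 (by omega)),
    ⟨k₀, by have := Finset.mem_range.1 hk₀; omega, rfl⟩, rfl, ?_, fun j => ?_⟩⟩
  · rw [one_le_div (by positivity)] at hu0
    exact hu0
  · have h1 := hall j
    rw [div_le_div_iff₀ (by positivity) (by positivity)] at h1
    exact h1

theorem c2_group (S : Finset ℕ) (i : ℕ → ℤ) (ω Λ : ℝ) (hω : 1 < ω) (hΛ : ω < Λ) (θ : ℤ) (N : ℕ)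
    (hS : ∀ k ∈ S, i k ≤ θ)
    (hc : ∀ j : ℕ, ((S.filter (fun k => θ - i k = j)).card : ℝ) ≤ N * ω ^ j) :
    ∑ k ∈ S, Λ ^ i k ≤ Λ / (Λ - ω) * N * Λ ^ θ := by
  have hω0 : (0 : ℝ) < ω := by linarith
  have hΛ0 : (0 : ℝ) < Λ := by linarith
  set f : ℕ → ℕ := fun k => (θ - i k).toNat with hf
  set J := S.sup f + 1 with hJ
  have hmaps : ∀ k ∈ S, f k ∈ Finset.range J := by
    intro k hk
    exact Finset.mem_range.2 (Nat.lt_succ_of_le (Finset.le_sup (f := f) hk))
  rw [← Finset.sum_fiberwise_of_maps_to hmaps]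
  have hinner : ∀ j ∈ Finset.range J, ∑ k ∈ S with f k = j, Λ ^ i k ≤
      N * Λ ^ θ * (ω / Λ) ^ j := by
    intro j _
    have h1 : ∀ k ∈ S.filter (fun k => f k = j), Λ ^ i k = Λ ^ θ * (Λ ^ j)⁻¹ := by
      intro k hk
      have h2 := Finset.mem_filter.1 hk
      have h3 := hS k h2.1
      have h4 : (θ - i k).toNat = j := h2.2
      have h5 : i k = θ - (j : ℤ) := by omega
      rw [h5, zpow_sub₀ hΛ0.ne', zpow_natCast, div_eq_mul_inv]
    rw [Finset.sum_congr rfl h1, Finset.sum_const, nsmul_eq_mul]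
    have h6 : ((S.filter (fun k => f k = j)).card : ℝ) ≤ N * ω ^ j := by
      refine le_trans ?_ (hc j)
      rw [Nat.cast_le]
      refine Finset.card_le_card fun k hk => ?_
      have h2 := Finset.mem_filter.1 hk
      have h3 := hS k h2.1
      have h4 : (θ - i k).toNat = j := h2.2
      exact Finset.mem_filter.2 ⟨h2.1, by omega⟩
    calc ((S.filter (fun k => f k = j)).card : ℝ) * (Λ ^ θ * (Λ ^ j)⁻¹)
        ≤ N * ω ^ j * (Λ ^ θ * (Λ ^ j)⁻¹) := mul_le_mul_of_nonneg_right h6 (by positivity)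
      _ = N * Λ ^ θ * (ω / Λ) ^ j := by
        rw [div_pow, div_eq_mul_inv]
        ring
  refine (Finset.sum_le_sum hinner).trans ?_
  rw [← Finset.mul_sum]
  have hr0 : 0 ≤ ω / Λ := by positivity
  have hr1 : 0 < 1 - ω / Λ := by
    have : ω / Λ < 1 := by
      rw [div_lt_one hΛ0]
      exact hΛ
    linarith
  have hgeom : ∑ j ∈ Finset.range J, (ω / Λ) ^ j ≤ Λ / (Λ - ω) := by
    have h1 := mul_neg_geom_sum (ω / Λ) J
    have h2 : 0 ≤ (ω / Λ) ^ J := by positivity
    have h3 : Λ / (Λ - ω) = 1 / (1 - ω / Λ) := by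
      have h4 : Λ - ω ≠ 0 := by linarith
      have h5 : 1 - ω / Λ ≠ 0 := hr1.ne'
      rw [div_eq_div_iff h4 h5]
      field_simp
    rw [h3, le_div_iff₀ hr1, mul_comm]
    linarith
  calc N * Λ ^ θ * ∑ j ∈ Finset.range J, (ω / Λ) ^ j
      ≤ N * Λ ^ θ * (Λ / (Λ - ω)) := mul_le_mul_of_nonneg_left hgeom (by positivity)
    _ = Λ / (Λ - ω) * N * Λ ^ θ := by ring

theorem c2_cnt_le {n : ℕ} {i : ℕ → ℤ} {ω : ℝ} (hω : 1 < ω) {M : ℤ} {h N : ℕ}
    (hc : IsCut n i ω M h N) (j : ℕ) : (cnt n i (M - (h : ℤ) - j) : ℝ) ≤ N * ω ^ j := by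
  have h1 := hc.max (h + j)
  have h2 : M - ((h + j : ℕ) : ℤ) = M - (h : ℤ) - j := by
    push_cast
    ring
  rw [h2, pow_add, mul_comm (ω ^ h), ← mul_assoc] at h1
  have h3 : (0 : ℝ) < ω ^ h := by positivity
  exact le_of_mul_le_mul_right h1 h3

theorem sum_le (n : ℕ) (i : ℕ → ℤ) (ω Λ : ℝ) (hω : 1 < ω) (hΛ : ω < Λ) (M : ℤ) (h N : ℕ)
    (hc : IsCut n i ω M h N) :
    ∑ k ∈ Finset.range (n + 1), Λ ^ i k ≤ Λ / (Λ - ω) * N * Λ ^ M := by
  refine c2_group (Finset.range (n + 1)) i ω Λ hω hΛ M N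
    (fun k hk => hc.le k (by have := Finset.mem_range.1 hk; omega)) fun j => ?_
  have h1 : (((Finset.range (n + 1)).filter (fun k => M - i k = j)).card : ℝ) ≤
      cnt n i (M - j) := by
    rw [Nat.cast_le]
    unfold cnt
    refine Finset.card_le_card fun k hk => ?_
    have h2 := Finset.mem_filter.1 hk
    exact Finset.mem_filter.2 ⟨h2.1, by omega⟩
  refine h1.trans ?_
  have h3 := hc.max j
  have h4 : (1 : ℝ) ≤ ω ^ h := one_le_pow₀ hω.le
  have h5 : (0 : ℝ) ≤ cnt n i (M - j) := Nat.cast_nonneg _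
  nlinarith

theorem sum_low_le (n : ℕ) (i : ℕ → ℤ) (ω Λ : ℝ) (hω : 1 < ω) (hΛ : ω < Λ) (M : ℤ) (h N : ℕ)
    (hc : IsCut n i ω M h N) :
    ∑ k ∈ (Finset.range (n + 1)).filter (fun k => i k < M - h), Λ ^ i k
      ≤ Λ / (Λ - ω) * N * Λ ^ (M - (h : ℤ)) := by
  refine c2_group _ i ω Λ hω hΛ (M - (h : ℤ)) N
    (fun k hk => (Finset.mem_filter.1 hk).2.le) fun j => ?_
  refine le_trans ?_ (c2_cnt_le hω hc j)
  rw [Nat.cast_le]
  unfold cnt
  refine Finset.card_le_card fun k hk => ?_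
  have h2 := Finset.mem_filter.1 hk
  have h3 := Finset.mem_filter.1 h2.1
  exact Finset.mem_filter.2 ⟨h3.1, by omega⟩

theorem letters (n : ℕ) (i : ℕ → ℤ) (R : ℕ) (hR : ∀ k < n, |i (k + 1) - i k| ≤ R) (θ : ℤ) :
    (low n i θ).card + cnt n i θ ≤ n + 1 ∧
    (cr n i θ).card + 2 * cnt n i θ ≤ 2 * cnt n i (θ - R) ∧
    n ≤ (low n i θ).card + 2 * cnt n i θ := by
  refine ⟨?_, ?_, ?_⟩
  · have hd : Disjoint (low n i θ) ((Finset.range (n + 1)).filter fun k => θ ≤ i k) := by
      rw [Finset.disjoint_left]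
      intro k hk hk'
      have h1 := (Finset.mem_filter.1 hk).2
      have h2 := (Finset.mem_filter.1 hk').2
      omega
    unfold cnt
    rw [← Finset.card_union_of_disjoint hd]
    have hsub : low n i θ ∪ ((Finset.range (n + 1)).filter fun k => θ ≤ i k) ⊆
        Finset.range (n + 1) := by
      refine Finset.union_subset (fun k hk => ?_) (Finset.filter_subset _ _)
      have h1 := Finset.mem_range.1 (Finset.mem_filter.1 hk).1
      exact Finset.mem_range.2 (by omega)
    have h3 := Finset.card_le_card hsub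
    rwa [Finset.card_range] at h3
  · set B := (Finset.range (n + 1)).filter fun k => θ - (R : ℤ) ≤ i k ∧ i k < θ with hB
    have hcard : B.card + cnt n i θ = cnt n i (θ - R) := by
      have hd : Disjoint B ((Finset.range (n + 1)).filter fun k => θ ≤ i k) := by
        rw [Finset.disjoint_left]
        intro k hk hk'
        have h1 := (Finset.mem_filter.1 hk).2
        have h2 := (Finset.mem_filter.1 hk').2
        omega
      unfold cnt
      rw [← Finset.card_union_of_disjoint hd]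
      congr 1
      ext k
      rw [Finset.mem_union, hB, Finset.mem_filter, Finset.mem_filter, Finset.mem_filter]
      constructor
      · rintro (⟨h1, h2, h3⟩ | ⟨h1, h2⟩)
        · exact ⟨h1, h2⟩
        · exact ⟨h1, by omega⟩
      · rintro ⟨h1, h2⟩
        by_cases h3 : i k < θ
        · exact Or.inl ⟨h1, h2, h3⟩
        · exact Or.inr ⟨h1, by omega⟩
    have hsub : cr n i θ ⊆ (cr n i θ).filter (fun k => k ∈ B) ∪
        (cr n i θ).filter (fun k => k + 1 ∈ B) := by
      intro k hk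
      have h1 := Finset.mem_filter.1 hk
      have h2 := Finset.mem_range.1 h1.1
      have h3 := hR k h2
      rw [abs_le] at h3
      rw [Finset.mem_union]
      by_cases h4 : i k < θ
      · have h5 : ¬ i (k + 1) < θ := fun h => h1.2 ⟨fun _ => h, fun _ => h4⟩
        left
        have h6 : k ∈ B := Finset.mem_filter.2 ⟨Finset.mem_range.2 (by omega), by omega, h4⟩
        exact Finset.mem_filter.2 ⟨hk, h6⟩
      · have h5 : i (k + 1) < θ := by
          by_contra h
          exact h1.2 ⟨fun h' => absurd h' h4, fun h' => absurd h' h⟩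
        right
        have h6 : k + 1 ∈ B :=
          Finset.mem_filter.2 ⟨Finset.mem_range.2 (by omega), by omega, h5⟩
        exact Finset.mem_filter.2 ⟨hk, h6⟩
    have hc1 : ((cr n i θ).filter (fun k => k ∈ B)).card ≤ B.card :=
      Finset.card_le_card fun k hk => (Finset.mem_filter.1 hk).2
    have hc2 : ((cr n i θ).filter (fun k => k + 1 ∈ B)).card ≤ B.card :=
      Finset.card_le_card_of_injOn (fun k => k + 1)
        (fun k hk => (Finset.mem_filter.1 (Finset.mem_coe.1 hk)).2)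
        (fun k _ k' _ hkk => Nat.succ_injective hkk)
    have hc3 := (Finset.card_le_card hsub).trans (Finset.card_union_le _ _)
    omega
  · have hsub : Finset.range n ⊆ low n i θ ∪
        (((Finset.range n).filter (fun k => θ ≤ i k)) ∪
          ((Finset.range n).filter (fun k => θ ≤ i (k + 1)))) := by
      intro k hk
      rw [Finset.mem_union, Finset.mem_union, Finset.mem_filter, Finset.mem_filter]
      by_cases h1 : θ ≤ i k
      · exact Or.inr (Or.inl ⟨hk, h1⟩)
      · by_cases h2 : θ ≤ i (k + 1)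
        · exact Or.inr (Or.inr ⟨hk, h2⟩)
        · exact Or.inl (Finset.mem_filter.2 ⟨hk, by omega, by omega⟩)
    have hc1 : ((Finset.range n).filter (fun k => θ ≤ i k)).card ≤ cnt n i θ := by
      unfold cnt
      refine Finset.card_le_card fun k hk => ?_
      have h1 := Finset.mem_filter.1 hk
      have h2 := Finset.mem_range.1 h1.1
      exact Finset.mem_filter.2 ⟨Finset.mem_range.2 (by omega), h1.2⟩
    have hc2 : ((Finset.range n).filter (fun k => θ ≤ i (k + 1))).card ≤ cnt n i θ := by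
      unfold cnt
      refine Finset.card_le_card_of_injOn (fun k => k + 1) (fun k hk => ?_)
        (fun k _ k' _ hkk => Nat.succ_injective hkk)
      have h1 := Finset.mem_filter.1 (Finset.mem_coe.1 hk)
      have h2 := Finset.mem_range.1 h1.1
      have h3 : k + 1 ∈ Finset.range (n + 1) := Finset.mem_range.2 (by omega)
      exact Finset.mem_coe.2 (Finset.mem_filter.2 ⟨h3, h1.2⟩)
    have hc3 := Finset.card_le_card hsub
    rw [Finset.card_range] at hc3
    have hc4 := Finset.card_union_le (low n i θ) (((Finset.range n).filter (fun k => θ ≤ i k)) ∪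
          ((Finset.range n).filter (fun k => θ ≤ i (k + 1))))
    have hc5 := Finset.card_union_le ((Finset.range n).filter (fun k => θ ≤ i k))
      ((Finset.range n).filter (fun k => θ ≤ i (k + 1)))
    omega

end Pool.Agent.AC73
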