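import Mathlib

/-!
Row C3 (40-60 lines). PROOF. Induction on `E`: `(insert a E)^m ⊆ ⋃_{j ≤ m} {a^j} * E^(m-j)` (`K` is abelian), so
`|(insert a E)^m| ≤ ∑_{j ≤ m} |E^(m-j)| ≤ (m+1) * (m+1)^|E|`. (`∅^0 = {1}` has one element, `∅^m = ∅` for `m > 0`.)
-/

open Pointwise

namespace Pool.Agent.AC73

/-- an element of `(insert a E)^m` is `a^j e` with `e ∈ E^(m-j)` -/
theorem c3_mem {K : Type*} [CommGroup K] [DecidableEq K] (a : K) (E : Finset K) (m : ℕ) :
    ∀ x ∈ (insert a E) ^ m, ∃ j ≤ m, ∃ e ∈ E ^ (m - j), a ^ j * e = x := by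
  induction m with
  | zero =>
    intro x hx
    rw [pow_zero, Finset.mem_one] at hx
    refine ⟨0, le_rfl, 1, ?_, ?_⟩
    · rw [Nat.sub_zero, pow_zero]
      exact Finset.one_mem_one
    · rw [pow_zero, one_mul, hx]
  | succ m ih =>
    intro x hx
    rw [pow_succ] at hx
    obtain ⟨y, hy, z, hz, rfl⟩ := Finset.mem_mul.mp hx
    obtain ⟨j, hj, e, he, rfl⟩ := ih y hy
    rcases Finset.mem_insert.mp hz with h | h
    · refine ⟨j + 1, by omega, e, ?_, ?_⟩
      · rw [Nat.add_sub_add_right]
        exact he
      · rw [h, pow_succ, mul_right_comm]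
    · refine ⟨j, by omega, e * z, ?_, ?_⟩
      · have h1 : m + 1 - j = (m - j) + 1 := by omega
        rw [h1, pow_succ]
        exact Finset.mul_mem_mul he h
      · rw [mul_assoc]

theorem pow_card_le {K : Type*} [CommGroup K] [DecidableEq K] (E : Finset K) (m : ℕ) :
    (E ^ m).card ≤ (m + 1) ^ E.card := by
  induction E using Finset.induction_on generalizing m with
  | empty =>
    rw [Finset.card_empty, pow_zero]
    rcases Nat.eq_zero_or_pos m with h | h
    · rw [h, pow_zero, Finset.card_one]
    · rw [Finset.empty_pow (by omega), Finset.card_empty]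
      exact Nat.zero_le 1
  | insert a E ha ih =>
    have hsub : (insert a E) ^ m ⊆
        (Finset.range (m + 1)).biUnion (fun j => (E ^ (m - j)).image (fun e => a ^ j * e)) := by
      intro x hx
      obtain ⟨j, hj, e, he, h⟩ := c3_mem a E m x hx
      exact Finset.mem_biUnion.mpr ⟨j, Finset.mem_range.mpr (by omega),
        Finset.mem_image.mpr ⟨e, he, h⟩⟩
    calc ((insert a E) ^ m).card
        ≤ ((Finset.range (m + 1)).biUnion
            (fun j => (E ^ (m - j)).image (fun e => a ^ j * e))).card := Finset.card_le_card hsub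
      _ ≤ ∑ j ∈ Finset.range (m + 1), ((E ^ (m - j)).image (fun e => a ^ j * e)).card :=
          Finset.card_biUnion_le
      _ ≤ ∑ j ∈ Finset.range (m + 1), (m + 1) ^ E.card := by
          refine Finset.sum_le_sum (fun j _ => ?_)
          refine Finset.card_image_le.trans ((ih (m - j)).trans ?_)
          exact Nat.pow_le_pow_left (by omega) _
      _ = (m + 1) ^ (insert a E).card := by
          rw [Finset.sum_const, Finset.card_range, smul_eq_mul, Finset.card_insert_of_notMem ha,
            pow_succ, mul_comm]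

end Pool.Agent.AC73
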