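import Pool.Agent.AC73.C1
import Pool.Agent.AC73.C2

/-!
Row C4a (150-180 lines). The code of an element with cut number `N`. PROOF. Constants: `C₀ = max ν (al (p * s))`, `C₄ = C₀ Λ/(Λ-ω)`; `gN N = (φ^J) k₀` with `J = J N` the least natural number
with `Λ^J ν k₀ ≥ 2 C₄ N + 1` (so `J ≤ const (1 + log N)` and `ι (gN N) = t^J ι k₀ t^(-J)` has length `≤ const (1 + log N)`); `H N = ⌊log N / log ω⌋₊`.
`E N` = the finite set of `(φ^j) (al (p * s))`, `-R ≤ j ≤ H N`, `p ∈ P`, `s ∈ T`, together with `1`. `c₀`: common length of the `p⁻¹ t^d`, `t^d p`, `|d| ≤ R`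
(the number in `hω2`; `hc₀`). Let `Prof D T ω n N y`: path `x`, `M`, `h`; `θ = M - h`, `i k = lev (x k)`. `ω^h ≤ N` gives `h ≤ H N`. `M ≥ i 0 = 0` so `(-θ).toNat ≤ h`. `|i (k+1) - i k| ≤ R`.
`z` = the element of `clamp` with `g = gN N`. `letters` and `IsCut.max` (`j = h + R`): `|low| ≤ n + 1 - N`, `|cr| ≤ 2 (cnt (θ-R) - N) ≤ 2 N (ω^R - 1)`, so `c₀ |cr| ≤ N/4` by `hω2`. So the length of `z`
is at most `c₁ H N + (n + 1 - N) + N/4 + const (1 + log N) ≤ n - N/2` for `N ≥ N₁` (note `N ≤ n + 1`, as `N = cnt ..`).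
`al z = (φ^θ) (gN N) * a'`, `a' = ∏_{low} (al (x k))⁻¹ al (x (k+1))`, by `D.uniq` (`t^θ = t^θ * 1`), `ν a' ≤ C₀ ∑_{i k < θ} Λ^(i k) ≤ C₄ N Λ^θ` (`sum_low_le`), so
`Λ^θ ν (gN N) / 2 ≤ ν (al z) ≤ Λ^θ ν (gN N) * 3/2`. `v = (φ^(-θ)) (∏_{k<n, k ∉ low} (al (x k))⁻¹ al (x (k+1)))`: each factor is `(φ^(i k)) (al (rep (x k) * s))`, with `-R ≤ i k - θ ≤ h`
(a letter not in `low` has an end point `≥ θ`), at most `2 N` factors (`letters`), so `v ∈ (E N)^(2N)` (`1 ∈ E N`). `al y = ∏_{k<n} (al (x k))⁻¹ al (x (k+1)) = a' * (φ^θ) v`.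
If `lev y < θ`: `lev z = lev y`, `rep z = rep y`; otherwise `θ ≤ lev y ≤ M = θ + h`.
-/

open Pointwise

namespace Pool.Agent.AC73

theorem c4a_prod_mem {K ι : Type} [CommGroup K] [DecidableEq K] (E : Finset K) (S : Finset ι)
    (f : ι → K) (hf : ∀ k ∈ S, f k ∈ E) : ∏ k ∈ S, f k ∈ E ^ S.card := by
  classical
  induction S using Finset.induction_on with
  | empty => simp
  | insert a S ha ih =>
    rw [Finset.prod_insert ha, Finset.card_insert_of_notMem ha, pow_succ']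
    exact Finset.mul_mem_mul (hf a (Finset.mem_insert_self _ _))
      (ih (fun k hk => hf k (Finset.mem_insert_of_mem hk)))

theorem c4a_nu_prod {K ι : Type} [CommGroup K] {φ : MulAut K} (V : Nu φ) (S : Finset ι)
    (f : ι → K) : V.ν (∏ k ∈ S, f k) ≤ ∑ k ∈ S, V.ν (f k) := by
  classical
  induction S using Finset.induction_on with
  | empty => simp [V.one]
  | insert a S ha ih =>
    rw [Finset.prod_insert ha, Finset.sum_insert ha]
    exact (V.mul _ _).trans (by linarith)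

theorem c4a_growth (A B : ℝ) (hB : 0 ≤ B) :
    ∃ N₁ : ℕ, ∀ N : ℕ, N₁ ≤ N → A + B * Real.log ((N : ℝ) + 1) ≤ (N : ℝ) / 4 := by
  have h1 := Real.isLittleO_log_id_atTop.bound (c := 1 / (8 * (B + 1))) (by positivity)
  obtain ⟨a, ha⟩ := Filter.eventually_atTop.mp h1
  refine ⟨⌈a⌉₊ + ⌈8 * |A|⌉₊ + 1, fun N hN => ?_⟩
  have h2 : a ≤ (N : ℝ) + 1 := by
    have h3 : (⌈a⌉₊ : ℝ) ≤ N := by exact_mod_cast (by omega : ⌈a⌉₊ ≤ N)
    have h4 := Nat.le_ceil a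
    linarith
  have h5 : 8 * |A| + 1 ≤ (N : ℝ) := by
    have h3 : ((⌈8 * |A|⌉₊ + 1 : ℕ) : ℝ) ≤ N := by exact_mod_cast (by omega : _ ≤ N)
    push_cast at h3
    have h4 := Nat.le_ceil (8 * |A|)
    linarith
  have h6 := ha _ h2
  rw [id, Real.norm_eq_abs, Real.norm_eq_abs, abs_of_nonneg (by positivity : (0:ℝ) ≤ N + 1)]
    at h6
  have h7 : Real.log ((N : ℝ) + 1) ≤ 1 / (8 * (B + 1)) * ((N : ℝ) + 1) :=
    (le_abs_self _).trans h6
  have h8 : B * Real.log ((N : ℝ) + 1) ≤ ((N : ℝ) + 1) / 8 := by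
    calc B * Real.log ((N : ℝ) + 1) ≤ B * (1 / (8 * (B + 1)) * ((N : ℝ) + 1)) :=
          mul_le_mul_of_nonneg_left h7 hB
      _ = (B / (B + 1)) * (((N : ℝ) + 1) / 8) := by field_simp
      _ ≤ 1 * (((N : ℝ) + 1) / 8) := by
          apply mul_le_mul_of_nonneg_right _ (by positivity)
          rw [div_le_one (by linarith)]
          linarith
      _ = ((N : ℝ) + 1) / 8 := one_mul _
  have h9 := le_abs_self A
  linarith

theorem c4a_step {G K : Type} [Group G] [CommGroup K] (D : Dec G K) (T : Finset G) (n : ℕ)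
    (x : ℕ → G) (hx : IsPath T n x) (k : ℕ) (hk : k < n) :
    ∃ s ∈ T, (D.al (x k))⁻¹ * D.al (x (k + 1)) =
      (D.φ ^ D.lev (x k)) (D.al (D.rep (x k) * s)) ∧
      D.lev (x (k + 1)) = D.lev (x k) + D.lev (D.rep (x k) * s) := by
  obtain ⟨s, hs, e⟩ := hx.step k hk
  refine ⟨s, hs, ?_, ?_⟩
  · rw [e, (D.mul (x k) s).1, inv_mul_cancel_left]
  · rw [e, (D.mul (x k) s).2.1]

theorem c4a_al {G K : Type} [Group G] [CommGroup K] (D : Dec G K) (x : ℕ → G) (h0 : x 0 = 1)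
    (n : ℕ) : D.al (x n) = ∏ k ∈ Finset.range n, ((D.al (x k))⁻¹ * D.al (x (k + 1))) := by
  induction n with
  | zero => rw [h0, D.one.1, Finset.prod_range_zero]
  | succ n ih => rw [Finset.prod_range_succ, ← ih, mul_inv_cancel_left]

/-- The number of factors needed to enlarge the seminorm. -/
theorem c4a_J {K : Type} [CommGroup K] {φ : MulAut K} (V : Nu φ) (C : ℝ) (hC : 0 ≤ C) :
    ∃ (J : ℕ → ℕ) (A B : ℝ), 0 ≤ B ∧ ∀ N : ℕ, 2 * C * N ≤ V.Λ ^ (J N : ℤ) * V.ν V.k₀ ∧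
      (J N : ℝ) ≤ A + B * Real.log ((N : ℝ) + 1) := by
  have hΛ := V.hΛ
  have hlΛ : 0 < Real.log V.Λ := Real.log_pos hΛ
  have hk := V.pos
  refine ⟨fun N => ⌈(Real.log (2 * C * N + 1) - Real.log (V.ν V.k₀)) / Real.log V.Λ⌉₊,
    (Real.log (2 * C + 1) + |Real.log (V.ν V.k₀)|) / Real.log V.Λ + 1, 1 / Real.log V.Λ,
    by positivity, fun N => ⟨?_, ?_⟩⟩
  · have h1 := Nat.le_ceil ((Real.log (2 * C * N + 1) - Real.log (V.ν V.k₀)) / Real.log V.Λ)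
    rw [div_le_iff₀ hlΛ] at h1
    obtain ⟨J, hJ⟩ : ∃ J : ℕ,
        J = ⌈(Real.log (2 * C * N + 1) - Real.log (V.ν V.k₀)) / Real.log V.Λ⌉₊ := ⟨_, rfl⟩
    simp only
    rw [← hJ] at h1 ⊢
    have h2 : 0 < 2 * C * N + 1 := by positivity
    have h3 : Real.log (2 * C * N + 1) ≤ Real.log (V.Λ ^ J * V.ν V.k₀) := by
      rw [Real.log_mul (by positivity) hk.ne', Real.log_pow]
      linarith
    have h4 := (Real.log_le_log_iff h2 (by positivity)).mp h3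
    rw [zpow_natCast]
    linarith
  · have h1 : (Real.log (2 * C * N + 1) - Real.log (V.ν V.k₀)) / Real.log V.Λ ≤
        (Real.log (2 * C + 1) + |Real.log (V.ν V.k₀)|) / Real.log V.Λ +
        1 / Real.log V.Λ * Real.log ((N : ℝ) + 1) := by
      have h2 : Real.log (2 * C * N + 1) ≤ Real.log (2 * C + 1) + Real.log ((N : ℝ) + 1) := by
        rw [← Real.log_mul (by positivity) (by positivity)]
        apply Real.log_le_log (by positivity)
        nlinarith [(Nat.cast_nonneg N : (0 : ℝ) ≤ N)]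
      have h3 := neg_abs_le (Real.log (V.ν V.k₀))
      rw [div_add' _ _ _ hlΛ.ne', div_le_div_iff_of_pos_right hlΛ]
      have h4 : 1 / Real.log V.Λ * Real.log ((N : ℝ) + 1) * Real.log V.Λ =
          Real.log ((N : ℝ) + 1) := by field_simp
      linarith
    have h5 : 0 ≤ (Real.log (2 * C + 1) + |Real.log (V.ν V.k₀)|) / Real.log V.Λ +
        1 / Real.log V.Λ * Real.log ((N : ℝ) + 1) := by
      have h6 : 0 ≤ Real.log (2 * C + 1) := Real.log_nonneg (by linarith)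
      have h7 : 0 ≤ Real.log ((N : ℝ) + 1) :=
        Real.log_nonneg (by linarith [(Nat.cast_nonneg N : (0 : ℝ) ≤ N)])
      have h8 := abs_nonneg (Real.log (V.ν V.k₀))
      positivity
    have h9 := (Nat.ceil_le_ceil h1)
    have h10 := Nat.ceil_lt_add_one h5
    have h11 : (⌈(Real.log (2 * C * N + 1) - Real.log (V.ν V.k₀)) / Real.log V.Λ⌉₊ : ℝ) ≤
        ⌈(Real.log (2 * C + 1) + |Real.log (V.ν V.k₀)|) / Real.log V.Λ +
        1 / Real.log V.Λ * Real.log ((N : ℝ) + 1)⌉₊ := by exact_mod_cast h9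
    simp only
    linarith

theorem exists_code {G K : Type} [Group G] [CommGroup K] [DecidableEq G] [DecidableEq K]
    (D : Dec G K) (V : Nu D.φ) (T : Finset G) (h1 : (1 : G) ∈ T)
    (hgen : ∀ g : G, ∃ n : ℕ, g ∈ T ^ n) (R c₀ : ℕ)
    (hR : ∀ p ∈ D.P, ∀ s ∈ T, |D.lev (p * s)| ≤ R)
    (hc₀ : ∀ p ∈ D.P, ∀ d : ℤ, |d| ≤ R → p⁻¹ * D.t ^ d ∈ T ^ c₀ ∧ D.t ^ d * p ∈ T ^ c₀)
    (ω : ℝ) (hω : 1 < ω) (hωΛ : ω < V.Λ) (hω2 : 8 * c₀ * (ω ^ R - 1) ≤ 1) :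
    ∃ (gN : ℕ → K) (N₁ : ℕ), (∀ N, 0 < V.ν (gN N)) ∧ ∀ n N : ℕ, N₁ ≤ N → ∀ y : G,
      Prof D T ω n N y → ∃ (z : G) (θ : ℤ) (v : K), z ∈ T ^ (n - N / 2) ∧
        v ∈ (insert 1 ((Finset.Icc (-(R : ℤ)) ⌊Real.log N / Real.log ω⌋₊ ×ˢ (D.P ×ˢ T)).image
          fun a => (D.φ ^ a.1) (D.al (a.2.1 * a.2.2)))) ^ (2 * N) ∧
        V.Λ ^ θ * V.ν (gN N) / 2 ≤ V.ν (D.al z) ∧
        V.ν (D.al z) ≤ V.Λ ^ θ * V.ν (gN N) * (3 / 2) ∧
        D.al y = D.al z * ((D.φ ^ θ) (gN N))⁻¹ * (D.φ ^ θ) v ∧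
        ((D.lev y = D.lev z ∧ D.rep y = D.rep z) ∨
          ∃ e : ℕ, e ≤ ⌊Real.log N / Real.log ω⌋₊ ∧ D.lev y = θ + e) := by
  have hΛ := V.hΛ
  have hΛ0 : 0 < V.Λ := by linarith
  have hlω : 0 < Real.log ω := Real.log_pos hω
  -- the constant `C₀`
  obtain ⟨C₀, hC₀⟩ : ∃ C : ℝ, C = ∑ a ∈ D.P ×ˢ T, V.ν (D.al (a.1 * a.2)) := ⟨_, rfl⟩
  have hC₀0 : 0 ≤ C₀ := by rw [hC₀]; exact Finset.sum_nonneg (fun a _ => V.nonneg _)
  have hC₀1 : ∀ p ∈ D.P, ∀ s ∈ T, V.ν (D.al (p * s)) ≤ C₀ := by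
    intro p hp s hs
    rw [hC₀]
    exact Finset.single_le_sum (f := fun a : G × G => V.ν (D.al (a.1 * a.2)))
      (fun a _ => V.nonneg _) (Finset.mem_product.mpr ⟨hp, hs⟩ : (p, s) ∈ D.P ×ˢ T)
  obtain ⟨C₄, hC₄⟩ : ∃ C : ℝ, C = C₀ * (V.Λ / (V.Λ - ω)) := ⟨_, rfl⟩
  have hΛω : 0 < V.Λ - ω := by linarith
  have hC₄0 : 0 ≤ C₄ := by rw [hC₄]; positivity
  -- the length of `t`
  obtain ⟨n1, hn1⟩ := hgen D.t
  obtain ⟨n2, hn2⟩ := hgen D.t⁻¹
  obtain ⟨c₁, hc₁⟩ : ∃ c : ℕ, D.t ∈ T ^ c ∧ D.t⁻¹ ∈ T ^ c :=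
    ⟨n1 + n2, Finset.pow_subset_pow_right h1 (by omega) hn1,
      Finset.pow_subset_pow_right h1 (by omega) hn2⟩
  obtain ⟨l₀, hl₀⟩ := hgen (D.ι V.k₀)
  obtain ⟨J, A, B, hB, hJ⟩ := c4a_J V C₄ hC₄0
  obtain ⟨N₁, hN₁⟩ := c4a_growth (2 * c₁ * A + l₀ + 1) (c₁ / Real.log ω + 2 * c₁ * B)
    (by positivity)
  refine ⟨fun N => (D.φ ^ (J N : ℤ)) V.k₀, N₁ + 1, fun N => ?_, fun n N hN y hy => ?_⟩
  · rw [V.scale_zpow]
    have := V.pos
    positivity
  obtain ⟨x, M, h, hx, hxn, hcut⟩ := hy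
  obtain ⟨θ, hθ⟩ : ∃ θ : ℤ, θ = M - h := ⟨_, rfl⟩
  have hN1 : 1 ≤ N := by omega
  have hN0 : (0 : ℝ) < N := by exact_mod_cast hN1
  have hstep := c4a_step D T n x hx
  have hiR : ∀ k < n, |D.lev (x (k + 1)) - D.lev (x k)| ≤ R := by
    intro k hk
    obtain ⟨s, hs, -, e⟩ := hstep k hk
    rw [e, add_sub_cancel_left]
    exact hR _ (D.rep_mem _) s hs
  -- `h ≤ H N`
  have hhH' : (h : ℝ) ≤ Real.log N / Real.log ω := by
    rw [le_div_iff₀ hlω]
    have h2 := Real.log_le_log (by positivity) hcut.pow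
    rwa [Real.log_pow] at h2
  have hhH : h ≤ ⌊Real.log N / Real.log ω⌋₊ := Nat.le_floor hhH'
  have hM0 : 0 ≤ M := by
    have h2 := hcut.le 0 (Nat.zero_le n)
    simp only [hx.zero, D.one.2.1] at h2
    exact h2
  have hθn : (-θ).toNat ≤ h := by omega
  obtain ⟨hlet1, hlet2, hlet3⟩ := letters n (fun k => D.lev (x k)) R hiR θ
  have hcN : cnt n (fun k => D.lev (x k)) θ = N := by rw [hcut.hN, hθ]
  rw [hcN] at hlet1 hlet2 hlet3
  -- the number of crossings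
  have hcr : (c₀ : ℝ) * ((cr n (fun k => D.lev (x k)) θ).card : ℝ) ≤ (N : ℝ) / 4 := by
    have h2 := hcut.max (h + R)
    have h3 : M - ((h + R : ℕ) : ℤ) = θ - R := by rw [hθ]; push_cast; ring
    rw [h3, pow_add] at h2
    have h4 : 0 < ω ^ h := by positivity
    have h5 : (cnt n (fun k => D.lev (x k)) (θ - R) : ℝ) ≤ N * ω ^ R := by
      have h6 : (cnt n (fun k => D.lev (x k)) (θ - R) : ℝ) * ω ^ h ≤ (N * ω ^ R) * ω ^ h := by
        linarith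
      exact le_of_mul_le_mul_right h6 h4
    have h7 : ((cr n (fun k => D.lev (x k)) θ).card : ℝ) + 2 * N ≤
        2 * (cnt n (fun k => D.lev (x k)) (θ - R) : ℝ) := by exact_mod_cast hlet2
    have h8 : ((cr n (fun k => D.lev (x k)) θ).card : ℝ) ≤ 2 * N * (ω ^ R - 1) := by linarith
    calc (c₀ : ℝ) * ((cr n (fun k => D.lev (x k)) θ).card : ℝ)
        ≤ c₀ * (2 * N * (ω ^ R - 1)) := mul_le_mul_of_nonneg_left h8 (by positivity)
      _ = (8 * c₀ * (ω ^ R - 1)) * (N / 4) := by ring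
      _ ≤ 1 * (N / 4) := mul_le_mul_of_nonneg_right hω2 (by positivity)
      _ = (N : ℝ) / 4 := one_mul _
  -- the length of `gN N`
  obtain ⟨g, hg⟩ : ∃ g : K, g = (D.φ ^ (J N : ℤ)) V.k₀ := ⟨_, rfl⟩
  have hgl : D.ι g ∈ T ^ (c₁ * J N + l₀ + c₁ * J N) := by
    rw [hg, D.hφ_zpow, zpow_natCast, zpow_neg, zpow_natCast, ← inv_pow, pow_add, pow_add,
      pow_mul]
    exact Finset.mul_mem_mul (Finset.mul_mem_mul (Finset.pow_mem_pow hc₁.1) hl₀)
      (Finset.pow_mem_pow hc₁.2)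
  have hex : ∃ k ≤ n, θ ≤ D.lev (x k) := by
    obtain ⟨k, hk, e⟩ := hcut.eq
    have e' : D.lev (x k) = M := e
    exact ⟨k, hk, by omega⟩
  have hclamp := clamp D T n x hx R c₀ c₁ hR hc₀ hc₁ θ hex g _ hgl
  obtain ⟨a', ha'⟩ : ∃ a' : K, a' = ∏ k ∈ low n (fun k => D.lev (x k)) θ,
    ((D.al (x k))⁻¹ * D.al (x (k + 1))) := ⟨_, rfl⟩
  obtain ⟨b', hb'⟩ : ∃ b' : K, b' = ∏ k ∈ (Finset.range n).filter
    (fun k => ¬ (D.lev (x k) < θ ∧ D.lev (x (k + 1)) < θ)),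
    ((D.al (x k))⁻¹ * D.al (x (k + 1))) := ⟨_, rfl⟩
  rw [← ha'] at hclamp
  obtain ⟨z, hz⟩ : ∃ z : G, z = D.ι ((D.φ ^ θ) g * a') *
    (if D.lev (x n) < θ then D.t ^ D.lev (x n) * D.rep (x n) else D.t ^ θ) := ⟨_, rfl⟩
  rw [← hz] at hclamp
  -- the decomposition of `z`
  have hzal : D.al z = (D.φ ^ θ) g * a' ∧
      (D.lev (x n) < θ → D.lev z = D.lev (x n) ∧ D.rep z = D.rep (x n)) := by
    by_cases hlt : D.lev (x n) < θ
    · rw [if_pos hlt, ← mul_assoc] at hz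
      obtain ⟨u1, u2, u3⟩ := D.uniq ((D.φ ^ θ) g * a') (D.lev (x n)) (D.rep (x n)) (D.rep_mem _)
      rw [← hz] at u1 u2 u3
      exact ⟨u1, fun _ => ⟨u2, u3⟩⟩
    · rw [if_neg hlt] at hz
      obtain ⟨u1, -, -⟩ := D.uniq ((D.φ ^ θ) g * a') θ 1 D.one_mem
      rw [mul_one, ← hz] at u1
      exact ⟨u1, fun hlt' => absurd hlt' hlt⟩
  -- the decomposition of `y`
  have hal : D.al y = a' * b' := by
    rw [← hxn, c4a_al D x hx.zero n, ha', hb']
    unfold low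
    exact (Finset.prod_filter_mul_prod_filter_not _ _ _).symm
  -- the seminorm of `a'`
  have hνa : V.ν a' ≤ C₄ * N * V.Λ ^ θ := by
    have h2 : V.ν a' ≤ ∑ k ∈ low n (fun k => D.lev (x k)) θ, V.Λ ^ D.lev (x k) * C₀ := by
      rw [ha']
      refine (c4a_nu_prod V _ _).trans (Finset.sum_le_sum (fun k hk => ?_))
      have hkn : k < n := by
        unfold low at hk
        exact Finset.mem_range.mp (Finset.mem_filter.mp hk).1
      obtain ⟨s, hs, e, -⟩ := hstep k hkn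
      rw [e, V.scale_zpow]
      exact mul_le_mul_of_nonneg_left (hC₀1 _ (D.rep_mem _) s hs) (by positivity)
    have h3 := sum_low_le n (fun k => D.lev (x k)) ω V.Λ hω hωΛ M h N hcut
    rw [← hθ] at h3
    have h4 : ∑ k ∈ low n (fun k => D.lev (x k)) θ, V.Λ ^ D.lev (x k) ≤
        ∑ k ∈ (Finset.range (n + 1)).filter (fun k => D.lev (x k) < θ), V.Λ ^ D.lev (x k) := by
      apply Finset.sum_le_sum_of_subset_of_nonneg
      · intro k hk
        unfold low at hk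
        rw [Finset.mem_filter, Finset.mem_range] at hk
        rw [Finset.mem_filter, Finset.mem_range]
        exact ⟨by omega, hk.2.1⟩
      · intro k _ _
        positivity
    rw [← Finset.sum_mul] at h2
    calc V.ν a' ≤ (∑ k ∈ low n (fun k => D.lev (x k)) θ, V.Λ ^ D.lev (x k)) * C₀ := h2
      _ ≤ (V.Λ / (V.Λ - ω) * N * V.Λ ^ θ) * C₀ :=
          mul_le_mul_of_nonneg_right (h4.trans h3) hC₀0
      _ = C₄ * N * V.Λ ^ θ := by rw [hC₄]; ring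
  have hνg : 2 * C₄ * N ≤ V.ν g := by
    rw [hg, V.scale_zpow]
    exact (hJ N).1
  have hΛθ : 0 < V.Λ ^ θ := by positivity
  have hνa2 : V.ν a' ≤ V.Λ ^ θ * V.ν g / 2 := by
    have h2 := mul_le_mul_of_nonneg_left hνg hΛθ.le
    linarith
  have hνφ : V.ν ((D.φ ^ θ) g) = V.Λ ^ θ * V.ν g := V.scale_zpow θ g
  -- membership of `v`
  have hv : (D.φ ^ (-θ)) b' ∈ (insert 1 ((Finset.Icc (-(R : ℤ))
      ⌊Real.log N / Real.log ω⌋₊ ×ˢ (D.P ×ˢ T)).image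
      fun a => (D.φ ^ a.1) (D.al (a.2.1 * a.2.2)))) ^ (2 * N) := by
    have h2 : ((Finset.range n).filter
        (fun k => ¬ (D.lev (x k) < θ ∧ D.lev (x (k + 1)) < θ))).card ≤ 2 * N := by
      have h3 := Finset.card_filter_add_card_filter_not (s := Finset.range n)
        (fun k => D.lev (x k) < θ ∧ D.lev (x (k + 1)) < θ)
      rw [Finset.card_range] at h3
      have h4 : n ≤ ((Finset.range n).filter
        (fun k => D.lev (x k) < θ ∧ D.lev (x (k + 1)) < θ)).card + 2 * N := hlet3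
      omega
    apply Finset.pow_subset_pow_right (Finset.mem_insert_self _ _) h2
    rw [hb', map_prod]
    apply c4a_prod_mem
    intro k hk
    rw [Finset.mem_filter, Finset.mem_range] at hk
    obtain ⟨hkn, hk2⟩ := hk
    obtain ⟨s, hs, e, e2⟩ := hstep k hkn
    rw [e, ← MulAut.mul_apply, ← zpow_add]
    apply Finset.mem_insert_of_mem
    rw [Finset.mem_image]
    refine ⟨(-θ + D.lev (x k), (D.rep (x k), s)), ?_, rfl⟩
    rw [Finset.mem_product, Finset.mem_product, Finset.mem_Icc]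
    have h4 := abs_le.mp (hiR k hkn)
    have h5 : D.lev (x k) ≤ M := hcut.le k hkn.le
    have h6 : ((h : ℕ) : ℤ) ≤ ((⌊Real.log N / Real.log ω⌋₊ : ℕ) : ℤ) := by exact_mod_cast hhH
    refine ⟨⟨?_, ?_⟩, D.rep_mem _, hs⟩
    · by_cases h7 : D.lev (x k) < θ
      · have h8 : ¬ D.lev (x (k + 1)) < θ := fun h9 => hk2 ⟨h7, h9⟩
        simp only
        omega
      · simp only
        omega
    · simp only
      omega
  refine ⟨z, θ, (D.φ ^ (-θ)) b', ?_, hv, ?_, ?_, ?_, ?_⟩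
  · -- the length of `z`
    refine Finset.pow_subset_pow_right h1 ?_ hclamp
    have h2 := hN₁ N (by omega)
    have h3 := (hJ N).2
    have h4 : Real.log (N : ℝ) ≤ Real.log ((N : ℝ) + 1) :=
      Real.log_le_log hN0 (by linarith)
    have h5 : ((-θ).toNat : ℝ) ≤ h := by exact_mod_cast hθn
    have h6 : (c₁ : ℝ) * ((-θ).toNat : ℝ) ≤ c₁ / Real.log ω * Real.log ((N : ℝ) + 1) := by
      calc (c₁ : ℝ) * ((-θ).toNat : ℝ) ≤ c₁ * (Real.log N / Real.log ω) :=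
            mul_le_mul_of_nonneg_left (h5.trans hhH') (by positivity)
        _ ≤ c₁ * (Real.log ((N : ℝ) + 1) / Real.log ω) := by
            apply mul_le_mul_of_nonneg_left _ (by positivity)
            exact div_le_div_of_nonneg_right h4 hlω.le
        _ = c₁ / Real.log ω * Real.log ((N : ℝ) + 1) := by ring
    have h7 : (2 * c₁ : ℝ) * (J N : ℝ) ≤
        2 * c₁ * A + 2 * c₁ * B * Real.log ((N : ℝ) + 1) := by
      calc (2 * c₁ : ℝ) * (J N : ℝ) ≤ 2 * c₁ * (A + B * Real.log ((N : ℝ) + 1)) :=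
            mul_le_mul_of_nonneg_left h3 (by positivity)
        _ = 2 * c₁ * A + 2 * c₁ * B * Real.log ((N : ℝ) + 1) := by ring
    have h8 : ((low n (fun k => D.lev (x k)) θ).card : ℝ) + N ≤ n + 1 := by
      exact_mod_cast hlet1
    have h9 : ((N / 2 : ℕ) : ℝ) ≤ (N : ℝ) / 2 := Nat.cast_div_le
    have h10 : ((c₁ * (-θ).toNat + (low n (fun k => D.lev (x k)) θ).card
        + c₀ * (cr n (fun k => D.lev (x k)) θ).card + (c₁ * J N + l₀ + c₁ * J N)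
        + N / 2 : ℕ) : ℝ) ≤ (n : ℝ) := by
      push_cast
      linarith
    have h11 : c₁ * (-θ).toNat + (low n (fun k => D.lev (x k)) θ).card
        + c₀ * (cr n (fun k => D.lev (x k)) θ).card + (c₁ * J N + l₀ + c₁ * J N)
        + N / 2 ≤ n := by exact_mod_cast h10
    omega
  · simp only
    rw [← hg, hzal.1]
    have h2 := V.mul ((D.φ ^ θ) g * a') a'⁻¹
    rw [mul_inv_cancel_right, V.inv, hνφ] at h2
    linarith
  · simp only
    rw [← hg, hzal.1]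
    have h2 := V.mul ((D.φ ^ θ) g) a'
    rw [hνφ] at h2
    linarith
  · simp only
    rw [← hg, hzal.1, hal]
    have h2 : (D.φ ^ θ) ((D.φ ^ (-θ)) b') = b' := by
      rw [← MulAut.mul_apply, ← zpow_add, add_neg_cancel, zpow_zero, MulAut.one_apply]
    rw [h2, mul_comm ((D.φ ^ θ) g) a', mul_inv_cancel_right]
  · rw [← hxn]
    by_cases hlt : D.lev (x n) < θ
    · left
      exact ⟨(hzal.2 hlt).1.symm, (hzal.2 hlt).2.symm⟩
    · right
      have h5 : D.lev (x n) ≤ M := hcut.le n le_rfl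
      refine ⟨(D.lev (x n) - θ).toNat, ?_, ?_⟩
      · refine le_trans ?_ hhH
        omega
      · omega

end Pool.Agent.AC73
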