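import Pool.Agent.AC73.C3
import Pool.Agent.AC73.C4a

/-!
Row C4b (130-160 lines). Counting the codes. PROOF. For `y` with `Prof D T ω n N y`, `N ≥ N₁`, choose `z, θ, v` as in `exists_code`, and code `y` by
`(z, m, v, o)`: `m = (θ - a z).toNat`, `a z = ⌈log (ν (al z) / (3/2 ν (gN N))) / log Λ⌉`: from `Λ^θ ν(gN)/2 ≤ ν (al z) ≤ Λ^θ ν(gN) 3/2` one gets `0 ≤ θ - a z ≤ log 3 / log Λ`, so `m < c₅ := ⌊log 3/log Λ⌋₊ + 1`;
`v ∈ V₀` (the power in `exists_code`, at most `(2N+1)^(|E|)` elements by `pow_card_le`, `|E| ≤ 1 + (R + H + 1) |P| |T|`, `H = ⌊log N/log ω⌋₊`);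
`o = none` in the first case, `o = some (e, rep y)` in the second (`≤ 1 + (H+1) |P|` values). `y` is determined: `θ = a z + m`, `al y` by the formula, `lev y`, `rep y` by `o` (and `z`), and
`y = ι (al y) t^(lev y) rep y`. So the number of `y` is at most `|T^(n - N/2)| * c₅ * (2N+1)^(1 + (R+H+1)|P||T|) * (1 + (H+1)|P|) ≤ exp (Cq (1 + log N)^2) |T^(n - N/2)|`
for `N ≥ 1` (`log (2N+1) ≤ 2 (1 + log N)`, `H + 1 ≤ const (1 + log N)`).
-/

open Pointwise

namespace Pool.Agent.AC73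

/-- the level correction -/
lemma theta_bound {Λ g z : ℝ} (hΛ : 1 < Λ) (hg : 0 < g) (θ : ℤ)
    (hl : Λ ^ θ * g / 2 ≤ z) (hu : z ≤ Λ ^ θ * g * (3 / 2)) :
    ⌈Real.log (z / (3 / 2 * g)) / Real.log Λ⌉ ≤ θ ∧
      (θ - ⌈Real.log (z / (3 / 2 * g)) / Real.log Λ⌉).toNat < ⌊Real.log 3 / Real.log Λ⌋₊ + 1 := by
  have hlΛ : 0 < Real.log Λ := Real.log_pos hΛ
  have hΛ0 : 0 < Λ := by linarith
  have hΛθ : 0 < Λ ^ θ := zpow_pos hΛ0 θ
  have hz : 0 < z := lt_of_lt_of_le (by positivity) hl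
  have h1 : z / (3 / 2 * g) ≤ Λ ^ θ := by
    rw [div_le_iff₀ (by positivity)]
    calc z ≤ Λ ^ θ * g * (3 / 2) := hu
      _ = Λ ^ θ * (3 / 2 * g) := by ring
  have h2 : Λ ^ θ / 3 ≤ z / (3 / 2 * g) := by
    rw [le_div_iff₀ (by positivity)]
    calc Λ ^ θ / 3 * (3 / 2 * g) = Λ ^ θ * g / 2 := by ring
      _ ≤ z := hl
  have h3 : Real.log (z / (3 / 2 * g)) ≤ θ * Real.log Λ := by
    have := Real.log_le_log (by positivity) h1
    rwa [Real.log_zpow] at this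
  have h4 : θ * Real.log Λ - Real.log 3 ≤ Real.log (z / (3 / 2 * g)) := by
    have := Real.log_le_log (by positivity) h2
    rwa [Real.log_div (by positivity) (by norm_num), Real.log_zpow] at this
  have h5 : ⌈Real.log (z / (3 / 2 * g)) / Real.log Λ⌉ ≤ θ := by
    rw [Int.ceil_le, div_le_iff₀ hlΛ]
    exact h3
  refine ⟨h5, ?_⟩
  rw [Nat.lt_succ_iff, Nat.le_floor_iff (by positivity)]
  have h6 : Real.log (z / (3 / 2 * g)) / Real.log Λ
      ≤ ⌈Real.log (z / (3 / 2 * g)) / Real.log Λ⌉ := Int.le_ceil _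
  have h7 : (((θ - ⌈Real.log (z / (3 / 2 * g)) / Real.log Λ⌉).toNat : ℕ) : ℝ)
      = (θ : ℝ) - ⌈Real.log (z / (3 / 2 * g)) / Real.log Λ⌉ := by
    have : (((θ - ⌈Real.log (z / (3 / 2 * g)) / Real.log Λ⌉).toNat : ℕ) : ℤ)
        = θ - ⌈Real.log (z / (3 / 2 * g)) / Real.log Λ⌉ := Int.toNat_of_nonneg (by omega)
    exact_mod_cast this
  rw [h7]
  have h8 : (θ : ℝ) - Real.log 3 / Real.log Λ ≤ Real.log (z / (3 / 2 * g)) / Real.log Λ := by
    rw [le_div_iff₀ hlΛ, sub_mul, div_mul_cancel₀ _ hlΛ.ne']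
    exact h4
  linarith

/-- the numerical estimate -/
lemma num_bound (c₅ R pP pT H N e : ℕ) (κ : ℝ) (hκ : 0 ≤ κ) (hN : 1 ≤ N)
    (hH : (H : ℝ) ≤ κ * Real.log N) (he : e ≤ 1 + (R + H + 1) * (pP * pT)) :
    ((c₅ * ((2 * N + 1) ^ e * (1 + (H + 1) * pP)) : ℕ) : ℝ) ≤
      Real.exp ((c₅ + 2 * (1 + (R + κ + 1) * (pP * pT)) + (κ + 1) * pP)
        * (1 + Real.log N) ^ 2) := by
  have hN' : (1 : ℝ) ≤ N := by exact_mod_cast hN
  have hl : 0 ≤ Real.log N := Real.log_nonneg hN'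
  set u : ℝ := 1 + Real.log N with hu
  have hu1 : 1 ≤ u := by linarith
  have huu : u ≤ u ^ 2 := by nlinarith
  have hHu : (H : ℝ) ≤ κ * u := hH.trans (by rw [hu]; nlinarith)
  have e1 : (c₅ : ℝ) ≤ Real.exp (c₅ * u ^ 2) := by
    have h1 : (c₅ : ℝ) ≤ c₅ * u ^ 2 := by
      have : (0 : ℝ) ≤ c₅ := Nat.cast_nonneg _
      nlinarith
    have h2 := Real.add_one_le_exp ((c₅ : ℝ) * u ^ 2)
    linarith
  have e2 : (2 * N + 1 : ℝ) ≤ Real.exp (2 * u) := by
    have h1 : (3 : ℝ) ≤ Real.exp 2 := by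
      have := Real.add_one_le_exp (2 : ℝ)
      linarith
    have h2 : Real.exp (Real.log N) = N := Real.exp_log (by linarith)
    calc (2 * N + 1 : ℝ) ≤ 3 * N := by linarith
      _ ≤ Real.exp 2 * Real.exp (Real.log N) := by
        rw [h2]
        exact mul_le_mul_of_nonneg_right h1 (by linarith)
      _ = Real.exp (2 + Real.log N) := (Real.exp_add _ _).symm
      _ ≤ Real.exp (2 * u) := Real.exp_le_exp.mpr (by rw [hu]; linarith)
  have e3 : (e : ℝ) ≤ (1 + (R + κ + 1) * (pP * pT)) * u := by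
    have h1 : (e : ℝ) ≤ 1 + (R + H + 1) * (pP * pT) := by exact_mod_cast he
    have h2 : (R + H + 1 : ℝ) ≤ (R + κ + 1) * u := by
      have : (0 : ℝ) ≤ R := Nat.cast_nonneg _
      nlinarith
    have h3 : (0 : ℝ) ≤ pP * pT := by positivity
    calc (e : ℝ) ≤ 1 + (R + H + 1) * (pP * pT) := h1
      _ ≤ u + ((R + κ + 1) * u) * (pP * pT) := by
        have := mul_le_mul_of_nonneg_right h2 h3
        linarith
      _ = _ := by ring
  have e4 : ((2 * N + 1 : ℝ)) ^ e ≤ Real.exp (2 * (1 + (R + κ + 1) * (pP * pT)) * u ^ 2) := by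
    calc ((2 * N + 1 : ℝ)) ^ e ≤ Real.exp (2 * u) ^ e :=
          pow_le_pow_left₀ (by positivity) e2 e
      _ = Real.exp (e * (2 * u)) := (Real.exp_nat_mul _ _).symm
      _ ≤ _ := Real.exp_le_exp.mpr (by
          have h1 := mul_le_mul_of_nonneg_right e3 (by linarith : (0 : ℝ) ≤ 2 * u)
          calc (e : ℝ) * (2 * u) ≤ (1 + (R + κ + 1) * (pP * pT)) * u * (2 * u) := h1
            _ = _ := by ring)
  have e5 : (1 + (H + 1) * pP : ℝ) ≤ Real.exp ((κ + 1) * pP * u ^ 2) := by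
    have h0 : (0 : ℝ) ≤ pP := Nat.cast_nonneg _
    have h1 : (H + 1 : ℝ) ≤ (κ + 1) * u ^ 2 := by nlinarith
    have h2 := mul_le_mul_of_nonneg_right h1 h0
    have h3 := Real.add_one_le_exp ((κ + 1) * pP * u ^ 2)
    nlinarith
  have e6 : ((c₅ * ((2 * N + 1) ^ e * (1 + (H + 1) * pP)) : ℕ) : ℝ)
      = c₅ * ((2 * N + 1 : ℝ) ^ e * (1 + (H + 1) * pP)) := by
    push_cast
    ring
  rw [e6]
  calc (c₅ : ℝ) * ((2 * N + 1 : ℝ) ^ e * (1 + (H + 1) * pP))
      ≤ Real.exp (c₅ * u ^ 2) * (Real.exp (2 * (1 + (R + κ + 1) * (pP * pT)) * u ^ 2)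
        * Real.exp ((κ + 1) * pP * u ^ 2)) := by
        apply mul_le_mul e1 _ (by positivity) (Real.exp_pos _).le
        exact mul_le_mul e4 e5 (by positivity) (Real.exp_pos _).le
    _ = _ := by
        rw [← Real.exp_add, ← Real.exp_add]
        congr 1
        ring

open Classical in
theorem bad_card {G K : Type} [Group G] [CommGroup K] [DecidableEq G]
    (D : Dec G K) (V : Nu D.φ) (T : Finset G) (h1 : (1 : G) ∈ T)
    (hgen : ∀ g : G, ∃ n : ℕ, g ∈ T ^ n) (R c₀ : ℕ)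
    (hR : ∀ p ∈ D.P, ∀ s ∈ T, |D.lev (p * s)| ≤ R)
    (hc₀ : ∀ p ∈ D.P, ∀ d : ℤ, |d| ≤ R → p⁻¹ * D.t ^ d ∈ T ^ c₀ ∧ D.t ^ d * p ∈ T ^ c₀)
    (ω : ℝ) (hω : 1 < ω) (hωΛ : ω < V.Λ) (hω2 : 8 * c₀ * (ω ^ R - 1) ≤ 1) :
    ∃ (Cq : ℝ) (N₁ : ℕ), ∀ n N : ℕ, N₁ ≤ N →
      (((T ^ n).filter (Prof D T ω n N)).card : ℝ)
        ≤ Real.exp (Cq * (1 + Real.log N) ^ 2) * (T ^ (n - N / 2)).card := by
  obtain ⟨gN, N₁, hpos, hcode⟩ := exists_code D V T h1 hgen R c₀ hR hc₀ ω hω hωΛ hω2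
  have hlω : 0 < Real.log ω := Real.log_pos hω
  refine ⟨(((⌊Real.log 3 / Real.log V.Λ⌋₊ + 1 : ℕ) : ℝ)
    + 2 * (1 + (R + 1 / Real.log ω + 1) * (D.P.card * T.card))
    + (1 / Real.log ω + 1) * D.P.card), max N₁ 1, fun n N hN => ?_⟩
  have hN1 : N₁ ≤ N := le_trans (le_max_left _ _) hN
  have hN0 : 1 ≤ N := le_trans (le_max_right _ _) hN
  have hN' : (1 : ℝ) ≤ N := by exact_mod_cast hN0
  set c₅ : ℕ := ⌊Real.log 3 / Real.log V.Λ⌋₊ + 1 with hc5
  set H : ℕ := ⌊Real.log N / Real.log ω⌋₊ with hH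
  set E : Finset K := insert 1 ((Finset.Icc (-(R : ℤ)) H ×ˢ (D.P ×ˢ T)).image
    fun a => (D.φ ^ a.1) (D.al (a.2.1 * a.2.2))) with hE
  let a : G → ℤ := fun z => ⌈Real.log (V.ν (D.al z) / (3 / 2 * V.ν (gN N))) / Real.log V.Λ⌉
  let O : Finset (Option (ℕ × G)) := insert none ((Finset.range (H + 1) ×ˢ D.P).image some)
  let X : Finset (G × (ℕ × (K × Option (ℕ × G)))) :=
    (T ^ (n - N / 2)) ×ˢ (Finset.range c₅ ×ˢ ((E ^ (2 * N)) ×ˢ O))
  let κ : G → ℕ → K → K := fun z m v =>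
    D.al z * ((D.φ ^ (a z + (m : ℤ))) (gN N))⁻¹ * (D.φ ^ (a z + (m : ℤ))) v
  let Φ : G × (ℕ × (K × Option (ℕ × G))) → G := fun c =>
    match c.2.2.2 with
    | none => D.ι (κ c.1 c.2.1 c.2.2.1) * D.t ^ D.lev c.1 * D.rep c.1
    | some (e, p) => D.ι (κ c.1 c.2.1 c.2.2.1) * D.t ^ ((a c.1 + (c.2.1 : ℤ)) + (e : ℤ)) * p
  have hsub : (T ^ n).filter (Prof D T ω n N) ⊆ X.image Φ := by
    intro y hy
    rw [Finset.mem_filter] at hy
    obtain ⟨z, θ, v, hz, hv, hl, hu, hal, hor⟩ := hcode n N hN1 y hy.2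
    obtain ⟨hb1, hb2⟩ := theta_bound V.hΛ (hpos N) θ hl hu
    have hm : a z + (((θ - a z).toNat : ℕ) : ℤ) = θ := by
      have : (((θ - a z).toNat : ℕ) : ℤ) = θ - a z := Int.toNat_of_nonneg (sub_nonneg.mpr hb1)
      rw [this]
      ring
    have hκ : κ z (θ - a z).toNat v = D.al y := by
      simp only [κ]
      rw [hm, hal]
    rw [Finset.mem_image]
    rcases hor with ⟨hlev, hrep⟩ | ⟨e, he, hlev⟩
    · refine ⟨(z, ((θ - a z).toNat, (v, none))), ?_, ?_⟩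
      · simp only [X, Finset.mem_product]
        exact ⟨hz, Finset.mem_range.mpr hb2, hv, Finset.mem_insert_self _ _⟩
      · simp only [Φ]
        rw [hκ, ← hlev, ← hrep]
        exact (D.dec y).symm
    · refine ⟨(z, ((θ - a z).toNat, (v, some (e, D.rep y)))), ?_, ?_⟩
      · simp only [X, Finset.mem_product]
        refine ⟨hz, Finset.mem_range.mpr hb2, hv, Finset.mem_insert_of_mem ?_⟩
        rw [Finset.mem_image]
        refine ⟨(e, D.rep y), ?_, rfl⟩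
        rw [Finset.mem_product]
        exact ⟨Finset.mem_range.mpr (Nat.lt_succ_of_le he), D.rep_mem y⟩
      · simp only [Φ]
        rw [hκ, hm, ← hlev]
        exact (D.dec y).symm
  have hE1 : E.card ≤ 1 + (R + H + 1) * (D.P.card * T.card) := by
    rw [hE]
    refine (Finset.card_insert_le _ _).trans ?_
    rw [add_comm]
    apply Nat.add_le_add_left
    refine Finset.card_image_le.trans ?_
    rw [Finset.card_product, Finset.card_product, Int.card_Icc]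
    apply Nat.mul_le_mul_right
    omega
  have hO : O.card ≤ 1 + (H + 1) * D.P.card := by
    refine (Finset.card_insert_le _ _).trans ?_
    rw [add_comm]
    apply Nat.add_le_add_left
    refine Finset.card_image_le.trans ?_
    rw [Finset.card_product, Finset.card_range]
  have hcard : ((T ^ n).filter (Prof D T ω n N)).card
      ≤ (T ^ (n - N / 2)).card * (c₅ * ((2 * N + 1) ^ E.card * (1 + (H + 1) * D.P.card))) := by
    calc ((T ^ n).filter (Prof D T ω n N)).card ≤ (X.image Φ).card := Finset.card_le_card hsub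
      _ ≤ X.card := Finset.card_image_le
      _ = (T ^ (n - N / 2)).card * (c₅ * ((E ^ (2 * N)).card * O.card)) := by
        simp only [X, Finset.card_product, Finset.card_range]
      _ ≤ _ := by
        apply Nat.mul_le_mul_left
        apply Nat.mul_le_mul_left
        exact Nat.mul_le_mul (pow_card_le E (2 * N)) hO
  have hHle : (H : ℝ) ≤ 1 / Real.log ω * Real.log N := by
    have h0 : 0 ≤ Real.log N / Real.log ω := div_nonneg (Real.log_nonneg hN') hlω.le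
    have := Nat.floor_le h0
    rw [one_div, inv_mul_eq_div]
    exact this
  have hnum := num_bound c₅ R D.P.card T.card H N E.card (1 / Real.log ω)
    (by positivity) hN0 hHle hE1
  calc (((T ^ n).filter (Prof D T ω n N)).card : ℝ)
      ≤ (((T ^ (n - N / 2)).card * (c₅ * ((2 * N + 1) ^ E.card
        * (1 + (H + 1) * D.P.card))) : ℕ) : ℝ) := by exact_mod_cast hcard
    _ = ((c₅ * ((2 * N + 1) ^ E.card * (1 + (H + 1) * D.P.card)) : ℕ) : ℝ)
        * (T ^ (n - N / 2)).card := by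
        rw [Nat.cast_mul, mul_comm]
    _ ≤ _ := mul_le_mul_of_nonneg_right hnum (Nat.cast_nonneg _)

end Pool.Agent.AC73
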