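import Pool.Agent.AC73.Base

/-!
Row C5a. A separated family. PROOF (variant of the board's proof with two factors only). Let `k₀` be as in `V`, `κ n = φ^n k₀`, `m = 2^d`.
Choose `J` with `Λ^J ≥ 4` and `A` with `2^A ν k₀ ≥ 8 C`. Given `X` put `I = A + 1 + log₂ X`, so `w = Λ^(J I) ν k₀ ≥ 8 C X`.
For `i < m` put `g i = κ (J(I+i)) * κ (J(I+m))`, `W = Λ^(J(I+m)) ν k₀`. Then `(3/4) W ≤ ν (g i) ≤ (5/4) W`, and for `i < j`
`ν (g j * (g i)⁻¹) ≥ (Λ^(J(I+j)) - Λ^(J(I+i))) ν k₀ ≥ (3/4) Λ^(J(I+j)) ν k₀ ≥ 3 w > 2 C X`. So `g` is injective on `i < m`.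
Word length: `p⁻¹ * ι (g i) * p = p⁻¹ t^a ι k₀ t^(-a) t^b ι k₀ t^(-b) p`, `a, b ≤ J (I + m)`.
-/

open Pointwise

namespace Pool.Agent.AC73

lemma c5a_lower {K : Type} [CommGroup K] {φ : MulAut K} (V : Nu φ) (x y : K) :
    V.ν y - V.ν x ≤ V.ν (x * y) := by
  have h1 := V.mul x⁻¹ (x * y)
  rw [inv_mul_cancel_left, V.inv] at h1
  linarith

lemma c5a_comm {K : Type} [CommGroup K] (a b c : K) : a * c * (b * c)⁻¹ = b⁻¹ * a :=
  mul_inv_eq_iff_eq_mul.2 (by rw [mul_mul_mul_comm, inv_mul_cancel, one_mul])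

lemma c5a_bound {G : Type} [Group G] [DecidableEq G] (T : Finset G) (h1 : (1 : G) ∈ T)
    (hgen : ∀ g : G, ∃ n : ℕ, g ∈ T ^ n) (S : Finset G) : ∃ N : ℕ, ∀ g ∈ S, g ∈ T ^ N := by
  choose n hn using hgen
  refine ⟨S.sup n, fun g hg => ?_⟩
  exact Finset.pow_subset_pow_right h1 (Finset.le_sup hg) (hn g)

lemma c5a_pow {G : Type} [Group G] [DecidableEq G] (T : Finset G) (g : G) (N : ℕ)
    (hg : g ∈ T ^ N) (a : ℕ) : g ^ a ∈ T ^ (N * a) := by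
  rw [pow_mul]
  exact Finset.pow_mem_pow hg

theorem exists_family {G K : Type} [Group G] [CommGroup K] [DecidableEq G] (D : Dec G K)
    (V : Nu D.φ) (T : Finset G) (h1 : (1 : G) ∈ T) (hgen : ∀ g : G, ∃ n : ℕ, g ∈ T ^ n)
    (C : ℝ) (hC : 0 ≤ C) (d : ℕ) :
    ∃ Cg : ℕ, ∀ X : ℕ, ∃ (W : ℝ) (F : Finset K), 0 < W ∧ 8 * C * X ≤ W ∧ 2 ^ d ≤ F.card ∧
      (∀ g ∈ F, 2 / 3 * W ≤ V.ν g ∧ V.ν g ≤ 4 / 3 * W) ∧
      (∀ g ∈ F, ∀ g' ∈ F, g ≠ g' → 2 * C * X < V.ν (g * g'⁻¹)) ∧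
      ∀ g ∈ F, ∀ p ∈ D.P, p⁻¹ * D.ι g * p ∈ T ^ (Cg * (1 + Nat.log 2 X)) := by
  classical
  have hΛ := V.hΛ
  have hΛ0 : 0 < V.Λ := zero_lt_one.trans hΛ
  have hk := V.pos
  obtain ⟨J, hJ⟩ : ∃ J : ℕ, 4 < V.Λ ^ J := pow_unbounded_of_one_lt 4 hΛ
  obtain ⟨A, hA⟩ : ∃ A : ℕ, 8 * C / V.ν V.k₀ < (2 : ℝ) ^ A := pow_unbounded_of_one_lt _ (by norm_num)
  rw [div_lt_iff₀ hk] at hA
  set m : ℕ := 2 ^ d with hm
  set κ : ℕ → K := fun n => (D.φ ^ ((n : ℕ) : ℤ)) V.k₀ with hκ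
  have hνκ : ∀ n, V.ν (κ n) = V.Λ ^ n * V.ν V.k₀ := by
    intro n
    rw [hκ]
    simp only
    rw [V.scale_zpow, zpow_natCast]
  obtain ⟨N₀, hN₀⟩ := c5a_bound T h1 hgen
    (({D.t, D.t⁻¹, D.ι V.k₀} : Finset G) ∪ (D.P ∪ D.P.image (fun p => p⁻¹)))
  have ht : D.t ∈ T ^ N₀ := hN₀ _ (by simp)
  have ht' : D.t⁻¹ ∈ T ^ N₀ := hN₀ _ (by simp)
  have hι : D.ι V.k₀ ∈ T ^ N₀ := hN₀ _ (by simp)
  have hp : ∀ p ∈ D.P, p ∈ T ^ N₀ := fun p hp => hN₀ _ (by simp [hp])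
  have hp' : ∀ p ∈ D.P, p⁻¹ ∈ T ^ N₀ := fun p hp => hN₀ _ (by simp [hp])
  refine ⟨N₀ * (4 + 4 * (J * (A + 1 + m))), fun X => ?_⟩
  set ℓ := Nat.log 2 X with hℓ
  set I : ℕ := A + 1 + ℓ with hI
  set w : ℝ := V.Λ ^ (J * I) * V.ν V.k₀ with hw
  have hw0 : 0 < w := by positivity
  have hwX : 8 * C * X ≤ w := by
    have h2 : (X : ℝ) ≤ 2 ^ (ℓ + 1) := by
      exact_mod_cast (Nat.lt_pow_succ_log_self (by norm_num : 1 < 2) X).le
    have h3 : (2 : ℝ) ^ I ≤ V.Λ ^ (J * I) := by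
      rw [pow_mul]
      exact pow_le_pow_left₀ (by norm_num) (by linarith) I
    have h4 : (2 : ℝ) ^ I = 2 ^ A * 2 ^ (ℓ + 1) := by
      rw [← pow_add]
      congr 1
      omega
    have h5 : 8 * C * X ≤ 2 ^ A * V.ν V.k₀ * 2 ^ (ℓ + 1) :=
      mul_le_mul hA.le h2 (Nat.cast_nonneg X) (by positivity)
    calc 8 * C * X ≤ 2 ^ A * V.ν V.k₀ * 2 ^ (ℓ + 1) := h5
      _ = 2 ^ I * V.ν V.k₀ := by rw [h4]; ring
      _ ≤ w := mul_le_mul_of_nonneg_right h3 hk.le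
  set W : ℝ := V.Λ ^ (J * (I + m)) * V.ν V.k₀ with hW
  have hpow : ∀ i j : ℕ, i < j → 4 * (V.Λ ^ (J * (I + i)) * V.ν V.k₀) ≤
      V.Λ ^ (J * (I + j)) * V.ν V.k₀ := by
    intro i j hij
    have h2 : V.Λ ^ (J * (I + i)) * V.Λ ^ J ≤ V.Λ ^ (J * (I + j)) := by
      rw [← pow_add]
      apply pow_le_pow_right₀ hΛ.le
      have : J * (I + i) + J = J * (I + (i + 1)) := by ring
      rw [this]
      exact Nat.mul_le_mul_left J (by omega)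
    have h3 : V.Λ ^ (J * (I + i)) * 4 ≤ V.Λ ^ (J * (I + i)) * V.Λ ^ J :=
      mul_le_mul_of_nonneg_left hJ.le (by positivity)
    nlinarith
  have hwle : ∀ i : ℕ, w ≤ V.Λ ^ (J * (I + i)) * V.ν V.k₀ := by
    intro i
    apply mul_le_mul_of_nonneg_right _ hk.le
    exact pow_le_pow_right₀ hΛ.le (Nat.mul_le_mul_left J (by omega))
  set g : ℕ → K := fun i => κ (J * (I + i)) * κ (J * (I + m)) with hg
  have hsep : ∀ i j : ℕ, i < j → 2 * C * X < V.ν (g j * (g i)⁻¹) ∧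
      2 * C * X < V.ν (g i * (g j)⁻¹) := by
    intro i j hij
    have e1 : g j * (g i)⁻¹ = (κ (J * (I + i)))⁻¹ * κ (J * (I + j)) := by
      exact c5a_comm _ _ _
    have h2 := c5a_lower V (κ (J * (I + i)))⁻¹ (κ (J * (I + j)))
    rw [V.inv, hνκ, hνκ, ← e1] at h2
    have h3 := hpow i j hij
    have h4 := hwle i
    have h5 : 2 * C * X < V.ν (g j * (g i)⁻¹) := by linarith
    refine ⟨h5, ?_⟩
    rw [← V.inv, mul_inv_rev, inv_inv]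
    exact h5
  have hinj : ∀ i j : ℕ, g i = g j → i = j := by
    intro i j hij
    have h2 : ∀ i j : ℕ, i < j → g i ≠ g j := by
      intro i j hlt he
      have h3 := (hsep i j hlt).1
      rw [he, mul_inv_cancel, V.one] at h3
      have : 0 ≤ 2 * C * X := by positivity
      linarith
    rcases lt_trichotomy i j with h | h | h
    · exact absurd hij (h2 i j h)
    · exact h
    · exact absurd hij.symm (h2 j i h)
  refine ⟨W, (Finset.range m).image g, by positivity, hwX.trans (hwle m), ?_, ?_, ?_, ?_⟩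
  · rw [Finset.card_image_of_injective _ (fun i j h => hinj i j h), Finset.card_range]
  · intro x hx
    obtain ⟨i, hi, rfl⟩ := Finset.mem_image.1 hx
    have h2 := hpow i m (Finset.mem_range.1 hi)
    have h3 := c5a_lower V (κ (J * (I + i))) (κ (J * (I + m)))
    have h4 := V.mul (κ (J * (I + i))) (κ (J * (I + m)))
    rw [hνκ, hνκ] at h3 h4
    have hW0 : 0 < W := by positivity
    constructor
    · change 2 / 3 * W ≤ V.ν (κ (J * (I + i)) * κ (J * (I + m)))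
      linarith
    · change V.ν (κ (J * (I + i)) * κ (J * (I + m))) ≤ 4 / 3 * W
      linarith
  · intro x hx y hy hxy
    obtain ⟨i, hi, rfl⟩ := Finset.mem_image.1 hx
    obtain ⟨j, hj, rfl⟩ := Finset.mem_image.1 hy
    rcases lt_trichotomy i j with h | h | h
    · exact (hsep i j h).2
    · exact absurd (congrArg g h) hxy
    · exact (hsep j i h).1
  · intro x hx p hpP
    obtain ⟨i, hi, rfl⟩ := Finset.mem_image.1 hx
    have hi' := Finset.mem_range.1 hi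
    set a := J * (I + i) with ha
    set b := J * (I + m) with hb
    have hab : a ≤ b := Nat.mul_le_mul_left J (by omega)
    have e1 : p⁻¹ * D.ι (g i) * p = p⁻¹ * (D.t ^ a * D.ι V.k₀ * D.t⁻¹ ^ a) *
        (D.t ^ b * D.ι V.k₀ * D.t⁻¹ ^ b) * p := by
      have e2 : D.ι (g i) = D.ι (κ a) * D.ι (κ b) := map_mul _ _ _
      have e3 : ∀ n : ℕ, D.ι (κ n) = D.t ^ n * D.ι V.k₀ * D.t⁻¹ ^ n := by
        intro n
        change D.ι ((D.φ ^ ((n : ℕ) : ℤ)) V.k₀) = _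
        rw [D.hφ_zpow, zpow_natCast, zpow_neg, zpow_natCast, inv_pow]
      rw [e2, e3, e3]
      simp only [mul_assoc]
    rw [e1]
    have h3 : ∀ n : ℕ, D.t ^ n * D.ι V.k₀ * D.t⁻¹ ^ n ∈ T ^ (N₀ * n + N₀ + N₀ * n) := by
      intro n
      rw [pow_add, pow_add]
      exact Finset.mul_mem_mul (Finset.mul_mem_mul (c5a_pow T _ N₀ ht n) hι)
        (c5a_pow T _ N₀ ht' n)
    have h4 : p⁻¹ * (D.t ^ a * D.ι V.k₀ * D.t⁻¹ ^ a) * (D.t ^ b * D.ι V.k₀ * D.t⁻¹ ^ b) * p ∈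
        T ^ (N₀ + (N₀ * a + N₀ + N₀ * a) + (N₀ * b + N₀ + N₀ * b) + N₀) := by
      rw [pow_add T _ N₀, pow_add T (N₀ + (N₀ * a + N₀ + N₀ * a)), pow_add T N₀]
      exact Finset.mul_mem_mul (Finset.mul_mem_mul (Finset.mul_mem_mul (hp' p hpP) (h3 a)) (h3 b))
        (hp p hpP)
    refine Finset.pow_subset_pow_right h1 ?_ h4
    have h5 : b ≤ J * (A + 1 + m) * (1 + ℓ) := by
      rw [hb, hI, mul_assoc]
      apply Nat.mul_le_mul_left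
      nlinarith [Nat.zero_le (A * ℓ), Nat.zero_le (m * ℓ)]
    have h6 : N₀ * a ≤ N₀ * (J * (A + 1 + m) * (1 + ℓ)) := Nat.mul_le_mul_left _ (hab.trans h5)
    have h7 : N₀ * b ≤ N₀ * (J * (A + 1 + m) * (1 + ℓ)) := Nat.mul_le_mul_left _ h5
    have h8 : N₀ * (4 + 4 * (J * (A + 1 + m))) * (1 + ℓ) =
        4 * N₀ * (1 + ℓ) + 4 * (N₀ * (J * (A + 1 + m) * (1 + ℓ))) := by ring
    rw [h8]
    have h9 : 4 * N₀ ≤ 4 * N₀ * (1 + ℓ) := Nat.le_mul_of_pos_right _ (by omega)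
    omega

end Pool.Agent.AC73
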