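import Pool.Agent.AC73.C2
import Pool.Agent.AC73.C5a

/-!
Row C5b. The elements with small cut number. PROOF. `C₀ ≥ ν (al (p * s))` for `p ∈ P, s ∈ T`, `C = C₀ Λ / (Λ - ω)`. For `y` with `Prof D T ω n N y`, `N ≤ X`,
path `x`, top `M`: `al y = ∏_{k<n} (φ^(lev (x k))) (al (rep (x k) * s_k))` (`D.mul`), so `ν (al y) ≤ C₀ ∑ Λ^(lev (x k)) ≤ C X Λ^M` (`sum_le`).
Let `Λ ^ c > 3`, choose `d` with `4 c ≤ 2^d`, and the family `F` of `exists_family` for `C`, `d`, `X`.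
Map `(y, g) ↦ (z, M mod c)`, `z = ι ((φ^M) g) * y ∈ T^(n + Cg(1 + log₂ X))` (`insertion` at a vertex of level `M`), where `M = M y` is a choice.
`al z = (φ^M) g * al y` (`D.left`), so `Λ^M (ν g - C X) ≤ ν (al z) ≤ Λ^M (ν g + C X)`, and `(13/24) W ≤ ν g - C X`, `ν g + C X ≤ (35/24) W`; `(35/24)/(13/24) < 3`,
so given `z` any two values of `M` differ by less than `c`. Given `z` and `M` at most one `g`: if `(y, g)`, `(y', g')` both give `z` with the same `M` then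
`(φ^M) (g * g'⁻¹) = al y' * (al y)⁻¹`, so `Λ^M ν (g * g'⁻¹) ≤ 2 C X Λ^M`, so `g = g'` and then `y = y'`. So `2^d * |{y}| ≤ c * |T^(n + ..)|`; for larger `L`
use `1 ∈ T`.
-/

open Pointwise

namespace Pool.Agent.AC73

lemma c5b_bound {G K : Type} [Group G] [CommGroup K] (D : Dec G K) (V : Nu D.φ) (T : Finset G) :
    ∃ C₀ : ℝ, 0 ≤ C₀ ∧ ∀ p ∈ D.P, ∀ s ∈ T, V.ν (D.al (p * s)) ≤ C₀ := by
  refine ⟨∑ p ∈ D.P, ∑ s ∈ T, V.ν (D.al (p * s)), ?_, ?_⟩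
  · exact Finset.sum_nonneg fun p _ => Finset.sum_nonneg fun s _ => V.nonneg _
  · intro p hp s hs
    exact (Finset.single_le_sum (f := fun s => V.ν (D.al (p * s)))
      (fun s _ => V.nonneg _) hs).trans
      (Finset.single_le_sum (f := fun p => ∑ s ∈ T, V.ν (D.al (p * s)))
        (fun p _ => Finset.sum_nonneg fun s _ => V.nonneg _) hp)

lemma c5b_path {G K : Type} [Group G] [CommGroup K] (D : Dec G K) (V : Nu D.φ) (T : Finset G)
    (C₀ : ℝ) (hC₀ : ∀ p ∈ D.P, ∀ s ∈ T, V.ν (D.al (p * s)) ≤ C₀) {n : ℕ} {x : ℕ → G}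
    (hx : IsPath T n x) :
    ∀ m ≤ n, V.ν (D.al (x m)) ≤ C₀ * ∑ k ∈ Finset.range m, V.Λ ^ D.lev (x k) := by
  have hΛ0 : 0 < V.Λ := zero_lt_one.trans V.hΛ
  intro m
  induction m with
  | zero =>
    intro _
    rw [hx.zero, D.one.1, V.one]
    simp
  | succ m ih =>
    intro hm
    obtain ⟨s, hs, e⟩ := hx.step m hm
    rw [e, (D.mul (x m) s).1, Finset.sum_range_succ, mul_add]
    refine (V.mul _ _).trans (add_le_add (ih (Nat.le_of_succ_le hm)) ?_)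
    rw [V.scale_zpow, mul_comm]
    exact mul_le_mul_of_nonneg_right (hC₀ _ (D.rep_mem _) s hs) (zpow_nonneg hΛ0.le _)

lemma c5b_one {G K : Type} [Group G] [CommGroup K] [DecidableEq G] (D : Dec G K)
    (V : Nu D.φ) (T : Finset G) (ω : ℝ) (hω : 1 < ω) (hωΛ : ω < V.Λ) :
    ∃ C : ℝ, 0 ≤ C ∧ ∀ (n N X : ℕ) (y : G), N ≤ X → Prof D T ω n N y → ∃ M : ℤ,
      V.ν (D.al y) ≤ C * X * V.Λ ^ M ∧
      ∀ (g : K) (l : ℕ), (∀ p ∈ D.P, p⁻¹ * D.ι g * p ∈ T ^ l) →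
        D.ι ((D.φ ^ M) g) * y ∈ T ^ (n + l) := by
  obtain ⟨C₀, hC0, hC₀⟩ := c5b_bound D V T
  have hΛ0 : 0 < V.Λ := zero_lt_one.trans V.hΛ
  have hd : 0 < V.Λ - ω := sub_pos.2 hωΛ
  refine ⟨C₀ * (V.Λ / (V.Λ - ω)), by positivity, ?_⟩
  intro n N X y hNX hP
  obtain ⟨x, M, h, hx, hxn, hcut⟩ := hP
  refine ⟨M, ?_, ?_⟩
  · have h2 := c5b_path D V T C₀ hC₀ hx n le_rfl
    rw [hxn] at h2
    refine h2.trans ?_
    have h3 := sum_le n (fun k => D.lev (x k)) ω V.Λ hω hωΛ M h N hcut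
    have h4 : ∑ k ∈ Finset.range n, V.Λ ^ D.lev (x k) ≤
        ∑ k ∈ Finset.range (n + 1), V.Λ ^ D.lev (x k) := by
      rw [Finset.sum_range_succ]
      have : 0 ≤ V.Λ ^ D.lev (x n) := zpow_nonneg hΛ0.le _
      linarith
    have h5 : V.Λ / (V.Λ - ω) * N * V.Λ ^ M ≤ V.Λ / (V.Λ - ω) * X * V.Λ ^ M := by
      apply mul_le_mul_of_nonneg_right _ (zpow_nonneg hΛ0.le _)
      apply mul_le_mul_of_nonneg_left _ (by positivity)
      exact_mod_cast hNX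
    calc C₀ * ∑ k ∈ Finset.range n, V.Λ ^ D.lev (x k)
        ≤ C₀ * (V.Λ / (V.Λ - ω) * X * V.Λ ^ M) :=
          mul_le_mul_of_nonneg_left (h4.trans (h3.trans h5)) hC0
      _ = C₀ * (V.Λ / (V.Λ - ω)) * X * V.Λ ^ M := by ring
  · intro g l hg
    obtain ⟨k, hk, hkM⟩ := hcut.eq
    have h2 := insertion D hx hk g l hg
    rw [hxn] at h2
    rwa [hkM] at h2

lemma c5b_near {G K : Type} [Group G] [CommGroup K] (D : Dec G K) (V : Nu D.φ) (W CX : ℝ)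
    (hCX : 8 * CX ≤ W) (M : ℤ) (g : K) (y : G)
    (hg : 2 / 3 * W ≤ V.ν g ∧ V.ν g ≤ 4 / 3 * W) (hy : V.ν (D.al y) ≤ CX * V.Λ ^ M) :
    13 / 24 * W * V.Λ ^ M ≤ V.ν (D.al (D.ι ((D.φ ^ M) g) * y)) ∧
      V.ν (D.al (D.ι ((D.φ ^ M) g) * y)) ≤ 35 / 24 * W * V.Λ ^ M := by
  have hΛ0 : 0 < V.Λ := zero_lt_one.trans V.hΛ
  have hM : 0 < V.Λ ^ M := zpow_pos hΛ0 _
  rw [(D.left _ y).1]
  have h2 := c5a_lower V (D.al y) ((D.φ ^ M) g)
  rw [mul_comm (D.al y), V.scale_zpow] at h2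
  have h3 := V.mul ((D.φ ^ M) g) (D.al y)
  rw [V.scale_zpow] at h3
  have h4 : V.Λ ^ M * (2 / 3 * W) ≤ V.Λ ^ M * V.ν g := mul_le_mul_of_nonneg_left hg.1 hM.le
  have h5 : V.Λ ^ M * V.ν g ≤ V.Λ ^ M * (4 / 3 * W) := mul_le_mul_of_nonneg_left hg.2 hM.le
  have h6 : CX * V.Λ ^ M ≤ W / 8 * V.Λ ^ M := mul_le_mul_of_nonneg_right (by linarith) hM.le
  constructor <;> nlinarith

lemma c5b_same {G K : Type} [Group G] [CommGroup K] (D : Dec G K) (V : Nu D.φ) (CX : ℝ)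
    (M : ℤ) (g g' : K) (y y' : G) (hy : V.ν (D.al y) ≤ CX * V.Λ ^ M)
    (hy' : V.ν (D.al y') ≤ CX * V.Λ ^ M)
    (he : D.ι ((D.φ ^ M) g) * y = D.ι ((D.φ ^ M) g') * y') : V.ν (g * g'⁻¹) ≤ 2 * CX := by
  have hΛ0 : 0 < V.Λ := zero_lt_one.trans V.hΛ
  have hM : 0 < V.Λ ^ M := zpow_pos hΛ0 _
  have h2 : (D.φ ^ M) g * D.al y = (D.φ ^ M) g' * D.al y' := by
    rw [← (D.left _ y).1, ← (D.left _ y').1, he]
  have h3 : (D.φ ^ M) (g * g'⁻¹) = D.al y' * (D.al y)⁻¹ := by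
    rw [map_mul, map_inv]
    rw [mul_inv_eq_iff_eq_mul, mul_comm _ ((D.φ ^ M) g'), ← mul_assoc, ← h2, mul_inv_cancel_right]
  have h4 := V.mul (D.al y') (D.al y)⁻¹
  rw [V.inv, ← h3, V.scale_zpow] at h4
  have h5 : V.Λ ^ M * V.ν (g * g'⁻¹) ≤ V.Λ ^ M * (2 * CX) := by linarith
  exact le_of_mul_le_mul_left h5 hM

lemma c5b_mod (Λ : ℝ) (hΛ : 1 < Λ) (c : ℕ) (hc : 3 < Λ ^ c) (W v : ℝ) (hW : 0 < W) (M M' : ℤ)
    (h1 : 13 / 24 * W * Λ ^ M ≤ v) (h2 : v ≤ 35 / 24 * W * Λ ^ M') : M < M' + c := by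
  have hΛ0 : 0 < Λ := zero_lt_one.trans hΛ
  by_contra hcon
  have h3 : M' + c ≤ M := not_lt.1 hcon
  have h4 : Λ ^ (M' + (c : ℤ)) ≤ Λ ^ M := zpow_le_zpow_right₀ hΛ.le h3
  rw [zpow_add₀ hΛ0.ne', zpow_natCast] at h4
  have hM' : 0 < Λ ^ M' := zpow_pos hΛ0 _
  have h5 : Λ ^ M' * 3 < Λ ^ M' * Λ ^ c := mul_lt_mul_of_pos_left hc hM'
  have h6 : 13 / 24 * W * (Λ ^ M' * 3) < 13 / 24 * W * Λ ^ M :=
    mul_lt_mul_of_pos_left (h5.trans_le h4) (by positivity)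
  have h7 : 0 < W * Λ ^ M' := by positivity
  nlinarith

open Classical in
theorem good_card {G K : Type} [Group G] [CommGroup K] [DecidableEq G] (D : Dec G K)
    (V : Nu D.φ) (T : Finset G) (h1 : (1 : G) ∈ T) (hgen : ∀ g : G, ∃ n : ℕ, g ∈ T ^ n)
    (ω : ℝ) (hω : 1 < ω) (hωΛ : ω < V.Λ) :
    ∃ Cg : ℕ, ∀ n X L : ℕ, Cg * (1 + Nat.log 2 X) ≤ L →
      4 * ((T ^ n).filter fun y => ∃ N ≤ X, Prof D T ω n N y).card ≤ (T ^ (n + L)).card := by
  obtain ⟨C, hC, hone⟩ := c5b_one D V T ω hω hωΛ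
  obtain ⟨c, hc⟩ : ∃ c : ℕ, 3 < V.Λ ^ c := pow_unbounded_of_one_lt 3 V.hΛ
  have hc0 : 0 < c := by
    rcases Nat.eq_zero_or_pos c with h | h
    · rw [h, pow_zero] at hc
      norm_num at hc
    · exact h
  have hd : 4 * c ≤ 2 ^ (4 * c) := Nat.lt_two_pow_self.le
  obtain ⟨Cg, hCg⟩ := exists_family D V T h1 hgen C hC (4 * c)
  refine ⟨Cg, fun n X L hL => ?_⟩
  obtain ⟨W, F, hW, hWX, hF, hFν, hFs, hFT⟩ := hCg X
  set B := (T ^ n).filter fun y => ∃ N ≤ X, Prof D T ω n N y with hB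
  set l := Cg * (1 + Nat.log 2 X) with hl
  have hex : ∀ y : G, ∃ M : ℤ, y ∈ B → V.ν (D.al y) ≤ C * X * V.Λ ^ M ∧
      ∀ (g : K) (l : ℕ), (∀ p ∈ D.P, p⁻¹ * D.ι g * p ∈ T ^ l) →
        D.ι ((D.φ ^ M) g) * y ∈ T ^ (n + l) := by
    intro y
    by_cases hy : y ∈ B
    · obtain ⟨-, N, hN, hP⟩ := Finset.mem_filter.1 hy
      obtain ⟨M, hM⟩ := hone n N X y hN hP
      exact ⟨M, fun _ => hM⟩
    · exact ⟨0, fun h => absurd h hy⟩
  choose M hM using hex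
  have hcZ : (0 : ℤ) < c := by exact_mod_cast hc0
  have hcard : (B ×ˢ F).card ≤ ((T ^ (n + l)) ×ˢ Finset.range c).card := by
    apply Finset.card_le_card_of_injOn
      (fun q => (D.ι ((D.φ ^ M q.1) q.2) * q.1, (M q.1 % c).toNat))
    · rintro ⟨y, g⟩ hq
      rw [Finset.mem_coe, Finset.mem_product] at hq
      obtain ⟨hy, hg⟩ := hq
      simp only at hy hg
      rw [Finset.mem_coe, Finset.mem_product]
      refine ⟨(hM y hy).2 g l (fun p hp => hFT g hg p hp), ?_⟩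
      rw [Finset.mem_range]
      have h2 := Int.emod_nonneg (M y) hcZ.ne'
      have h3 := Int.emod_lt_of_pos (M y) hcZ
      simp only
      omega
    · rintro ⟨y, g⟩ hq ⟨y', g'⟩ hq' he
      rw [Finset.mem_coe, Finset.mem_product] at hq hq'
      obtain ⟨hy, hg⟩ := hq
      obtain ⟨hy', hg'⟩ := hq'
      simp only at hy hg hy' hg'
      simp only [Prod.mk.injEq] at he
      obtain ⟨he1, he2⟩ := he
      have h2 := c5b_near D V W (C * X) (by linarith) (M y) g y (hFν g hg) (hM y hy).1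
      have h3 := c5b_near D V W (C * X) (by linarith) (M y') g' y' (hFν g' hg') (hM y' hy').1
      have h4 := c5b_mod V.Λ V.hΛ c hc W _ hW (M y) (M y') h2.1 (by rw [he1]; exact h3.2)
      have h5 := c5b_mod V.Λ V.hΛ c hc W _ hW (M y') (M y) h3.1 (by rw [← he1]; exact h2.2)
      have h6 : M y = M y' := by
        have a1 := Int.emod_nonneg (M y) hcZ.ne'
        have a2 := Int.emod_nonneg (M y') hcZ.ne'
        have a3 : M y % c = M y' % c := by omega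
        have a5 : (c : ℤ) ∣ M y - M y' := Int.ModEq.dvd (Eq.symm a3)
        obtain ⟨q, hq⟩ := a5
        have a6 : q = 0 := by
          rcases lt_trichotomy q 0 with hlt | heq | hgt
          · nlinarith
          · exact heq
          · nlinarith
        rw [a6, mul_zero] at hq
        omega
      rw [← h6] at he1
      have hy'M := (hM y' hy').1
      rw [← h6] at hy'M
      have h7 := c5b_same D V (C * X) (M y) g g' y y' (hM y hy).1 hy'M he1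
      have h8 : g = g' := by
        by_contra hne
        have := hFs g hg g' hg' hne
        linarith
      subst h8
      rw [mul_left_cancel he1]
  rw [Finset.card_product, Finset.card_product, Finset.card_range] at hcard
  have h2 : (4 * B.card) * c ≤ (T ^ (n + l)).card * c := by
    calc (4 * B.card) * c = B.card * (4 * c) := by ring
      _ ≤ B.card * F.card := Nat.mul_le_mul_left _ (hd.trans hF)
      _ ≤ (T ^ (n + l)).card * c := hcard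
  refine (Nat.le_of_mul_le_mul_right h2 hc0).trans ?_
  exact Finset.card_le_card (Finset.pow_subset_pow_right h1 (by omega))

end Pool.Agent.AC73
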