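import Mathlib

/-!
Row C6 (100-140 lines), real analysis and strong induction. PROOF. (a) The series `∑_N exp (Cq (1 + log N)^2) * 2^(3 - √N/2)` converges
(`Cq (1 + log N)^2 ≤ (√N / 4) log 2 + const`, and `2^(-√N/4) ≤ const / N^2`), so there is `L ≥ 1` with `N₁ ≤ L^2`, `Cg * (1 + Nat.log 2 (L^2)) ≤ L` and tail
`∑_{N > L^2} exp (Cq (1 + log N)^2) * 2^(3 - √N/2) ≤ 1/2`. (b) Strong induction on `n` for `2 * b n ≤ b (n + L)`. By the induction hypothesis and monotonicity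
`2^q * b (n - m) ≤ b n` if `q * L ≤ m ≤ n`; with `m = N/2`, `q = (N/2)/L ≥ √N/2 - 2` for `N ≥ L^2` (as `L ≤ √N`; `N/2` and `/L` are natural divisions)
`bad n N ≤ exp (..) * 2^(-q) * b n ≤ exp (..) 2^(3 - √N/2) b n` for `L^2 < N ≤ n + 1` (then `N/2 ≤ n`).
So `b n ≤ good n (L^2) + b n / 2`, so `2 * b n ≤ 4 * good n (L^2) ≤ b (n + L)`.
-/

namespace Pool.Agent.AC73

theorem c6_tail (Cq : ℝ) : ∃ N₀ : ℕ, ∀ N : ℕ, N₀ ≤ N →
    Real.exp (Cq * (1 + Real.log N) ^ 2) * (2 : ℝ) ^ (3 - √(N : ℝ) / 2) ≤ ((N : ℝ) ^ 2)⁻¹ := by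
  have e1 : (fun t : ℝ => Cq * (1 + 2 * Real.log t) ^ 2 + Real.log 2 * 3 + 4 * Real.log t)
      =o[Filter.atTop] (id : ℝ → ℝ) := by
    have h1 : (fun t : ℝ => Cq * (1 + 2 * Real.log t) ^ 2 + Real.log 2 * 3 + 4 * Real.log t) =
        fun t : ℝ => ((Cq + Real.log 2 * 3) + (4 * Cq + 4) * Real.log t) +
          (4 * Cq) * Real.log t ^ 2 := by
      funext t
      ring
    rw [h1]
    refine Asymptotics.IsLittleO.add (Asymptotics.IsLittleO.add ?_ ?_) ?_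
    · exact Asymptotics.isLittleO_const_id_atTop _
    · exact Real.isLittleO_log_id_atTop.const_mul_left _
    · exact (Real.isLittleO_pow_log_id_atTop (n := 2)).const_mul_left _
  have hl2 : 0 < Real.log 2 := Real.log_pos one_lt_two
  have e2 := (e1.bound (show 0 < Real.log 2 / 2 by positivity)).and (Filter.eventually_ge_atTop (1 : ℝ))
  have e3 : Filter.Tendsto (fun N : ℕ => √(N : ℝ)) Filter.atTop Filter.atTop :=
    Real.tendsto_sqrt_atTop.comp tendsto_natCast_atTop_atTop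
  obtain ⟨N₀, hN₀⟩ := (e3.eventually e2).exists_forall_of_atTop
  refine ⟨max N₀ 1, fun N hN => ?_⟩
  obtain ⟨h1, h2⟩ := hN₀ N ((le_max_left _ _).trans hN)
  have hN1 : (1 : ℝ) ≤ N := by exact_mod_cast (le_max_right _ _).trans hN
  have hlog : Real.log √(N : ℝ) = Real.log N / 2 := Real.log_sqrt (by linarith)
  rw [hlog] at h1
  have h3 := (le_abs_self _).trans (Real.norm_eq_abs _ ▸ h1)
  have h4 : ‖(id √(N : ℝ) : ℝ)‖ = √(N : ℝ) := by
    rw [id, Real.norm_eq_abs, abs_of_nonneg (Real.sqrt_nonneg _)]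
  rw [h4] at h3
  have h5 : Cq * (1 + Real.log N) ^ 2 + Real.log 2 * (3 - √(N : ℝ) / 2) ≤
      -(Real.log ((N : ℝ) ^ 2)) := by
    rw [Real.log_pow]
    have h6 : 2 * (Real.log N / 2) = Real.log N := by ring
    rw [h6] at h3
    push_cast
    linarith
  rw [Real.rpow_def_of_pos (by norm_num : (0 : ℝ) < 2), ← Real.exp_add]
  refine (Real.exp_le_exp.2 h5).trans ?_
  rw [Real.exp_neg, Real.exp_log (by positivity)]

theorem c6_four (j : ℕ) (hj : 5 ≤ j) : 1 + 4 * j ≤ 2 ^ j := by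
  induction j, hj using Nat.le_induction with
  | base => norm_num
  | succ n hn ih =>
    rw [pow_succ]
    omega

theorem c6_choose (Cg M : ℕ) : ∃ L : ℕ, 2 ≤ L ∧ M ≤ L ∧ Cg * (1 + Nat.log 2 (L ^ 2)) ≤ L := by
  obtain ⟨j, h1, h2, h3⟩ : ∃ j : ℕ, 5 ≤ j ∧ Cg ≤ j ∧ M ≤ j :=
    ⟨max 5 (max Cg M), le_max_left _ _, (le_max_left _ _).trans (le_max_right _ _),
      (le_max_right _ _).trans (le_max_right _ _)⟩
  have h4 : j < 2 ^ j := Nat.lt_two_pow_self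
  have h5 : 2 ^ (2 * j) = 2 ^ j * 2 ^ j := by rw [two_mul, pow_add]
  have h6 : 1 ≤ 2 ^ j := Nat.one_le_two_pow
  have h7 : 2 ^ j ≤ 2 ^ (2 * j) := by
    rw [h5]
    exact Nat.le_mul_of_pos_left _ h6
  refine ⟨2 ^ (2 * j), by omega, by omega, ?_⟩
  rw [← pow_mul, Nat.log_pow (by norm_num)]
  have h8 := c6_four j h1
  have h9 : 1 + 2 * j * 2 = 1 + 4 * j := by ring
  rw [h9, h5]
  exact Nat.mul_le_mul (h2.trans h4.le) h8

theorem c6_pow (b : ℕ → ℕ) (hb : Monotone b) (L n : ℕ) (hL : 1 ≤ L)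
    (ih : ∀ k, k < n → 2 * b k ≤ b (k + L)) (q : ℕ) :
    ∀ m, q * L ≤ m → m ≤ n → 2 ^ q * b (n - m) ≤ b n := by
  induction q with
  | zero =>
    intro m _ _
    rw [pow_zero, one_mul]
    exact hb (Nat.sub_le n m)
  | succ q iq =>
    intro m h1 h2
    have h3 : (q + 1) * L = q * L + L := by ring
    rw [h3] at h1
    have h4 : n - m < n := by omega
    have h5 := ih (n - m) h4
    have h6 : n - m + L = n - (m - L) := by omega
    rw [h6] at h5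
    have h7 := iq (m - L) (by omega) (by omega)
    calc 2 ^ (q + 1) * b (n - m) = 2 ^ q * (2 * b (n - m)) := by ring
      _ ≤ 2 ^ q * b (n - (m - L)) := Nat.mul_le_mul_left _ h5
      _ ≤ b n := h7

theorem c6_q (L N : ℕ) (hL : 1 ≤ L) (h : L ^ 2 < N) :
    √(N : ℝ) / 2 - 3 ≤ ((N / 2 / L : ℕ) : ℝ) := by
  have hL0 : (0 : ℝ) < L := by exact_mod_cast hL
  have h1 : N ≤ 2 * (N / 2) + 1 := by omega
  have h2 : N / 2 < (N / 2 / L + 1) * L := Nat.lt_mul_of_div_lt (Nat.lt_succ_self _) hL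
  have h3 : (N : ℝ) ≤ 2 * ((N / 2 : ℕ) : ℝ) + 1 := by exact_mod_cast h1
  have h4 : ((N / 2 : ℕ) : ℝ) ≤ (((N / 2 / L : ℕ) : ℝ) + 1) * L := by exact_mod_cast h2.le
  have h5 : (L : ℝ) ≤ √(N : ℝ) := by
    apply Real.le_sqrt_of_sq_le
    exact_mod_cast h.le
  have h6 : √(N : ℝ) * √(N : ℝ) = N := Real.mul_self_sqrt (Nat.cast_nonneg N)
  have h7 : (1 : ℝ) ≤ L := by exact_mod_cast hL
  have hs : 1 ≤ √(N : ℝ) := h7.trans h5
  have hq : (0 : ℝ) ≤ ((N / 2 / L : ℕ) : ℝ) := Nat.cast_nonneg _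
  have h8 : (((N / 2 / L : ℕ) : ℝ) + 1) * L ≤ (((N / 2 / L : ℕ) : ℝ) + 1) * √(N : ℝ) :=
    mul_le_mul_of_nonneg_left h5 (by linarith)
  by_contra hc
  rw [not_le] at hc
  have h9 : (((N / 2 / L : ℕ) : ℝ) + 1) * √(N : ℝ) ≤ (√(N : ℝ) / 2 - 2) * √(N : ℝ) :=
    mul_le_mul_of_nonneg_right (by linarith) (by linarith)
  nlinarith

theorem induct (b : ℕ → ℕ) (hb : Monotone b) (good bad : ℕ → ℕ → ℕ) (Cq : ℝ) (Cg N₁ : ℕ)
    (hgood : ∀ n X L, Cg * (1 + Nat.log 2 X) ≤ L → 4 * good n X ≤ b (n + L))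
    (hbad : ∀ n N, N₁ ≤ N → (bad n N : ℝ) ≤ Real.exp (Cq * (1 + Real.log N) ^ 2) * b (n - N / 2))
    (hsum : ∀ n X, b n ≤ good n X + ∑ N ∈ Finset.Ioc X (n + 1), bad n N) :
    ∃ L : ℕ, ∀ n, 2 * b n ≤ b (n + L) := by
  obtain ⟨N₀, hN₀⟩ := c6_tail Cq
  obtain ⟨L, hL2, hLM, hLg⟩ := c6_choose Cg (max N₀ N₁)
  have hLsq : L ≤ L ^ 2 := by
    rw [sq]
    exact Nat.le_mul_of_pos_left L (by omega)
  refine ⟨L, fun n => ?_⟩
  induction n using Nat.strong_induction_on with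
  | _ n ih =>
    have hkey : ∀ N ∈ Finset.Ioc (L ^ 2) (n + 1), (bad n N : ℝ) ≤ ((N : ℝ) ^ 2)⁻¹ * b n := by
      intro N hN
      rw [Finset.mem_Ioc] at hN
      obtain ⟨hN1, hN2⟩ := hN
      have h1 := hbad n N (((le_max_right _ _).trans hLM).trans (hLsq.trans hN1.le))
      have h2 := hN₀ N (((le_max_left _ _).trans hLM).trans (hLsq.trans hN1.le))
      have h3 := c6_pow b hb L n (by omega) ih (N / 2 / L) (N / 2)
        (Nat.div_mul_le_self _ _) (by omega)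
      have h4 := c6_q L N (by omega) hN1
      have h5 : (2 : ℝ) ^ (N / 2 / L) * (b (n - N / 2) : ℝ) ≤ b n := by exact_mod_cast h3
      have h6 : (b (n - N / 2) : ℝ) ≤ (2 : ℝ) ^ (3 - √(N : ℝ) / 2) * b n := by
        have h7 : (1 : ℝ) ≤ (2 : ℝ) ^ (3 - √(N : ℝ) / 2) * (2 : ℝ) ^ (N / 2 / L) := by
          rw [← Real.rpow_natCast, ← Real.rpow_add (by norm_num)]
          exact Real.one_le_rpow (by norm_num) (by linarith)
        have h8 : (0 : ℝ) ≤ b (n - N / 2) := Nat.cast_nonneg _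
        have h9 : (0 : ℝ) ≤ (2 : ℝ) ^ (3 - √(N : ℝ) / 2) := by positivity
        calc (b (n - N / 2) : ℝ) = 1 * b (n - N / 2) := (one_mul _).symm
          _ ≤ ((2 : ℝ) ^ (3 - √(N : ℝ) / 2) * (2 : ℝ) ^ (N / 2 / L)) * b (n - N / 2) :=
            mul_le_mul_of_nonneg_right h7 h8
          _ = (2 : ℝ) ^ (3 - √(N : ℝ) / 2) * ((2 : ℝ) ^ (N / 2 / L) * b (n - N / 2)) := by ring
          _ ≤ (2 : ℝ) ^ (3 - √(N : ℝ) / 2) * b n := mul_le_mul_of_nonneg_left h5 h9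
      have h10 : (0 : ℝ) ≤ b n := Nat.cast_nonneg _
      calc (bad n N : ℝ) ≤ Real.exp (Cq * (1 + Real.log N) ^ 2) * b (n - N / 2) := h1
        _ ≤ Real.exp (Cq * (1 + Real.log N) ^ 2) * ((2 : ℝ) ^ (3 - √(N : ℝ) / 2) * b n) :=
          mul_le_mul_of_nonneg_left h6 (Real.exp_pos _).le
        _ = Real.exp (Cq * (1 + Real.log N) ^ 2) * (2 : ℝ) ^ (3 - √(N : ℝ) / 2) * b n := by ring
        _ ≤ ((N : ℝ) ^ 2)⁻¹ * b n := mul_le_mul_of_nonneg_right h2 h10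
    have hsumle : (∑ N ∈ Finset.Ioc (L ^ 2) (n + 1), (bad n N : ℝ)) ≤ 1 / 2 * b n := by
      refine (Finset.sum_le_sum hkey).trans ?_
      rw [← Finset.sum_mul]
      refine mul_le_mul_of_nonneg_right ?_ (Nat.cast_nonneg _)
      rcases le_or_gt (L ^ 2) (n + 1) with h1 | h1
      · have h2 : L ^ 2 ≠ 0 := by positivity
        have h3 := sum_Ioc_inv_sq_le_sub (α := ℝ) h2 h1
        have h4 : ((L ^ 2 : ℕ) : ℝ)⁻¹ ≤ 1 / 2 := by
          rw [one_div]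
          apply inv_anti₀ (by norm_num)
          have : 2 ≤ L ^ 2 := hL2.trans hLsq
          exact_mod_cast this
        have h5 : (0 : ℝ) ≤ ((n + 1 : ℕ) : ℝ)⁻¹ := by positivity
        linarith
      · rw [Finset.Ioc_eq_empty (by omega), Finset.sum_empty]
        norm_num
    have h1 : (b n : ℝ) ≤ good n (L ^ 2) + ∑ N ∈ Finset.Ioc (L ^ 2) (n + 1), (bad n N : ℝ) := by
      exact_mod_cast hsum n (L ^ 2)
    have h2 : (b n : ℝ) ≤ 2 * good n (L ^ 2) := by linarith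
    have h3 : b n ≤ 2 * good n (L ^ 2) := by exact_mod_cast h2
    have h4 := hgood n (L ^ 2) L hLg
    omega

end Pool.Agent.AC73
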