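import Pool.Agent.AC73.Base

/-!
Row D1 (100-130 lines). PROOF. `φ`: for `k : K` there is a unique `k'` with `ι k' = t * ι k * t⁻¹` (`hn`, injectivity); the inverse comes from `t⁻¹`; it is a `MulAut K`.
Let `G₀ = range ι ⊔ zpowers t`; its elements are the `ι k * t ^ i` (`range ι` is normal), with `k`, `i` unique: `ι k * t^i = ι k' * t^i'` gives `t^(i-i') ∈ range ι`, so `i = i'` by `ht`.
`G₀` has finite index: choose for every right coset `G₀ g` a representative, `1` for `G₀` itself; `P` = the finite set of representatives, `rep x` = the representative of `G₀ x`,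
`x * (rep x)⁻¹ = ι (al x) * t ^ lev x`. (`G₀ x` is the left coset of `x⁻¹`, inverted: `Quotient ((G₀).leftRel)` of `x⁻¹`.) `uniq`: `ι k * t^i * p` lies in `G₀ p`, so its
representative is `p`.
-/

namespace Pool.Agent.AC73

/-- representatives of the right cosets of a subgroup of finite index -/
lemma d1_rep {G : Type} [Group G] (H : Subgroup G) (hfi : H.FiniteIndex) :
    ∃ (rep : G → G) (P : Finset G), (∀ x, rep x ∈ P) ∧ (1 : G) ∈ P ∧ (∀ x, x * (rep x)⁻¹ ∈ H) ∧
      (∀ h ∈ H, ∀ p ∈ P, rep (h * p) = p) := by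
  classical
  have := hfi
  have : Finite (G ⧸ H) := Subgroup.finite_quotient_of_finiteIndex
  set r : G → G := fun x => if x ∈ H then 1 else (((x⁻¹ : G) : G ⧸ H).out)⁻¹ with hr
  have h1 : ∀ x, x * (r x)⁻¹ ∈ H := by
    intro x
    by_cases hx : x ∈ H
    · simp only [hr, if_pos hx, inv_one, mul_one]
      exact hx
    · simp only [hr, if_neg hx, inv_inv]
      have h2 : ((((x⁻¹ : G) : G ⧸ H).out : G) : G ⧸ H) = ((x⁻¹ : G) : G ⧸ H) :=
        QuotientGroup.out_eq' _
      rw [QuotientGroup.eq] at h2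
      have h3 := H.inv_mem h2
      simpa using h3
  have h2 : ∀ h ∈ H, ∀ x, r (h * x) = r x := by
    intro h hh x
    by_cases hx : x ∈ H
    · simp only [hr, if_pos hx, if_pos (H.mul_mem hh hx)]
    · have hhx : h * x ∉ H := fun h3 => hx ((H.mul_mem_cancel_left hh).1 h3)
      simp only [hr, if_neg hx, if_neg hhx]
      have h4 : (((h * x)⁻¹ : G) : G ⧸ H) = ((x⁻¹ : G) : G ⧸ H) := by
        rw [QuotientGroup.eq]
        simpa using hh
      rw [h4]
  have hfin : (Set.range r).Finite := by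
    have h3 : Set.range r ⊆ {1} ∪ Set.range (fun q : G ⧸ H => (q.out)⁻¹) := by
      rintro _ ⟨x, rfl⟩
      by_cases hx : x ∈ H
      · left
        simp only [hr, if_pos hx, Set.mem_singleton_iff]
      · right
        exact ⟨((x⁻¹ : G) : G ⧸ H), by simp only [hr, if_neg hx]⟩
    exact ((Set.finite_singleton 1).union (Set.finite_range _)).subset h3
  refine ⟨r, hfin.toFinset, fun x => hfin.mem_toFinset.2 ⟨x, rfl⟩, hfin.mem_toFinset.2 ⟨1, ?_⟩, h1, ?_⟩
  · simp only [hr, if_pos H.one_mem]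
  · intro h hh p hp
    obtain ⟨x, rfl⟩ := hfin.mem_toFinset.1 hp
    rw [h2 h hh]
    have h3 := h2 (x * (r x)⁻¹)⁻¹ (H.inv_mem (h1 x)) x
    have e : (x * (r x)⁻¹)⁻¹ * x = r x := by group
    rw [e] at h3
    exact h3

theorem exists_dec {G K : Type} [Group G] [CommGroup K] (ι : K →* G) (hι : Function.Injective ι)
    (hn : ∀ (g : G) (k : K), ∃ k' : K, ι k' = g * ι k * g⁻¹) (t : G)
    (ht : ∀ i : ℤ, t ^ i ∈ ι.range → i = 0) (hfi : (ι.range ⊔ Subgroup.zpowers t).FiniteIndex) :
    ∃ D : Dec G K, D.ι = ι ∧ D.t = t := by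
  classical
  choose cj hcj using hn
  have hnorm : ι.range.Normal := by
    constructor
    rintro _ ⟨k, rfl⟩ g
    exact ⟨cj g k, hcj g k⟩
  have huniq : ∀ (a b : K) (i j : ℤ), ι a * t ^ i = ι b * t ^ j → a = b ∧ i = j := by
    intro a b i j h
    have h1 : t ^ (i - j) ∈ ι.range := by
      refine ⟨a⁻¹ * b, ?_⟩
      rw [map_mul, map_inv, zpow_sub]
      have h2 : ι b = ι a * t ^ i * (t ^ j)⁻¹ := by
        rw [h]
        group
      rw [h2]
      group
    have h3 : i = j := sub_eq_zero.1 (ht _ h1)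
    subst h3
    exact ⟨hι (mul_right_cancel h), rfl⟩
  have hmem : ∀ x ∈ ι.range ⊔ Subgroup.zpowers t, ∃ (a : K) (i : ℤ), ι a * t ^ i = x := by
    intro x hx
    rw [Subgroup.mem_sup_of_normal_left] at hx
    obtain ⟨y, ⟨a, rfl⟩, z, hz, rfl⟩ := hx
    obtain ⟨i, rfl⟩ := Subgroup.mem_zpowers_iff.1 hz
    exact ⟨a, i, rfl⟩
  obtain ⟨rep, P, hrP, h1P, hrH, hrep⟩ := d1_rep _ hfi
  have hdec : ∀ x, ∃ (a : K) (i : ℤ), ι a * t ^ i = x * (rep x)⁻¹ := fun x => hmem _ (hrH x)
  choose al lev hal using hdec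
  refine ⟨{
    ι := ι
    φ := {
      toFun := cj t
      invFun := cj t⁻¹
      left_inv := ?_
      right_inv := ?_
      map_mul' := ?_ }
    t := t
    P := P
    al := al
    lev := lev
    rep := rep
    inj := hι
    hφ := ?_
    dec := ?_
    rep_mem := hrP
    one_mem := h1P
    uniq := ?_ }, rfl, rfl⟩
  · intro k
    apply hι
    rw [hcj, hcj]
    group
  · intro k
    apply hι
    rw [hcj, hcj]
    group
  · intro k l
    apply hι
    rw [map_mul, hcj, hcj, hcj, map_mul]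
    group
  · intro k
    exact hcj t k
  · intro x
    rw [hal x]
    group
  · intro k i p hp
    have h1 : ι k * t ^ i ∈ ι.range ⊔ Subgroup.zpowers t :=
      Subgroup.mul_mem _ (Subgroup.mem_sup_left ⟨k, rfl⟩)
        (Subgroup.mem_sup_right (Subgroup.zpow_mem _ (Subgroup.mem_zpowers t) i))
    have h2 : rep (ι k * t ^ i * p) = p := hrep _ h1 p hp
    have h3 := hal (ι k * t ^ i * p)
    rw [h2, mul_inv_cancel_right] at h3
    obtain ⟨h4, h5⟩ := huniq _ _ _ _ h3
    exact ⟨h4, h5, h2⟩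

end Pool.Agent.AC73
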