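import Pool.Agent.AC73.Base

/-!
Row E1 (150-200 lines; taken by helper19). PROOF. `A = Additive K` is a f.g. abelian group, `A / torsion = ℤ^m`, `φ` acts by an integer matrix `B` in `GL_m(ℤ)`.
If `B` has a complex eigenvalue of modulus `> 1`, with left eigenvector `w`, then `ν k = |w · l(k)|` (`l : A → ℤ^m` the quotient map) is a seminorm for `φ`, `Λ` = that modulus; if
`B` has an eigenvalue of modulus `< 1` the same holds for `φ⁻¹`. Otherwise `B` and `B⁻¹` have spectral radius `≤ 1`, so `‖B^i‖ ≤ C ρ^|i|` for every `ρ > 1`; for `y ∈ T^n` with path `x`,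
`al y = ∏ φ^(lev (x k)) (c_k)`, `c_k` in a finite set, `|lev (x k)| ≤ k R`, so `‖l (al y)‖ ≤ C' n ρ^(nR)`, and `|T^n| ≤ |P| (2nR+1) |tors| (2 C' n ρ^(nR) + 1)^m`,
which contradicts `c^n ≤ |T^n|` if `ρ^(Rm) < c`.
-/

open Pointwise

namespace Pool.Agent.AC73

namespace E1H


/-- polynomial growth of matrix coefficients when all eigenvalues have modulus at most one -/
theorem coeff_poly {V : Type*} [AddCommGroup V] [Module ℂ V] [FiniteDimensional ℂ V]
    (T : Module.End ℂ V) (hT : ∀ μ : ℂ, T.HasEigenvalue μ → ‖μ‖ ≤ 1) (v : V) :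
    ∀ f : V →ₗ[ℂ] ℂ, ∃ C d : ℕ, ∀ k : ℕ, ‖f ((T ^ k) v)‖ ≤ C * ((k : ℝ) + 1) ^ d := by
  have hv : v ∈ ⨆ μ, T.maxGenEigenspace μ := by
    rw [Module.End.iSup_maxGenEigenspace_eq_top]; trivial
  refine Submodule.iSup_induction (motive := fun v => ∀ f : V →ₗ[ℂ] ℂ, ∃ C d : ℕ, ∀ k : ℕ,
    ‖f ((T ^ k) v)‖ ≤ C * ((k : ℝ) + 1) ^ d) _ hv ?_ ?_ ?_
  · intro μ x hx f
    rw [Module.End.mem_maxGenEigenspace] at hx
    by_cases hx0 : x = 0
    · subst hx0
      exact ⟨0, 0, fun k => by simp⟩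
    have hμ : ‖μ‖ ≤ 1 := by
      refine hT μ ?_
      obtain ⟨j, hj⟩ := hx
      -- least power killing x
      classical
      let P : ℕ → Prop := fun j => ((T - μ • 1) ^ j) x = 0
      have hP : ∃ j, P j := ⟨j, hj⟩
      have h1 := Nat.find_spec hP
      have h2 : Nat.find hP ≠ 0 := by
        intro h0
        rw [h0] at h1
        exact hx0 h1
      obtain ⟨i, hi⟩ := Nat.exists_eq_succ_of_ne_zero h2
      have h3 : ¬ P i := Nat.find_min hP (by omega)
      rw [hi] at h1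
      refine Module.End.hasEigenvalue_of_hasEigenvector (x := ((T - μ • 1) ^ i) x) ?_
      rw [Module.End.hasEigenvector_iff]
      refine ⟨?_, h3⟩
      rw [Module.End.mem_eigenspace_iff]
      have h4 : ((T - μ • 1) ^ (i + 1)) x = (T - μ • 1) (((T - μ • 1) ^ i) x) := by
        rw [pow_succ']; rfl
      have h5 : (T - μ • 1) (((T - μ • 1) ^ i) x) = 0 := h4 ▸ h1
      simpa [sub_eq_zero] using h5
    obtain ⟨j0, hj0⟩ := hx
    set N : Module.End ℂ V := T - μ • 1 with hN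
    have hker : ∀ j, j0 ≤ j → (N ^ j) x = 0 := by
      intro j hj
      obtain ⟨i, rfl⟩ := Nat.exists_eq_add_of_le hj
      rw [add_comm, pow_add]
      show (N ^ i) ((N ^ j0) x) = 0
      rw [hj0, map_zero]
    have hTN : T = N + μ • 1 := by rw [hN]; simp
    have hcomm : Commute N (μ • (1 : Module.End ℂ V)) := by
      refine Commute.smul_right ?_ μ
      exact Commute.one_right N
    have hpow : ∀ k : ℕ, f ((T ^ k) x) =
        ∑ m ∈ Finset.range (k + 1), (μ ^ (k - m) * (k.choose m : ℂ)) * f ((N ^ m) x) := by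
      intro k
      rw [hTN, hcomm.add_pow]
      rw [LinearMap.sum_apply, map_sum]
      refine Finset.sum_congr rfl fun m _ => ?_
      have h6 : (N ^ m * (μ • (1 : Module.End ℂ V)) ^ (k - m) * ((k.choose m : ℕ) : Module.End ℂ V)) x
          = (μ ^ (k - m) * (k.choose m : ℂ)) • (N ^ m) x := by
        rw [smul_pow, one_pow]
        have h7 : ((k.choose m : ℕ) : Module.End ℂ V) x = (k.choose m : ℂ) • x := by
          rw [Module.End.natCast_apply]
          exact (Nat.cast_smul_eq_nsmul ℂ _ _).symm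
        rw [Module.End.mul_apply, h7, Module.End.mul_apply]
        simp only [LinearMap.smul_apply, Module.End.one_apply, map_smul]
        rw [smul_smul, mul_comm]
      rw [h6, map_smul, smul_eq_mul]
    refine ⟨⌈∑ m ∈ Finset.range j0, ‖f ((N ^ m) x)‖⌉₊, j0, fun k => ?_⟩
    rw [hpow]
    have hb : ∀ m ∈ Finset.range (k + 1), ‖(μ ^ (k - m) * (k.choose m : ℂ)) * f ((N ^ m) x)‖ ≤
        (if m < j0 then ((k : ℝ) + 1) ^ j0 * ‖f ((N ^ m) x)‖ else 0) := by
      intro m _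
      split_ifs with hm
      · rw [norm_mul, norm_mul, norm_pow]
        refine mul_le_mul_of_nonneg_right ?_ (norm_nonneg _)
        have h8 : ‖μ‖ ^ (k - m) ≤ 1 := pow_le_one₀ (norm_nonneg _) hμ
        have h9 : ‖(k.choose m : ℂ)‖ ≤ ((k : ℝ) + 1) ^ j0 := by
          rw [Complex.norm_natCast]
          calc ((k.choose m : ℕ) : ℝ) ≤ ((k ^ m : ℕ) : ℝ) := by exact_mod_cast Nat.choose_le_pow k m
            _ = (k : ℝ) ^ m := by push_cast; rfl
            _ ≤ ((k : ℝ) + 1) ^ m := by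
                refine pow_le_pow_left₀ (by positivity) (by linarith) m
            _ ≤ ((k : ℝ) + 1) ^ j0 := by
                refine pow_le_pow_right₀ (by linarith [Nat.cast_nonneg (α := ℝ) k]) hm.le
        calc ‖μ‖ ^ (k - m) * ‖(k.choose m : ℂ)‖ ≤ 1 * ((k : ℝ) + 1) ^ j0 :=
              mul_le_mul h8 h9 (norm_nonneg _) zero_le_one
          _ = _ := one_mul _
      · rw [hker m (not_lt.mp hm), map_zero, mul_zero, norm_zero]
    calc ‖∑ m ∈ Finset.range (k + 1), (μ ^ (k - m) * (k.choose m : ℂ)) * f ((N ^ m) x)‖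
        ≤ ∑ m ∈ Finset.range (k + 1), ‖(μ ^ (k - m) * (k.choose m : ℂ)) * f ((N ^ m) x)‖ :=
          norm_sum_le _ _
      _ ≤ ∑ m ∈ Finset.range (k + 1), (if m < j0 then ((k : ℝ) + 1) ^ j0 * ‖f ((N ^ m) x)‖ else 0) :=
          Finset.sum_le_sum hb
      _ = ∑ m ∈ (Finset.range (k + 1)).filter (fun m => m < j0), ((k : ℝ) + 1) ^ j0 * ‖f ((N ^ m) x)‖ := by
          rw [Finset.sum_filter]
      _ ≤ ∑ m ∈ Finset.range j0, ((k : ℝ) + 1) ^ j0 * ‖f ((N ^ m) x)‖ := by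
          refine Finset.sum_le_sum_of_subset_of_nonneg ?_ (fun _ _ _ => by positivity)
          intro m hm
          rw [Finset.mem_filter] at hm
          exact Finset.mem_range.mpr hm.2
      _ = (∑ m ∈ Finset.range j0, ‖f ((N ^ m) x)‖) * ((k : ℝ) + 1) ^ j0 := by
          rw [Finset.sum_mul]
          exact Finset.sum_congr rfl fun _ _ => mul_comm _ _
      _ ≤ _ := by
          refine mul_le_mul_of_nonneg_right (Nat.le_ceil _) (by positivity)
  · intro f
    exact ⟨0, 0, fun k => by simp⟩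
  · intro x y hx hy f
    obtain ⟨C1, d1, h1⟩ := hx f
    obtain ⟨C2, d2, h2⟩ := hy f
    refine ⟨C1 + C2, d1 + d2, fun k => ?_⟩
    have hk : (1 : ℝ) ≤ (k : ℝ) + 1 := by linarith [Nat.cast_nonneg (α := ℝ) k]
    rw [map_add, map_add]
    calc ‖f ((T ^ k) x) + f ((T ^ k) y)‖ ≤ ‖f ((T ^ k) x)‖ + ‖f ((T ^ k) y)‖ := norm_add_le _ _
      _ ≤ C1 * ((k : ℝ) + 1) ^ d1 + C2 * ((k : ℝ) + 1) ^ d2 := add_le_add (h1 k) (h2 k)
      _ ≤ C1 * ((k : ℝ) + 1) ^ (d1 + d2) + C2 * ((k : ℝ) + 1) ^ (d1 + d2) := by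
          refine add_le_add ?_ ?_
          · exact mul_le_mul_of_nonneg_left (pow_le_pow_right₀ hk (by omega)) (by positivity)
          · exact mul_le_mul_of_nonneg_left (pow_le_pow_right₀ hk (by omega)) (by positivity)
      _ = _ := by push_cast; ring



/-- precomposition with an additive endomorphism, on complex characters -/
noncomputable def pre {A : Type*} [AddCommGroup A] (φ : A →+ A) : Module.End ℂ (A →+ ℂ) where
  toFun w := w.comp φ
  map_add' _ _ := rfl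
  map_smul' _ _ := rfl

theorem pre_pow {A : Type*} [AddCommGroup A] (φ : A →+ A) (k : ℕ) (w : A →+ ℂ) (a : A) :
    ((pre φ ^ k) w) a = w ((φ : A → A)^[k] a) := by
  induction k generalizing w a with
  | zero => rfl
  | succ k ih =>
    rw [pow_succ, Module.End.mul_apply, ih]
    show w (φ (φ^[k] a)) = w (φ^[k + 1] a)
    rw [Function.iterate_succ_apply']

theorem finDim {A : Type*} [AddCommGroup A] [AddGroup.FG A] : FiniteDimensional ℂ (A →+ ℂ) := by
  obtain ⟨S, hS⟩ := (AddGroup.fg_def (H := A)).mp inferInstance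
  let e : (A →+ ℂ) →ₗ[ℂ] (S → ℂ) :=
    { toFun := fun w s => w s.1
      map_add' := fun _ _ => rfl
      map_smul' := fun _ _ => rfl }
  refine FiniteDimensional.of_injective e ?_
  intro w w' h
  refine AddMonoidHom.eq_of_eqOn_dense hS ?_
  intro s hs
  exact congrFun h ⟨s, hs⟩

/-- a finitely generated abelian group is a lattice up to a finite kernel -/
theorem exists_coord (A : Type*) [AddCommGroup A] [AddGroup.FG A] :
    ∃ (m : ℕ) (l : A →+ (Fin m → ℤ)), (l.ker : Set A).Finite := by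
  classical
  obtain ⟨m, ι, hι, p, hp, e, ⟨E⟩⟩ := AddCommGroup.equiv_free_prod_directSum_zmod A
  have : Fintype ι := hι
  have : ∀ i, NeZero (p i ^ e i) := fun i => ⟨pow_ne_zero _ (hp i).ne_zero⟩
  have : Finite (∀ i, ZMod (p i ^ e i)) := inferInstance
  have : Finite (DirectSum ι fun i => ZMod (p i ^ e i)) :=
    Finite.of_equiv _ (DirectSum.addEquivProd (fun i => ZMod (p i ^ e i))).symm.toEquiv
  refine ⟨m, { toFun := fun a i => (E a).1 i
               map_zero' := by funext i; simp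
               map_add' := fun a b => by funext i; simp }, ?_⟩
  have h1 : (Set.univ : Set (DirectSum ι fun i => ZMod (p i ^ e i))).Finite := Set.toFinite _
  refine ((h1.image (fun d => E.symm (0, d)))).subset ?_
  intro a ha
  refine ⟨(E a).2, trivial, ?_⟩
  have h2 : (E a).1 = 0 := by
    ext i
    exact congrFun ha i
  show E.symm (0, (E a).2) = a
  rw [← h2]
  exact E.symm_apply_apply a

/-- integer powers of an additive automorphism -/
def pw {A : Type*} [AddCommGroup A] (φ : A ≃+ A) (k : ℤ) (a : A) : A :=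
  ((φ.toEquiv : Equiv.Perm A) ^ k : Equiv.Perm A) a

/-- sums of at most `n` terms `φ ^ k c` with `|k| ≤ n` and `c ∈ F` -/
def sums {A : Type*} [AddCommGroup A] (φ : A ≃+ A) (F : Finset A) (n : ℕ) : Set A :=
  {x | ∃ L : List (ℤ × A), L.length ≤ n ∧ (∀ p ∈ L, |p.1| ≤ n ∧ p.2 ∈ F) ∧
    x = (L.map fun p => pw φ p.1 p.2).sum}

theorem iter_eq {A : Type*} [AddCommGroup A] (φ : A ≃+ A) (k : ℕ) (a : A) :
    ((φ : A →+ A) : A → A)^[k] a = pw φ (k : ℤ) a := by
  rw [pw, zpow_natCast]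
  induction k with
  | zero => rfl
  | succ k ih =>
    rw [Function.iterate_succ_apply', ih, pow_succ']
    rfl

theorem iter_inv_eq {A : Type*} [AddCommGroup A] (φ : A ≃+ A) (k : ℕ) (a : A) :
    ((φ.symm : A →+ A) : A → A)^[k] a = pw φ (-(k : ℤ)) a := by
  rw [iter_eq, pw, pw, zpow_neg, ← inv_zpow]
  rfl

theorem char_bound {A : Type*} [AddCommGroup A] [AddGroup.FG A] (φ : A ≃+ A)
    (h1 : ∀ μ : ℂ, (pre (φ : A →+ A)).HasEigenvalue μ → ‖μ‖ ≤ 1)
    (h2 : ∀ μ : ℂ, (pre (φ.symm : A →+ A)).HasEigenvalue μ → ‖μ‖ ≤ 1)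
    (w : A →+ ℂ) (c : A) :
    ∃ C d : ℕ, ∀ k : ℤ, ‖w (pw φ k c)‖ ≤ C * ((|k| : ℤ) + 1 : ℝ) ^ d := by
  have := finDim (A := A)
  let f : (A →+ ℂ) →ₗ[ℂ] ℂ :=
    { toFun := fun w => w c
      map_add' := fun _ _ => rfl
      map_smul' := fun _ _ => rfl }
  obtain ⟨C1, d1, hC1⟩ := coeff_poly _ h1 w f
  obtain ⟨C2, d2, hC2⟩ := coeff_poly _ h2 w f
  have e1 : ∀ k : ℕ, ‖w (pw φ (k : ℤ) c)‖ ≤ C1 * ((k : ℝ) + 1) ^ d1 := by
    intro k
    have h := hC1 k
    have h3 : f ((pre (φ : A →+ A) ^ k) w) = w (pw φ (k : ℤ) c) := by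
      show ((pre (φ : A →+ A) ^ k) w) c = _
      rw [pre_pow, iter_eq]
    rwa [h3] at h
  have e2 : ∀ k : ℕ, ‖w (pw φ (-(k : ℤ)) c)‖ ≤ C2 * ((k : ℝ) + 1) ^ d2 := by
    intro k
    have h := hC2 k
    have h3 : f ((pre (φ.symm : A →+ A) ^ k) w) = w (pw φ (-(k : ℤ)) c) := by
      show ((pre (φ.symm : A →+ A) ^ k) w) c = _
      rw [pre_pow, iter_inv_eq]
    rwa [h3] at h
  refine ⟨C1 + C2, d1 + d2, fun k => ?_⟩
  have key : ∀ n : ℕ, (1 : ℝ) ≤ (n : ℝ) + 1 := fun n => by linarith [Nat.cast_nonneg (α := ℝ) n]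
  rcases Int.natAbs_eq k with hk | hk
  · have h3 := e1 k.natAbs
    rw [← hk] at h3
    have h4 : ((|k| : ℤ) : ℝ) = (k.natAbs : ℝ) := by
      rw [Int.abs_eq_natAbs]; simp
    rw [h4]
    calc ‖w (pw φ k c)‖ ≤ C1 * ((k.natAbs : ℝ) + 1) ^ d1 := h3
      _ ≤ ((C1 + C2 : ℕ) : ℝ) * ((k.natAbs : ℝ) + 1) ^ (d1 + d2) := by
          refine mul_le_mul (by push_cast; linarith [Nat.cast_nonneg (α := ℝ) C2])
            (pow_le_pow_right₀ (key _) (by omega)) (by positivity) (by positivity)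
  · have h3 := e2 k.natAbs
    rw [← hk] at h3
    have h4 : ((|k| : ℤ) : ℝ) = (k.natAbs : ℝ) := by
      rw [Int.abs_eq_natAbs]; simp
    rw [h4]
    calc ‖w (pw φ k c)‖ ≤ C2 * ((k.natAbs : ℝ) + 1) ^ d2 := h3
      _ ≤ ((C1 + C2 : ℕ) : ℝ) * ((k.natAbs : ℝ) + 1) ^ (d1 + d2) := by
          refine mul_le_mul (by push_cast; linarith [Nat.cast_nonneg (α := ℝ) C1])
            (pow_le_pow_right₀ (key _) (by omega)) (by positivity) (by positivity)

/-- a uniform bound over a finite set -/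
theorem char_bound_fin {A : Type*} [AddCommGroup A] [AddGroup.FG A] (φ : A ≃+ A)
    (h1 : ∀ μ : ℂ, (pre (φ : A →+ A)).HasEigenvalue μ → ‖μ‖ ≤ 1)
    (h2 : ∀ μ : ℂ, (pre (φ.symm : A →+ A)).HasEigenvalue μ → ‖μ‖ ≤ 1)
    (w : A →+ ℂ) (F : Finset A) :
    ∃ C d : ℕ, ∀ c ∈ F, ∀ k : ℤ, ‖w (pw φ k c)‖ ≤ C * ((|k| : ℤ) + 1 : ℝ) ^ d := by
  choose C d h using char_bound φ h1 h2 w
  refine ⟨∑ c ∈ F, C c, ∑ c ∈ F, d c, fun c hc k => ?_⟩
  have h3 : (1 : ℝ) ≤ ((|k| : ℤ) : ℝ) + 1 := by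
    have : (0 : ℝ) ≤ ((|k| : ℤ) : ℝ) := by exact_mod_cast abs_nonneg k
    linarith
  refine (h c k).trans (mul_le_mul ?_ (pow_le_pow_right₀ h3 ?_) (by positivity) (by positivity))
  · exact_mod_cast Finset.single_le_sum (f := C) (fun _ _ => Nat.zero_le _) hc
  · exact Finset.single_le_sum (f := d) (fun _ _ => Nat.zero_le _) hc

theorem sum_bound {A : Type*} [AddCommGroup A] (φ : A ≃+ A) (w : A →+ ℂ) (F : Finset A) (C d : ℕ)
    (h : ∀ c ∈ F, ∀ k : ℤ, ‖w (pw φ k c)‖ ≤ C * ((|k| : ℤ) + 1 : ℝ) ^ d) (n : ℕ) (x : A)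
    (hx : x ∈ sums φ F n) : ‖w x‖ ≤ C * ((n : ℝ) + 1) ^ (d + 1) := by
  obtain ⟨L, hL1, hL2, rfl⟩ := hx
  have key : ∀ L : List (ℤ × A), (∀ p ∈ L, |p.1| ≤ n ∧ p.2 ∈ F) →
      ‖w (L.map fun p => pw φ p.1 p.2).sum‖ ≤ L.length * (C * ((n : ℝ) + 1) ^ d) := by
    intro L
    induction L with
    | nil => intro _; simp
    | cons p L ih =>
      intro hp
      rw [List.map_cons, List.sum_cons, map_add, List.length_cons]
      have h1 := ih fun q hq => hp q (List.mem_cons_of_mem _ hq)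
      have h2 := hp p List.mem_cons_self
      have h3 := h p.2 h2.2 p.1
      have h5 : ((|p.1| : ℤ) : ℝ) ≤ n := by exact_mod_cast h2.1
      have h6 : (0 : ℝ) ≤ ((|p.1| : ℤ) : ℝ) := by exact_mod_cast abs_nonneg p.1
      have h4 : (C : ℝ) * ((|p.1| : ℤ) + 1 : ℝ) ^ d ≤ C * ((n : ℝ) + 1) ^ d := by
        refine mul_le_mul_of_nonneg_left ?_ (by positivity)
        exact pow_le_pow_left₀ (by linarith) (by linarith) d
      calc ‖w (pw φ p.1 p.2) + w (L.map fun p => pw φ p.1 p.2).sum‖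
          ≤ ‖w (pw φ p.1 p.2)‖ + ‖w (L.map fun p => pw φ p.1 p.2).sum‖ := norm_add_le _ _
        _ ≤ C * ((n : ℝ) + 1) ^ d + L.length * (C * ((n : ℝ) + 1) ^ d) :=
            add_le_add (h3.trans h4) h1
        _ = _ := by push_cast; ring
  refine (key L hL2).trans ?_
  have h7 : (L.length : ℝ) ≤ n + 1 := by
    have : (L.length : ℝ) ≤ n := by exact_mod_cast hL1
    linarith
  calc (L.length : ℝ) * (C * ((n : ℝ) + 1) ^ d) ≤ (n + 1) * (C * ((n : ℝ) + 1) ^ d) :=
        mul_le_mul_of_nonneg_right h7 (by positivity)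
    _ = _ := by ring

/-- counting points with bounded coordinates -/
theorem card_bound {A : Type*} [AddCommGroup A] {m : ℕ} (l : A →+ (Fin m → ℤ))
    (hl : (l.ker : Set A).Finite) :
    ∃ K : ℕ, ∀ (R : ℕ) (X : Finset A), (∀ x ∈ X, ∀ i, |l x i| ≤ R) → X.card ≤ K * (2 * R + 1) ^ m := by
  classical
  refine ⟨hl.toFinset.card, fun R X hX => ?_⟩
  have h1 : ∀ x ∈ X, l x ∈ Fintype.piFinset (fun _ : Fin m => Finset.Icc (-(R : ℤ)) R) := by
    intro x hx
    rw [Fintype.mem_piFinset]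
    intro i
    rw [Finset.mem_Icc]
    exact abs_le.mp (hX x hx i)
  have h2 : X.card ≤ hl.toFinset.card * (Fintype.piFinset (fun _ : Fin m => Finset.Icc (-(R : ℤ)) R)).card := by
    refine Finset.card_le_mul_card_image_of_maps_to h1 _ ?_
    intro y _
    by_cases hne : (X.filter fun x => l x = y).Nonempty
    · obtain ⟨x0, hx0⟩ := hne
      have hx0' := (Finset.mem_filter.mp hx0).2
      refine Finset.card_le_card_of_injOn (fun x => x - x0) ?_ ?_
      · intro x hx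
        have hx' := (Finset.mem_filter.mp hx).2
        simp only [Set.Finite.coe_toFinset, SetLike.mem_coe, AddMonoidHom.mem_ker]
        rw [map_sub, hx', hx0', sub_self]
      · intro x _ x' _ h
        exact sub_left_injective h
    · rw [Finset.not_nonempty_iff_eq_empty] at hne
      rw [hne]; simp
  refine h2.trans (Nat.mul_le_mul_left _ ?_)
  rw [Fintype.card_piFinset]
  simp only [Int.card_Icc, Finset.prod_const, Finset.card_univ, Fintype.card_fin]
  refine Nat.pow_le_pow_left ?_ m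
  omega

/-- either `φ` or its inverse expands some complex character, or the sums grow polynomially -/
theorem expand_or_poly {A : Type*} [AddCommGroup A] [AddGroup.FG A] (φ : A ≃+ A) :
    (∃ (w : A →+ ℂ) (μ : ℂ), w ≠ 0 ∧ 1 < ‖μ‖ ∧ ∀ a, w (φ a) = μ * w a) ∨
    (∃ (w : A →+ ℂ) (μ : ℂ), w ≠ 0 ∧ 1 < ‖μ‖ ∧ ∀ a, w (φ.symm a) = μ * w a) ∨
    ∀ F : Finset A, ∃ C d : ℕ, ∀ (n : ℕ) (X : Finset A), (X : Set A) ⊆ sums φ F n →
      X.card ≤ C * (n + 1) ^ d := by
  classical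
  by_cases h1 : ∀ μ : ℂ, (pre (φ : A →+ A)).HasEigenvalue μ → ‖μ‖ ≤ 1
  swap
  · left
    push Not at h1
    obtain ⟨μ, hμ, hμ1⟩ := h1
    obtain ⟨w, hw⟩ := hμ.exists_hasEigenvector
    refine ⟨w, μ, hw.2, hμ1, fun a => ?_⟩
    exact DFunLike.congr_fun hw.apply_eq_smul a
  by_cases h2 : ∀ μ : ℂ, (pre (φ.symm : A →+ A)).HasEigenvalue μ → ‖μ‖ ≤ 1
  swap
  · right; left
    push Not at h2
    obtain ⟨μ, hμ, hμ1⟩ := h2
    obtain ⟨w, hw⟩ := hμ.exists_hasEigenvector
    refine ⟨w, μ, hw.2, hμ1, fun a => ?_⟩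
    exact DFunLike.congr_fun hw.apply_eq_smul a
  right; right
  intro F
  obtain ⟨m, l, hl⟩ := exists_coord A
  obtain ⟨K, hK⟩ := card_bound l hl
  -- the coordinates as complex characters
  let w : Fin m → (A →+ ℂ) := fun i =>
    (Int.castAddHom ℂ).comp ((Pi.evalAddMonoidHom (fun _ : Fin m => ℤ) i).comp l)
  have hw : ∀ i a, ‖w i a‖ = ((|l a i| : ℤ) : ℝ) := by
    intro i a
    show ‖((l a i : ℤ) : ℂ)‖ = _
    rw [Complex.norm_intCast]
    push_cast
    rfl
  choose C d hCd using fun i => char_bound_fin φ h1 h2 (w i) F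
  refine ⟨K * (2 * (∑ i, C i) + 1) ^ m, (∑ i, d i + 1) * m, fun n X hX => ?_⟩
  have h3 : ∀ x ∈ X, ∀ i, |l x i| ≤ (((∑ i, C i) * (n + 1) ^ (∑ i, d i + 1) : ℕ) : ℤ) := by
    intro x hx i
    have h4 := sum_bound φ (w i) F (C i) (d i) (hCd i) n x (hX hx)
    rw [hw] at h4
    have h5 : (C i : ℝ) * ((n : ℝ) + 1) ^ (d i + 1) ≤
        (((∑ i, C i) * (n + 1) ^ (∑ i, d i + 1) : ℕ) : ℝ) := by
      push_cast
      refine mul_le_mul ?_ (pow_le_pow_right₀ (by linarith [Nat.cast_nonneg (α := ℝ) n]) ?_)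
        (by positivity) (by positivity)
      · exact Finset.single_le_sum (f := fun i => (C i : ℝ)) (fun _ _ => Nat.cast_nonneg _)
          (Finset.mem_univ i)
      · exact Nat.add_le_add_right (Finset.single_le_sum (f := d) (fun _ _ => Nat.zero_le _)
          (Finset.mem_univ i)) 1
    exact_mod_cast h4.trans h5
  refine (hK _ X h3).trans ?_
  have h6 : 2 * ((∑ i, C i) * (n + 1) ^ (∑ i, d i + 1)) + 1 ≤
      (2 * (∑ i, C i) + 1) * (n + 1) ^ (∑ i, d i + 1) := by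
    have h7 : 1 ≤ (n + 1) ^ (∑ i, d i + 1) := Nat.one_le_pow _ _ (Nat.succ_pos n)
    nlinarith
  calc K * (2 * ((∑ i, C i) * (n + 1) ^ (∑ i, d i + 1)) + 1) ^ m
      ≤ K * ((2 * (∑ i, C i) + 1) * (n + 1) ^ (∑ i, d i + 1)) ^ m :=
        Nat.mul_le_mul_left _ (Nat.pow_le_pow_left h6 m)
    _ = K * (2 * (∑ i, C i) + 1) ^ m * (n + 1) ^ ((∑ i, d i + 1) * m) := by
        rw [mul_pow, ← pow_mul, mul_assoc]

theorem pw_succ {A : Type*} [AddCommGroup A] (φ : A ≃+ A) (k : ℤ) (a : A) :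
    pw φ (k + 1) a = φ (pw φ k a) := by
  rw [pw, pw, add_comm, zpow_add, zpow_one]
  rfl

/-- polynomial growth contradicts exponential growth -/
theorem not_poly (C d : ℕ) (r : ℝ) (hr : 1 < r) : ∃ n : ℕ, (C : ℝ) * ((n : ℝ) + 1) ^ d < r ^ n := by
  have h1 : Filter.Tendsto (fun n : ℕ => ((n : ℝ) ^ d) / r ^ n) Filter.atTop (nhds 0) :=
    tendsto_pow_const_div_const_pow_of_one_lt d hr
  have hpos : (0 : ℝ) < 1 / ((C + 1) * r) := by positivity
  have h2 := (h1.eventually (gt_mem_nhds hpos)).and (Filter.eventually_gt_atTop 0)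
  obtain ⟨n, hn, hn0⟩ := h2.exists
  refine ⟨n - 1, ?_⟩
  have h3 : ((n - 1 : ℕ) : ℝ) + 1 = n := by
    have : n - 1 + 1 = n := Nat.sub_add_cancel hn0
    exact_mod_cast this
  rw [h3]
  have h4 : r ^ n = r ^ (n - 1) * r := by
    rw [← pow_succ, Nat.sub_add_cancel hn0]
  have h5 : (0 : ℝ) < r ^ n := by positivity
  rw [div_lt_div_iff₀ h5 (by positivity)] at hn
  have h6 : (0 : ℝ) < r ^ (n - 1) := by positivity
  have h7 : (n : ℝ) ^ d * ((C + 1) * r) < r ^ (n - 1) * r := by rw [← h4]; linarith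
  have h8 : (n : ℝ) ^ d * (C + 1) < r ^ (n - 1) := by
    have hr0 : 0 < r := by linarith
    have : ((n : ℝ) ^ d * (C + 1)) * r < r ^ (n - 1) * r := by linarith
    exact lt_of_mul_lt_mul_right this hr0.le
  have h9 : (0 : ℝ) ≤ (n : ℝ) ^ d := by positivity
  nlinarith


end E1H

open E1H

theorem ofMul_zpow {K : Type} [CommGroup K] (φ : MulAut K) (i : ℤ) (k : K) :
    Additive.ofMul ((φ ^ i) k) = pw (MulEquiv.toAdditive φ) i (Additive.ofMul k) := by
  have hs : ∀ (i : ℤ) (k : K), (φ ^ (i + 1)) k = φ ((φ ^ i) k) := by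
    intro i k
    rw [add_comm, zpow_add, zpow_one, MulAut.mul_apply]
  induction i using Int.induction_on with
  | zero => simp [pw]
  | succ i ih =>
    rw [hs, pw_succ, ← ih]
    rfl
  | pred i ih =>
    have h1 := hs (-(i : ℤ) - 1) k
    have h2 := pw_succ (MulEquiv.toAdditive φ) (-(i : ℤ) - 1) (Additive.ofMul k)
    rw [sub_add_cancel] at h1 h2
    rw [h1, h2] at ih
    exact (MulEquiv.toAdditive φ).injective ih

/-- a character with `w ∘ φ = μ w`, `|μ| > 1`, gives a seminorm -/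
theorem nu_of_char {K : Type} [CommGroup K] (φ : MulAut K) (w : Additive K →+ ℂ) (μ : ℂ)
    (hw : w ≠ 0) (hμ : 1 < ‖μ‖) (h : ∀ k : K, w (Additive.ofMul (φ k)) = μ * w (Additive.ofMul k)) :
    Nonempty (Nu φ) := by
  have h0 : ∃ a : Additive K, w a ≠ 0 := by
    by_contra hcon
    push Not at hcon
    exact hw (AddMonoidHom.ext fun a => hcon a)
  obtain ⟨a, ha⟩ := h0
  exact ⟨{ ν := fun k => ‖w (Additive.ofMul k)‖
           Λ := ‖μ‖
           hΛ := hμ
           nonneg := fun k => norm_nonneg _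
           inv := fun k => by rw [ofMul_inv, map_neg, norm_neg]
           mul := fun k l => by rw [ofMul_mul, map_add]; exact norm_add_le _ _
           scale := fun k => by rw [h, norm_mul]
           k₀ := a.toMul
           pos := norm_pos_iff.mpr ha }⟩

theorem al_sums {G K : Type} [Group G] [CommGroup K] [DecidableEq G] [DecidableEq K] (D : Dec G K)
    (T : Finset G) : ∃ (F : Finset (Additive K)) (J : ℕ), ∀ (n : ℕ), ∀ y ∈ T ^ n,
      (∃ L : List (ℤ × Additive K), L.length = n ∧ (∀ p ∈ L, |p.1| ≤ J * n ∧ p.2 ∈ F) ∧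
        Additive.ofMul (D.al y) = (L.map fun p => pw (MulEquiv.toAdditive D.φ) p.1 p.2).sum) ∧
      |D.lev y| ≤ J * n := by
  classical
  refine ⟨(D.P ×ˢ T).image (fun y => Additive.ofMul (D.al (y.1 * y.2))),
    (D.P ×ˢ T).sup (fun y => (D.lev (y.1 * y.2)).natAbs), ?_⟩
  set J := (D.P ×ˢ T).sup (fun y => (D.lev (y.1 * y.2)).natAbs) with hJ
  intro n
  induction n with
  | zero =>
    intro y hy
    rw [pow_zero, Finset.mem_one] at hy
    subst hy
    obtain ⟨h1, h2, _⟩ := D.one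
    refine ⟨⟨[], rfl, by simp, ?_⟩, ?_⟩
    · rw [h1]; simp
    · rw [h2]; simp
  | succ n ih =>
    intro y hy
    rw [pow_succ] at hy
    obtain ⟨y', hy', s, hs, rfl⟩ := Finset.mem_mul.mp hy
    obtain ⟨⟨L, hL1, hL2, hL3⟩, hlev⟩ := ih y' hy'
    obtain ⟨h1, h2, _⟩ := D.mul y' s
    have hmem : (D.rep y', s) ∈ D.P ×ˢ T := Finset.mem_product.mpr ⟨D.rep_mem y', hs⟩
    have hj : |D.lev (D.rep y' * s)| ≤ (J : ℤ) := by
      rw [Int.abs_eq_natAbs]
      exact_mod_cast Finset.le_sup (f := fun y : G × G => (D.lev (y.1 * y.2)).natAbs) hmem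
    refine ⟨⟨L ++ [(D.lev y', Additive.ofMul (D.al (D.rep y' * s)))], ?_, ?_, ?_⟩, ?_⟩
    · rw [List.length_append, hL1]; rfl
    · intro p hp
      rw [List.mem_append, List.mem_singleton] at hp
      rcases hp with hp | rfl
      · refine ⟨(hL2 p hp).1.trans ?_, (hL2 p hp).2⟩
        push_cast
        nlinarith
      · refine ⟨?_, Finset.mem_image_of_mem (fun y : G × G => Additive.ofMul (D.al (y.1 * y.2))) hmem⟩
        show |D.lev y'| ≤ _
        refine hlev.trans ?_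
        push_cast
        nlinarith
    · rw [h1, ofMul_mul, hL3, ofMul_zpow, List.map_append, List.sum_append]
      simp
    · rw [h2]
      have h3 := abs_add_le (D.lev y') (D.lev (D.rep y' * s))
      push_cast
      linarith

theorem exists_nu_fg {G K : Type} [Group G] [CommGroup K] [DecidableEq G] (D : Dec G K)
    [Group.FG K] (T : Finset G) (h1 : (1 : G) ∈ T) (hgen : ∀ g : G, ∃ n : ℕ, g ∈ T ^ n)
    (c : ℝ) (hc : 1 < c) (hexp : ∀ n : ℕ, c ^ n ≤ ((T ^ n).card : ℝ)) :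
    Nonempty (Nu D.φ) ∨ Nonempty (Nu D.φ⁻¹) := by
  classical
  rcases expand_or_poly (A := Additive K) (MulEquiv.toAdditive D.φ) with
    ⟨w, μ, hw, hμ, h⟩ | ⟨w, μ, hw, hμ, h⟩ | hpoly
  · exact Or.inl (nu_of_char D.φ w μ hw hμ fun k => h (Additive.ofMul k))
  · exact Or.inr (nu_of_char D.φ⁻¹ w μ hw hμ fun k => h (Additive.ofMul k))
  exfalso
  obtain ⟨F, J, hFJ⟩ := al_sums D T
  obtain ⟨C, d, hCd⟩ := hpoly F
  have hbound : ∀ n : ℕ, (T ^ n).card ≤ C * (J + 1) ^ d * ((2 * J + 1) * D.P.card) * (n + 1) ^ (d + 1) := by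
    intro n
    have h2 : (T ^ n).card ≤ (((T ^ n).image fun y => Additive.ofMul (D.al y)) ×ˢ
        ((Finset.Icc (-((J : ℤ) * n)) ((J : ℤ) * n)) ×ˢ D.P)).card := by
      refine Finset.card_le_card_of_injOn (fun y => (Additive.ofMul (D.al y), (D.lev y, D.rep y))) ?_ ?_
      · intro y hy
        have hy' : y ∈ T ^ n := hy
        simp only [Finset.coe_product, Set.mem_prod, Finset.mem_coe]
        exact ⟨Finset.mem_image_of_mem _ hy', Finset.mem_Icc.mpr (abs_le.mp (hFJ n y hy').2), D.rep_mem y⟩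
      · intro y _ y' _ he
        simp only [Prod.mk.injEq] at he
        rw [D.dec y, D.dec y', Additive.ofMul.injective he.1, he.2.1, he.2.2]
    rw [Finset.card_product, Finset.card_product] at h2
    have h3 : ((T ^ n).image fun y => Additive.ofMul (D.al y)).card ≤ C * ((J + 1) * n + 1) ^ d := by
      refine hCd _ _ ?_
      intro a ha
      obtain ⟨y, hy, rfl⟩ := Finset.mem_image.mp (Finset.mem_coe.mp ha)
      obtain ⟨⟨L, hL1, hL2, hL3⟩, _⟩ := hFJ n y hy
      refine ⟨L, ?_, fun p hp => ⟨(hL2 p hp).1.trans ?_, (hL2 p hp).2⟩, hL3⟩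
      · rw [hL1]; exact Nat.le_mul_of_pos_left n (Nat.succ_pos J)
      · push_cast; nlinarith
    have h4 : (Finset.Icc (-((J : ℤ) * n)) ((J : ℤ) * n)).card ≤ (2 * J + 1) * (n + 1) := by
      rw [Int.card_Icc]
      have h5 : ((J : ℤ) * n + 1 - -((J : ℤ) * n)).toNat = 2 * (J * n) + 1 := by
        have : (J : ℤ) * n + 1 - -((J : ℤ) * n) = ((2 * (J * n) + 1 : ℕ) : ℤ) := by push_cast; ring
        rw [this, Int.toNat_natCast]
      rw [h5]
      nlinarith
    have h6 : C * ((J + 1) * n + 1) ^ d ≤ C * (J + 1) ^ d * (n + 1) ^ d := by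
      rw [mul_assoc, ← mul_pow]
      refine Nat.mul_le_mul_left _ (Nat.pow_le_pow_left ?_ d)
      nlinarith
    calc (T ^ n).card ≤ _ := h2
      _ ≤ (C * (J + 1) ^ d * (n + 1) ^ d) * (((2 * J + 1) * (n + 1)) * D.P.card) :=
          Nat.mul_le_mul (h3.trans h6) (Nat.mul_le_mul_right _ h4)
      _ = C * (J + 1) ^ d * ((2 * J + 1) * D.P.card) * (n + 1) ^ (d + 1) := by ring
  obtain ⟨n, hn⟩ := not_poly (C * (J + 1) ^ d * ((2 * J + 1) * D.P.card)) (d + 1) c hc
  have h7 := hexp n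
  have h8 : ((T ^ n).card : ℝ) ≤
      ((C * (J + 1) ^ d * ((2 * J + 1) * D.P.card) : ℕ) : ℝ) * ((n : ℝ) + 1) ^ (d + 1) := by
    exact_mod_cast hbound n
  linarith

end Pool.Agent.AC73
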