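import Pool.Agent.AC73.Base

/-!
Row E2 (80-110 lines). PROOF. `E` = the finite set of the `al (p * s)`, `p ∈ P`, `s ∈ T`. `A n` = the subgroup of `K` generated by the `(φ^j) c`, `c ∈ E`, `j ≤ n` (`n : ℤ`);
`φ (A n) = A (n+1)`, `A n ≤ A (n+1)`, and `⋃ A n = K`: by `D.mul` and induction every `al y`, `y ∈ T^m`, lies in some `A n`, and every `k` is `al (ι k)` (`D.left`, `D.one`).
Let `B n` be the same with `-n ≤ j`. If `A 0 = K` and `B 0 = K` then `K` is f.g.: `φ c` for `c ∈ E` lies in `A 0`, so in the subgroup generated by the `(φ^j) c`, `c ∈ E`, `-N ≤ j ≤ 0`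
for some `N`; this f.g. subgroup `H` satisfies `φ H ≤ H`, so it contains `B 0 = K`. (See `exists_side` in the hand-in MP_b59cbc_al.CyclicQuotient.)
If `A 0 ≠ K`: then `A n ≠ K` for all `n`, all inclusions `A n < A (n+1)` are strict. `ν k = 0` if `k ∈ A n` for all `n`, else `2^n` with `n` minimal such that `k ∈ A n`
(exists: `k ∈ A m` for some `m`, and bounded below). `ν (φ k) = 2 ν k`, `ν (k l) ≤ max (ν k) (ν l)`; nonzero as `A 0 ≠ K`. If `B 0 ≠ K`: the same for `φ⁻¹`.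
-/

open Pointwise

namespace Pool.Agent.AC73

section e2

variable {K : Type} [CommGroup K] (φ : MulAut K) (E : Finset K)

/-- generated by the `(φ^j) c`, `j ≤ n` -/
def e2A (n : ℤ) : Subgroup K :=
  Subgroup.closure {x | ∃ c ∈ E, ∃ j : ℤ, j ≤ n ∧ x = (φ ^ j) c}

/-- generated by the `(φ^j) c`, `-N ≤ j ≤ 0` -/
def e2H (N : ℕ) : Subgroup K :=
  Subgroup.closure {x | ∃ c ∈ E, ∃ j : ℤ, -(N : ℤ) ≤ j ∧ j ≤ 0 ∧ x = (φ ^ j) c}

/-- all the `(φ^j) c` generate -/
def e2Full : Prop := ∀ k : K, k ∈ Subgroup.closure {x | ∃ c ∈ E, ∃ j : ℤ, x = (φ ^ j) c}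

variable {φ E}

lemma e2A_mono {m n : ℤ} (h : m ≤ n) : e2A φ E m ≤ e2A φ E n := by
  refine Subgroup.closure_mono ?_
  rintro x ⟨c, hc, j, hj, rfl⟩
  exact ⟨c, hc, j, hj.trans h, rfl⟩

lemma e2A_shift {n : ℤ} (i : ℤ) {k : K} (hk : k ∈ e2A φ E n) : (φ ^ i) k ∈ e2A φ E (n + i) := by
  induction hk using Subgroup.closure_induction with
  | mem x hx =>
    obtain ⟨c, hc, j, hj, rfl⟩ := hx
    refine Subgroup.subset_closure ⟨c, hc, i + j, by omega, ?_⟩
    rw [zpow_add, MulAut.mul_apply]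
  | one => rw [map_one]; exact one_mem _
  | mul x y _ _ hx hy => rw [map_mul]; exact mul_mem hx hy
  | inv x _ hx => rw [map_inv]; exact inv_mem hx

lemma e2A_iff {n : ℤ} {k : K} : φ k ∈ e2A φ E (n + 1) ↔ k ∈ e2A φ E n := by
  constructor
  · intro h
    have h1 := e2A_shift (-1) h
    rw [zpow_neg_one, MulAut.inv_apply_self, add_neg_cancel_right] at h1
    exact h1
  · intro h
    have h1 := e2A_shift 1 h
    rwa [zpow_one] at h1

lemma e2A_exists (hF : e2Full φ E) (k : K) : ∃ n : ℤ, k ∈ e2A φ E n := by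
  have hk := hF k
  induction hk using Subgroup.closure_induction with
  | mem x hx =>
    obtain ⟨c, hc, j, rfl⟩ := hx
    exact ⟨j, Subgroup.subset_closure ⟨c, hc, j, le_rfl, rfl⟩⟩
  | one => exact ⟨0, one_mem _⟩
  | mul x y _ _ hx hy =>
    obtain ⟨m, hm⟩ := hx
    obtain ⟨n, hn⟩ := hy
    exact ⟨max m n, mul_mem (e2A_mono (le_max_left m n) hm) (e2A_mono (le_max_right m n) hn)⟩
  | inv x _ hx =>
    obtain ⟨m, hm⟩ := hx
    exact ⟨m, inv_mem hm⟩

lemma e2Full_inv (hF : e2Full φ E) : e2Full φ⁻¹ E := by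
  intro k
  refine Subgroup.closure_mono ?_ (hF k)
  rintro x ⟨c, hc, j, rfl⟩
  refine ⟨c, hc, -j, ?_⟩
  rw [inv_zpow', neg_neg]

lemma e2H_mono {m n : ℕ} (h : m ≤ n) : e2H φ E m ≤ e2H φ E n := by
  refine Subgroup.closure_mono ?_
  rintro x ⟨c, hc, j, hj, hj', rfl⟩
  exact ⟨c, hc, j, by omega, hj', rfl⟩

lemma e2H_exists {k : K} (hk : k ∈ e2A φ E 0) : ∃ N : ℕ, k ∈ e2H φ E N := by
  induction hk using Subgroup.closure_induction with
  | mem x hx =>
    obtain ⟨c, hc, j, hj, rfl⟩ := hx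
    exact ⟨j.natAbs, Subgroup.subset_closure ⟨c, hc, j, by omega, hj, rfl⟩⟩
  | one => exact ⟨0, one_mem _⟩
  | mul x y _ _ hx hy =>
    obtain ⟨m, hm⟩ := hx
    obtain ⟨n, hn⟩ := hy
    exact ⟨max m n, mul_mem (e2H_mono (le_max_left m n) hm) (e2H_mono (le_max_right m n) hn)⟩
  | inv x _ hx =>
    obtain ⟨m, hm⟩ := hx
    exact ⟨m, inv_mem hm⟩

lemma e2H_common (h : ∀ k : K, k ∈ e2A φ E 0) : ∃ N : ℕ, ∀ c ∈ E, φ c ∈ e2H φ E N := by
  choose f hf using fun c : K => e2H_exists (h (φ c))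
  exact ⟨E.sup f, fun c hc => e2H_mono (Finset.le_sup hc) (hf c)⟩

lemma e2_fg (h1 : ∀ k : K, k ∈ e2A φ E 0) (h2 : ∀ k : K, k ∈ e2A φ⁻¹ E 0) : Group.FG K := by
  classical
  obtain ⟨N, hN⟩ := e2H_common h1
  have hstep : ∀ x ∈ e2H φ E N, φ x ∈ e2H φ E N := by
    intro x hx
    induction hx using Subgroup.closure_induction with
    | mem x hx =>
      obtain ⟨c, hc, j, hj, hj', rfl⟩ := hx
      rcases hj'.lt_or_eq with h5 | h5
      · refine Subgroup.subset_closure ⟨c, hc, 1 + j, by omega, by omega, ?_⟩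
        rw [zpow_add, zpow_one, MulAut.mul_apply]
      · rw [h5, zpow_zero, MulAut.one_apply]
        exact hN c hc
    | one => rw [map_one]; exact one_mem _
    | mul x y _ _ hx hy => rw [map_mul]; exact mul_mem hx hy
    | inv x _ hx => rw [map_inv]; exact inv_mem hx
  have hpow : ∀ (i : ℕ), ∀ x ∈ e2H φ E N, (φ ^ (i : ℤ)) x ∈ e2H φ E N := by
    intro i
    induction i with
    | zero => intro x hx; simpa using hx
    | succ i ih =>
      intro x hx
      have e : ((i + 1 : ℕ) : ℤ) = i + 1 := by push_cast; ring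
      rw [e, zpow_add_one, MulAut.mul_apply]
      exact ih _ (hstep x hx)
  have hbase : ∀ c ∈ E, c ∈ e2H φ E N := by
    intro c hc
    refine Subgroup.subset_closure ⟨c, hc, 0, by omega, le_rfl, ?_⟩
    rw [zpow_zero, MulAut.one_apply]
  have htop : e2H φ E N = ⊤ := by
    rw [eq_top_iff]
    intro k _
    have hk := h2 k
    unfold e2A at hk
    refine (Subgroup.closure_le (e2H φ E N)).2 ?_ hk
    rintro x ⟨c, hc, j, hj, rfl⟩
    have e : (φ⁻¹ ^ j) c = (φ ^ ((-j).toNat : ℤ)) c := by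
      rw [inv_zpow']
      congr 2
      omega
    rw [SetLike.mem_coe, e]
    exact hpow _ c (hbase c hc)
  rw [Group.fg_iff]
  refine ⟨_, htop, ?_⟩
  refine Set.Finite.subset ((E ×ˢ Finset.Icc (-(N : ℤ)) 0).image fun q => (φ ^ q.2) q.1).finite_toSet ?_
  rintro x ⟨c, hc, j, hj, hj', rfl⟩
  rw [Finset.mem_coe, Finset.mem_image]
  exact ⟨(c, j), Finset.mem_product.2 ⟨hc, Finset.mem_Icc.2 ⟨hj, hj'⟩⟩, rfl⟩

open Classical in
/-- the seminorm -/
noncomputable def e2nu (φ : MulAut K) (E : Finset K) (k : K) : ℝ :=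
  if ∀ n : ℤ, k ∈ e2A φ E n then 0 else (2 : ℝ) ^ (sInf {n : ℤ | k ∈ e2A φ E n})

lemma e2_bdd {k : K} (h : ¬ ∀ n : ℤ, k ∈ e2A φ E n) : BddBelow {n : ℤ | k ∈ e2A φ E n} := by
  push Not at h
  obtain ⟨n₀, hn₀⟩ := h
  refine ⟨n₀, fun n hn => ?_⟩
  by_contra hcon
  exact hn₀ (e2A_mono (not_le.1 hcon).le hn)

lemma e2_mem (hF : e2Full φ E) {k : K} (h : ¬ ∀ n : ℤ, k ∈ e2A φ E n) :
    k ∈ e2A φ E (sInf {n : ℤ | k ∈ e2A φ E n}) :=
  Int.csInf_mem (e2A_exists hF k) (e2_bdd h)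

lemma e2_le {k : K} (h : ¬ ∀ n : ℤ, k ∈ e2A φ E n) {n : ℤ} (hn : k ∈ e2A φ E n) :
    sInf {n : ℤ | k ∈ e2A φ E n} ≤ n := csInf_le (e2_bdd h) hn

/-- the seminorm as a structure -/
noncomputable def e2Nu (hF : e2Full φ E) (k₀ : K) (h0 : k₀ ∉ e2A φ E 0) : Nu φ where
  ν := e2nu φ E
  Λ := 2
  hΛ := one_lt_two
  nonneg := by
    intro k
    unfold e2nu
    split_ifs
    · exact le_rfl
    · positivity
  inv := by
    intro k
    unfold e2nu
    have e1 : (∀ n : ℤ, k⁻¹ ∈ e2A φ E n) ↔ ∀ n : ℤ, k ∈ e2A φ E n := by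
      simp only [inv_mem_iff]
    have e2 : {n : ℤ | k⁻¹ ∈ e2A φ E n} = {n : ℤ | k ∈ e2A φ E n} := by
      simp only [inv_mem_iff]
    by_cases h : ∀ n : ℤ, k ∈ e2A φ E n
    · rw [if_pos (e1.2 h), if_pos h]
    · rw [if_neg (fun h' => h (e1.1 h')), if_neg h, e2]
  mul := by
    intro k l
    unfold e2nu
    by_cases hkl : ∀ n : ℤ, k * l ∈ e2A φ E n
    · rw [if_pos hkl]
      refine add_nonneg ?_ ?_
      · split_ifs
        · exact le_rfl
        · positivity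
      · split_ifs
        · exact le_rfl
        · positivity
    · rw [if_neg hkl]
      by_cases hk : ∀ n : ℤ, k ∈ e2A φ E n
      · by_cases hl : ∀ n : ℤ, l ∈ e2A φ E n
        · exact absurd (fun n => mul_mem (hk n) (hl n)) hkl
        · rw [if_pos hk, if_neg hl, zero_add]
          refine zpow_le_zpow_right₀ one_le_two (e2_le hkl ?_)
          exact mul_mem (hk _) (e2_mem hF hl)
      · by_cases hl : ∀ n : ℤ, l ∈ e2A φ E n
        · rw [if_neg hk, if_pos hl, add_zero]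
          refine zpow_le_zpow_right₀ one_le_two (e2_le hkl ?_)
          exact mul_mem (e2_mem hF hk) (hl _)
        · rw [if_neg hk, if_neg hl]
          have h1 := e2_mem hF hk
          have h2 := e2_mem hF hl
          rcases le_total (sInf {n : ℤ | k ∈ e2A φ E n}) (sInf {n : ℤ | l ∈ e2A φ E n}) with h | h
          · have h3 : (2 : ℝ) ^ sInf {n : ℤ | k * l ∈ e2A φ E n} ≤
                (2 : ℝ) ^ sInf {n : ℤ | l ∈ e2A φ E n} :=
              zpow_le_zpow_right₀ one_le_two (e2_le hkl (mul_mem (e2A_mono h h1) h2))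
            have h4 : (0 : ℝ) ≤ (2 : ℝ) ^ sInf {n : ℤ | k ∈ e2A φ E n} := by positivity
            linarith
          · have h3 : (2 : ℝ) ^ sInf {n : ℤ | k * l ∈ e2A φ E n} ≤
                (2 : ℝ) ^ sInf {n : ℤ | k ∈ e2A φ E n} :=
              zpow_le_zpow_right₀ one_le_two (e2_le hkl (mul_mem h1 (e2A_mono h h2)))
            have h4 : (0 : ℝ) ≤ (2 : ℝ) ^ sInf {n : ℤ | l ∈ e2A φ E n} := by positivity
            linarith
  scale := by
    intro k
    unfold e2nu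
    have hiff : (∀ n : ℤ, φ k ∈ e2A φ E n) ↔ ∀ n : ℤ, k ∈ e2A φ E n := by
      constructor
      · intro h n
        exact e2A_iff.1 (h (n + 1))
      · intro h n
        have := e2A_iff.2 (h (n - 1))
        rwa [sub_add_cancel] at this
    by_cases hk : ∀ n : ℤ, k ∈ e2A φ E n
    · rw [if_pos (hiff.2 hk), if_pos hk, mul_zero]
    · have hk' : ¬ ∀ n : ℤ, φ k ∈ e2A φ E n := fun h => hk (hiff.1 h)
      rw [if_neg hk', if_neg hk]
      have h1 : sInf {n : ℤ | φ k ∈ e2A φ E n} = sInf {n : ℤ | k ∈ e2A φ E n} + 1 := by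
        refine le_antisymm ?_ ?_
        · exact e2_le hk' (e2A_iff.2 (e2_mem hF hk))
        · have h2 := e2_mem hF hk'
          have h3 : k ∈ e2A φ E (sInf {n : ℤ | φ k ∈ e2A φ E n} - 1) := by
            rw [← e2A_iff, sub_add_cancel]
            exact h2
          have h4 := e2_le hk h3
          omega
      rw [h1, zpow_add_one₀ two_ne_zero, mul_comm]
  k₀ := k₀
  pos := by
    unfold e2nu
    rw [if_neg (fun h => h0 (h 0))]
    positivity

end e2

theorem exists_nu_not_fg {G K : Type} [Group G] [CommGroup K] [DecidableEq G] (D : Dec G K)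
    (hK : ¬ Group.FG K) (T : Finset G) (h1 : (1 : G) ∈ T) (hgen : ∀ g : G, ∃ n : ℕ, g ∈ T ^ n) :
    Nonempty (Nu D.φ) ∨ Nonempty (Nu D.φ⁻¹) := by
  classical
  set E : Finset K := (D.P ×ˢ T).image (fun q => D.al (q.1 * q.2)) with hE
  have hE' : ∀ p ∈ D.P, ∀ s ∈ T, D.al (p * s) ∈ E := fun p hp s hs =>
    Finset.mem_image.2 ⟨(p, s), Finset.mem_product.2 ⟨hp, hs⟩, rfl⟩
  have hmem : ∀ m : ℕ, ∀ y ∈ T ^ m,
      D.al y ∈ Subgroup.closure {x | ∃ c ∈ E, ∃ j : ℤ, x = (D.φ ^ j) c} := by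
    intro m
    induction m with
    | zero =>
      intro y hy
      rw [pow_zero, Finset.mem_one] at hy
      rw [hy, D.one.1]
      exact one_mem _
    | succ m ih =>
      intro y hy
      rw [pow_succ] at hy
      obtain ⟨x, hx, s, hs, rfl⟩ := Finset.mem_mul.mp hy
      rw [(D.mul x s).1]
      refine mul_mem (ih x hx) (Subgroup.subset_closure ⟨_, hE' _ (D.rep_mem x) s hs, D.lev x, rfl⟩)
  have hF : e2Full D.φ E := by
    intro k
    obtain ⟨m, hm⟩ := hgen (D.ι k)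
    have h2 := hmem m _ hm
    have h3 := (D.left k 1).1
    rw [mul_one, D.one.1, mul_one] at h3
    rwa [h3] at h2
  have hF' := e2Full_inv hF
  by_cases hA : ∀ k : K, k ∈ e2A D.φ E 0
  · by_cases hB : ∀ k : K, k ∈ e2A D.φ⁻¹ E 0
    · exact absurd (e2_fg hA hB) hK
    · push Not at hB
      obtain ⟨k₀, hk₀⟩ := hB
      exact Or.inr ⟨e2Nu hF' k₀ hk₀⟩
  · push Not at hA
    obtain ⟨k₀, hk₀⟩ := hA
    exact Or.inl ⟨e2Nu hF k₀ hk₀⟩

end Pool.Agent.AC73
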