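import Pool.Agent.AC73.C4b
import Pool.Agent.AC73.C5b
import Pool.Agent.AC73.C6
import Pool.Agent.AC73.D1
import Pool.Agent.AC73.E1
import Pool.Agent.AC73.E2

/-!
Assembly.
-/

open Pointwise

namespace Pool.Agent.AC73

lemma mem_pow_common {G : Type*} [Group G] [DecidableEq G] (T : Finset G) (h1 : (1 : G) ∈ T)
    (hgen : ∀ g : G, ∃ n : ℕ, g ∈ T ^ n) (E : Finset G) : ∃ n : ℕ, ∀ g ∈ E, g ∈ T ^ n := by
  induction E using Finset.induction_on with
  | empty => exact ⟨0, by simp⟩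
  | insert a s _ ih =>
    obtain ⟨n, hn⟩ := ih
    obtain ⟨m, hm⟩ := hgen a
    refine ⟨max n m, ?_⟩
    intro x hx
    rcases Finset.mem_insert.mp hx with rfl | h
    · exact Finset.pow_subset_pow_right h1 (le_max_right n m) hm
    · exact Finset.pow_subset_pow_right h1 (le_max_left n m) (hn x h)

lemma exists_omega (Λ : ℝ) (hΛ : 1 < Λ) (R c₀ : ℕ) :
    ∃ ω : ℝ, 1 < ω ∧ ω < Λ ∧ 8 * c₀ * (ω ^ R - 1) ≤ 1 := by
  have hcont : Filter.Tendsto (fun ω : ℝ => 8 * (c₀ : ℝ) * (ω ^ R - 1)) (nhds 1) (nhds 0) := by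
    have h : Continuous fun ω : ℝ => 8 * (c₀ : ℝ) * (ω ^ R - 1) := by fun_prop
    have h2 := h.tendsto 1
    simpa using h2
  have h1 : ∀ᶠ ω : ℝ in nhds 1, 8 * (c₀ : ℝ) * (ω ^ R - 1) < 1 :=
    hcont.eventually (gt_mem_nhds zero_lt_one)
  have h2 : ∀ᶠ ω : ℝ in nhds 1, ω < Λ := gt_mem_nhds hΛ
  have h3 : ∀ᶠ ω : ℝ in nhdsWithin 1 (Set.Ioi 1), 8 * (c₀ : ℝ) * (ω ^ R - 1) < 1 ∧ ω < Λ ∧
      1 < ω := by
    filter_upwards [nhdsWithin_le_nhds h1, nhdsWithin_le_nhds h2, self_mem_nhdsWithin]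
      with ω ha hb hc
    exact ⟨ha, hb, hc⟩
  obtain ⟨ω, ha, hb, hc⟩ := h3.exists
  exact ⟨ω, hc, hb, ha.le⟩

theorem main_dec {G K : Type} [Group G] [CommGroup K] [DecidableEq G] (D : Dec G K)
    (V : Nu D.φ) (T : Finset G) (h1 : (1 : G) ∈ T) (hgen : ∀ g : G, ∃ n : ℕ, g ∈ T ^ n) :
    ∃ L : ℕ, ∀ n : ℕ, 2 * (T ^ n).card ≤ (T ^ (n + L)).card := by
  classical
  obtain ⟨R, hR⟩ : ∃ R : ℕ, ∀ p ∈ D.P, ∀ s ∈ T, |D.lev (p * s)| ≤ R := by
    refine ⟨∑ a ∈ D.P ×ˢ T, (D.lev (a.1 * a.2)).natAbs, fun p hp s hs => ?_⟩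
    have := Finset.single_le_sum (f := fun a : G × G => (D.lev (a.1 * a.2)).natAbs)
      (fun _ _ => Nat.zero_le _) (Finset.mem_product.mpr ⟨hp, hs⟩ : (p, s) ∈ D.P ×ˢ T)
    rw [Int.abs_eq_natAbs]
    exact_mod_cast this
  obtain ⟨c₀, hc₀⟩ := mem_pow_common T h1 hgen
    ((D.P ×ˢ Finset.Icc (-(R : ℤ)) R).image (fun a => a.1⁻¹ * D.t ^ a.2) ∪
      (D.P ×ˢ Finset.Icc (-(R : ℤ)) R).image (fun a => D.t ^ a.2 * a.1))
  have hc₀' : ∀ p ∈ D.P, ∀ d : ℤ, |d| ≤ R →
      p⁻¹ * D.t ^ d ∈ T ^ c₀ ∧ D.t ^ d * p ∈ T ^ c₀ := by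
    intro p hp d hd
    have hmem : (p, d) ∈ D.P ×ˢ Finset.Icc (-(R : ℤ)) R :=
      Finset.mem_product.mpr ⟨hp, Finset.mem_Icc.mpr (abs_le.mp hd)⟩
    exact ⟨hc₀ _ (Finset.mem_union_left _ (Finset.mem_image.mpr ⟨(p, d), hmem, rfl⟩)),
      hc₀ _ (Finset.mem_union_right _ (Finset.mem_image.mpr ⟨(p, d), hmem, rfl⟩))⟩
  obtain ⟨ω, hω, hωΛ, hω2⟩ := exists_omega V.Λ V.hΛ R c₀
  obtain ⟨Cg, hgood⟩ := good_card D V T h1 hgen ω hω hωΛ
  obtain ⟨Cq, N₁, hbad⟩ := bad_card D V T h1 hgen R c₀ hR hc₀' ω hω hωΛ hω2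
  refine induct (fun n => (T ^ n).card)
    (fun a b hab => Finset.card_le_card (Finset.pow_subset_pow_right h1 hab))
    (fun n X => ((T ^ n).filter fun y => ∃ N ≤ X, Prof D T ω n N y).card)
    (fun n N => ((T ^ n).filter (Prof D T ω n N)).card) Cq Cg N₁ hgood hbad ?_
  intro n X
  have hsub : T ^ n ⊆ ((T ^ n).filter fun y => ∃ N ≤ X, Prof D T ω n N y) ∪
      (Finset.Ioc X (n + 1)).biUnion fun N => (T ^ n).filter (Prof D T ω n N) := by
    intro y hy
    obtain ⟨x, hx, hxn⟩ := exists_path T n y hy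
    obtain ⟨M, h, N, hcut⟩ := exists_cut n (fun k => D.lev (x k)) ω hω
    have hP : Prof D T ω n N y := ⟨x, M, h, hx, hxn, hcut⟩
    have hN : N ≤ n + 1 := by
      rw [hcut.hN, cnt]
      exact (Finset.card_filter_le _ _).trans (by rw [Finset.card_range])
    rcases le_or_gt N X with h2 | h2
    · exact Finset.mem_union_left _ (Finset.mem_filter.mpr ⟨hy, N, h2, hP⟩)
    · exact Finset.mem_union_right _ (Finset.mem_biUnion.mpr
        ⟨N, Finset.mem_Ioc.mpr ⟨h2, hN⟩, Finset.mem_filter.mpr ⟨hy, hP⟩⟩)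
  refine (Finset.card_le_card hsub).trans ((Finset.card_union_le _ _).trans ?_)
  exact Nat.add_le_add_left Finset.card_biUnion_le _

/-- a finite by abelian extension has polynomial growth -/
theorem virt_abelian {G K : Type} [Group G] [CommGroup K] [DecidableEq G] (ι : K →* G)
    (hfi : ι.range.FiniteIndex) (hn : ι.range.Normal) (T : Finset G)
    (c : ℝ) (hc : 1 < c) (hexp : ∀ n : ℕ, c ^ n ≤ ((T ^ n).card : ℝ)) : False := by
  classical
  have hfin : Finite (G ⧸ ι.range) := Subgroup.finite_quotient_of_finiteIndex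
  have : Fintype (G ⧸ ι.range) := Fintype.ofFinite _
  -- representatives
  let rep : G → G := fun x => Quotient.out (QuotientGroup.mk x : G ⧸ ι.range)
  have hrep : ∀ x : G, ∃ k : K, x = ι k * rep x := by
    intro x
    have h1 : (QuotientGroup.mk (rep x) : G ⧸ ι.range) = QuotientGroup.mk x := Quotient.out_eq _
    have h2 : x * (rep x)⁻¹ ∈ ι.range := by
      rw [← QuotientGroup.eq_one_iff, QuotientGroup.mk_mul, QuotientGroup.mk_inv, h1,
        mul_inv_cancel]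
    obtain ⟨k, hk⟩ := h2
    exact ⟨k, by rw [hk]; group⟩
  choose al hal using hrep
  let P : Finset G := (Finset.univ : Finset (G ⧸ ι.range)).image Quotient.out
  have hrepP : ∀ x, rep x ∈ P := fun x =>
    Finset.mem_image.mpr ⟨QuotientGroup.mk x, Finset.mem_univ _, rfl⟩
  let E : Finset K := (insert 1 P ×ˢ T).image fun a => al (a.1 * a.2)
  have key : ∀ n : ℕ, ∀ x ∈ T ^ n, ∃ k ∈ E ^ n, ∃ p ∈ insert 1 P, x = ι k * p := by
    intro n
    induction n with
    | zero =>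
      intro x hx
      rw [pow_zero, Finset.mem_one] at hx
      exact ⟨1, by simp, 1, Finset.mem_insert_self _ _, by rw [hx]; simp⟩
    | succ n ih =>
      intro x hx
      rw [pow_succ] at hx
      obtain ⟨y, hy, s, hs, rfl⟩ := Finset.mem_mul.mp hx
      obtain ⟨k, hk, p, hp, rfl⟩ := ih y hy
      refine ⟨k * al (p * s), ?_, rep (p * s), Finset.mem_insert_of_mem (hrepP _), ?_⟩
      · rw [pow_succ]
        exact Finset.mul_mem_mul hk
          (Finset.mem_image.mpr ⟨(p, s), Finset.mem_product.mpr ⟨hp, hs⟩, rfl⟩)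
      · rw [mul_assoc, map_mul, mul_assoc, ← hal]
  have hcard : ∀ n : ℕ, (T ^ n).card ≤ (n + 1) ^ E.card * (insert 1 P).card := by
    intro n
    have h2 : T ^ n ⊆ ((E ^ n) ×ˢ insert 1 P).image fun a => ι a.1 * a.2 := by
      intro x hx
      obtain ⟨k, hk, p, hp, e⟩ := key n x hx
      exact Finset.mem_image.mpr ⟨(k, p), Finset.mem_product.mpr ⟨hk, hp⟩, e.symm⟩
    refine (Finset.card_le_card h2).trans (Finset.card_image_le.trans ?_)
    rw [Finset.card_product]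
    exact Nat.mul_le_mul_right _ (pow_card_le E n)
  -- polynomials do not dominate exponentials
  set d := E.card with hd
  set B : ℝ := ((insert 1 P).card : ℝ) with hB
  have hlim := tendsto_pow_const_div_const_pow_of_one_lt d hc
  have hlim2 := (hlim.comp (Filter.tendsto_add_atTop_nat 1)).const_mul (c * B)
  rw [mul_zero] at hlim2
  obtain ⟨n, hn⟩ := (hlim2.eventually (gt_mem_nhds zero_lt_one)).exists
  have h3 := hexp n
  have h4 : ((T ^ n).card : ℝ) ≤ ((n : ℝ) + 1) ^ d * B := by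
    have := hcard n
    rw [hB]
    exact_mod_cast this
  have hc0 : 0 < c := zero_lt_one.trans hc
  have h5 : 0 < c ^ n := pow_pos hc0 n
  simp only [Function.comp_apply] at hn
  push_cast at hn
  rw [← mul_div_assoc, div_lt_one (pow_pos hc0 _), pow_succ] at hn
  nlinarith

lemma finite_index_aux {G : Type*} [Group G] (A : Subgroup G) (hA : A.Normal) (t : G) (i : ℤ)
    (hi0 : i ≠ 0) (hi : t ^ i ∈ A) (hfi : (A ⊔ Subgroup.zpowers t).FiniteIndex) :
    A.FiniteIndex := by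
  have h1 : A.relIndex (Subgroup.zpowers t) ≠ 0 := by
    have h2 : (zpowersHom G t).range = Subgroup.zpowers t := rfl
    rw [← h2, ← Subgroup.index_comap]
    let Z : AddSubgroup ℤ := AddSubgroup.zmultiples i
    have h3 : AddSubgroup.toSubgroup Z ≤ A.comap (zpowersHom G t) := by
      intro x hx
      have hx' : Multiplicative.toAdd x ∈ Z := hx
      obtain ⟨k, hk⟩ := AddSubgroup.mem_zmultiples_iff.mp hx'
      rw [Subgroup.mem_comap, zpowersHom_apply]
      rw [← hk, smul_eq_mul, mul_comm, zpow_mul]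
      exact zpow_mem hi k
    intro h5
    have h6 := Subgroup.index_dvd_of_le h3
    rw [h5, zero_dvd_iff, AddSubgroup.index_toSubgroup, Int.index_zmultiples,
      Int.natAbs_eq_zero] at h6
    exact hi0 h6
  constructor
  have h7 : A.relIndex (A ⊔ Subgroup.zpowers t) = A.relIndex (Subgroup.zpowers t) := by
    rw [Subgroup.relIndex_sup_left]
  have h8 := Subgroup.relIndex_mul_index (le_sup_left : A ≤ A ⊔ Subgroup.zpowers t)
  rw [← h8, h7]
  exact mul_ne_zero h1 hfi.index_ne_zero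

end Pool.Agent.AC73
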